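import Pool.Agent.HypSAW98.Hyp

/-!
# Combinatorics of good slots and of chains of pieces
-/

open MeasureTheory Set Filter Topology
open scoped RealInnerProductSpace

namespace Pool.Agent.HypSAW98

variable {k : ℕ}

/-- A slot `i ≤ n` is good if all averages of `δ` over intervals starting or ending at `i` are
at most `β`. -/
def Good (n : ℕ) (δ : ℕ → ℝ) (β : ℝ) (i : ℕ) : Prop :=
  (∀ j, i < j → j ≤ n → ∑ t ∈ Finset.Ico i j, δ t ≤ β * ((j : ℝ) - i)) ∧
    ∀ j, j < i → ∑ t ∈ Finset.Ico j i, δ t ≤ β * ((i : ℝ) - j)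

/-- forward bad slots -/
def FB (n : ℕ) (δ : ℕ → ℝ) (β : ℝ) (i : ℕ) : Prop :=
  ∃ j, i < j ∧ j ≤ n ∧ β * ((j : ℝ) - i) < ∑ t ∈ Finset.Ico i j, δ t

/-- backward bad slots -/
def BB (δ : ℕ → ℝ) (β : ℝ) (i : ℕ) : Prop :=
  ∃ j, j < i ∧ β * ((i : ℝ) - j) < ∑ t ∈ Finset.Ico j i, δ t

open Classical in
lemma FB_count (n : ℕ) (δ : ℕ → ℝ) (hδ : ∀ j, 0 ≤ δ j) (β : ℝ) (hβ : 0 < β) :
    ∀ m a : ℕ, n - a = m → β * (((Finset.Ico a n).filter (FB n δ β)).card : ℝ) ≤
      ∑ t ∈ Finset.Ico a n, δ t := by
  intro m
  induction m using Nat.strong_induction_on with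
  | _ m ih =>
    intro a hm
    rcases le_or_gt n a with hna | hna
    · rw [Finset.Ico_eq_empty_of_le hna]; simp
    by_cases hb : FB n δ β a
    · obtain ⟨j, haj, hjn, hj⟩ := hb
      have h1 := ih (n - j) (by omega) j rfl
      have h2 : ((Finset.Ico a n).filter (FB n δ β)).card ≤
          (j - a) + ((Finset.Ico j n).filter (FB n δ β)).card := by
        have hsub : (Finset.Ico a n).filter (FB n δ β) ⊆
            Finset.Ico a j ∪ (Finset.Ico j n).filter (FB n δ β) := by
          intro x hx
          rw [Finset.mem_filter, Finset.mem_Ico] at hx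
          rw [Finset.mem_union, Finset.mem_Ico, Finset.mem_filter, Finset.mem_Ico]
          rcases lt_or_ge x j with h | h
          · left; exact ⟨hx.1.1, h⟩
          · right; exact ⟨⟨h, hx.1.2⟩, hx.2⟩
        refine (Finset.card_le_card hsub).trans ((Finset.card_union_le _ _).trans ?_)
        rw [Nat.card_Ico]
      have h3 : (((Finset.Ico a n).filter (FB n δ β)).card : ℝ) ≤
          ((j : ℝ) - a) + (((Finset.Ico j n).filter (FB n δ β)).card : ℝ) := by
        have h4 : (((Finset.Ico a n).filter (FB n δ β)).card : ℝ) ≤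
          (((j - a) + ((Finset.Ico j n).filter (FB n δ β)).card : ℕ) : ℝ) := by exact_mod_cast h2
        rw [Nat.cast_add, Nat.cast_sub haj.le] at h4
        exact h4
      have h5 : β * (((Finset.Ico a n).filter (FB n δ β)).card : ℝ) ≤
          β * ((j : ℝ) - a) + β * (((Finset.Ico j n).filter (FB n δ β)).card : ℝ) := by
        rw [← mul_add]; exact mul_le_mul_of_nonneg_left h3 hβ.le
      rw [← Finset.sum_Ico_consecutive δ haj.le hjn]
      linarith
    · have h1 := ih (n - (a + 1)) (by omega) (a + 1) rfl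
      have h2 : (Finset.Ico a n).filter (FB n δ β) = (Finset.Ico (a + 1) n).filter (FB n δ β) := by
        ext x
        simp only [Finset.mem_filter, Finset.mem_Ico]
        constructor
        · rintro ⟨⟨h3, h4⟩, h5⟩
          refine ⟨⟨?_, h4⟩, h5⟩
          rcases h3.lt_or_eq with h | h
          · exact h
          · subst h; exact absurd h5 hb
        · rintro ⟨⟨h3, h4⟩, h5⟩
          exact ⟨⟨by omega, h4⟩, h5⟩
      rw [h2]
      have h6 : ∑ t ∈ Finset.Ico a n, δ t = δ a + ∑ t ∈ Finset.Ico (a + 1) n, δ t :=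
        Finset.sum_eq_sum_Ico_succ_bot hna δ
      have := hδ a
      linarith

open Classical in
lemma BB_count (δ : ℕ → ℝ) (hδ : ∀ j, 0 ≤ δ j) (β : ℝ) (hβ : 0 < β) :
    ∀ n : ℕ, β * (((Finset.range (n + 1)).filter (BB δ β)).card : ℝ) ≤
      ∑ t ∈ Finset.range n, δ t := by
  intro n
  induction n using Nat.strong_induction_on with
  | _ n ih =>
    rcases Nat.eq_zero_or_pos n with hn | hn
    · subst hn
      have : (Finset.range (0 + 1)).filter (BB δ β) = ∅ := by
        ext x
        simp only [Finset.mem_filter, Finset.mem_range, Finset.notMem_empty, iff_false]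
        rintro ⟨h1, j, h2, _⟩
        omega
      rw [this]; simp
    by_cases hb : BB δ β n
    · obtain ⟨j, hjn, hj⟩ := hb
      have h1 := ih j hjn
      have h2 : ((Finset.range (n + 1)).filter (BB δ β)).card ≤
          (n - j) + ((Finset.range (j + 1)).filter (BB δ β)).card := by
        have hsub : (Finset.range (n + 1)).filter (BB δ β) ⊆
            Finset.Ico (j + 1) (n + 1) ∪ (Finset.range (j + 1)).filter (BB δ β) := by
          intro x hx
          rw [Finset.mem_filter, Finset.mem_range] at hx
          rw [Finset.mem_union, Finset.mem_Ico, Finset.mem_filter, Finset.mem_range]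
          rcases lt_or_ge x (j + 1) with h | h
          · right; exact ⟨h, hx.2⟩
          · left; exact ⟨h, hx.1⟩
        refine (Finset.card_le_card hsub).trans ((Finset.card_union_le _ _).trans ?_)
        rw [Nat.card_Ico]
        omega
      have h3 : (((Finset.range (n + 1)).filter (BB δ β)).card : ℝ) ≤
          ((n : ℝ) - j) + (((Finset.range (j + 1)).filter (BB δ β)).card : ℝ) := by
        have h4 : (((Finset.range (n + 1)).filter (BB δ β)).card : ℝ) ≤
          (((n - j) + ((Finset.range (j + 1)).filter (BB δ β)).card : ℕ) : ℝ) := by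
          exact_mod_cast h2
        rw [Nat.cast_add, Nat.cast_sub hjn.le] at h4
        exact h4
      have h5 : β * (((Finset.range (n + 1)).filter (BB δ β)).card : ℝ) ≤
          β * ((n : ℝ) - j) + β * (((Finset.range (j + 1)).filter (BB δ β)).card : ℝ) := by
        rw [← mul_add]; exact mul_le_mul_of_nonneg_left h3 hβ.le
      have h6 := Finset.sum_range_add_sum_Ico δ hjn.le
      linarith
    · obtain ⟨m, rfl⟩ : ∃ m, n = m + 1 := ⟨n - 1, by omega⟩
      have h1 := ih m (by omega)
      rw [Finset.range_add_one, Finset.filter_insert, if_neg hb]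
      rw [Finset.sum_range_succ]
      have := hδ m
      linarith

open Classical in
/-- There is an offset for which few slots are bad. -/
theorem exists_offset (L N : ℕ) (hL : 1 ≤ L) (δ : ℕ → ℝ) (hδ : ∀ j, 0 ≤ δ j) (β b : ℝ)
    (hβ : 0 < β) (hsum : ∑ j ∈ Finset.range (L * N), δ j ≤ b * β / 2 * (L * N)) :
    ∃ τ < L, (({i ∈ Finset.range N | ¬ Good (L * N) δ β (τ + i * L)} : Finset ℕ).card : ℝ) ≤ b * N := by
  by_contra hcon
  push Not at hcon
  obtain ⟨n, hn⟩ : ∃ n, n = L * N := ⟨_, rfl⟩
  -- the number of bad slots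
  have hbad : β * (((Finset.range n).filter (fun i => ¬ Good n δ β i)).card : ℝ) ≤
      2 * ∑ t ∈ Finset.range n, δ t := by
    have h1 := FB_count n δ hδ β hβ (n - 0) 0 rfl
    have h2 := BB_count δ hδ β hβ n
    rw [← Finset.range_eq_Ico] at h1
    have h3 : ((Finset.range n).filter (fun i => ¬ Good n δ β i)).card ≤
        ((Finset.range n).filter (FB n δ β)).card +
          ((Finset.range (n + 1)).filter (BB δ β)).card := by
      refine le_trans (Finset.card_le_card ?_) (Finset.card_union_le _ _)
      intro x hx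
      rw [Finset.mem_filter, Finset.mem_range] at hx
      rw [Finset.mem_union, Finset.mem_filter, Finset.mem_filter, Finset.mem_range,
        Finset.mem_range]
      obtain ⟨hx1, hx2⟩ := hx
      unfold Good at hx2
      rw [not_and_or] at hx2
      rcases hx2 with h | h
      · push Not at h
        obtain ⟨j, h4, h5, h6⟩ := h
        left; exact ⟨hx1, j, h4, h5, h6⟩
      · push Not at h
        obtain ⟨j, h4, h5⟩ := h
        right; exact ⟨by omega, j, h4, h5⟩
    have h4 : (((Finset.range n).filter (fun i => ¬ Good n δ β i)).card : ℝ) ≤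
        (((Finset.range n).filter (FB n δ β)).card : ℝ) +
          (((Finset.range (n + 1)).filter (BB δ β)).card : ℝ) := by exact_mod_cast h3
    have h5 := mul_le_mul_of_nonneg_left h4 hβ.le
    rw [mul_add] at h5
    linarith
  -- fibres
  have hfib : ((Finset.range n).filter (fun i => ¬ Good n δ β i)).card =
      ∑ τ ∈ Finset.range L, (((Finset.range n).filter (fun i => ¬ Good n δ β i)).filter
        (fun t => t % L = τ)).card := by
    refine Finset.card_eq_sum_card_fiberwise ?_
    intro t _
    simp only [Finset.coe_range, Set.mem_Iio]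
    exact Nat.mod_lt _ (by omega)
  have hle : ∀ τ ∈ Finset.range L,
      ({i ∈ Finset.range N | ¬ Good n δ β (τ + i * L)} : Finset ℕ).card ≤
      (((Finset.range n).filter (fun i => ¬ Good n δ β i)).filter (fun t => t % L = τ)).card := by
    intro τ hτ
    rw [Finset.mem_range] at hτ
    refine Finset.card_le_card_of_injOn (fun i => τ + i * L) ?_ ?_
    · intro i hi
      simp only [Finset.coe_filter, Finset.mem_range, Set.mem_ofPred_eq] at hi
      simp only [Finset.coe_filter, Finset.mem_range, Finset.mem_filter, Set.mem_ofPred_eq]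
      refine ⟨⟨?_, hi.2⟩, ?_⟩
      · rw [hn]
        have h1 : (i + 1) * L ≤ N * L := Nat.mul_le_mul_right L (by omega)
        calc τ + i * L < L + i * L := by omega
          _ = (i + 1) * L := by ring
          _ ≤ N * L := h1
          _ = L * N := by ring
      · rw [Nat.add_mul_mod_self_right, Nat.mod_eq_of_lt hτ]
    · intro i _ j _ hij
      simp only at hij
      have : i * L = j * L := by omega
      exact Nat.eq_of_mul_eq_mul_right (by omega) this
  have h1 : (L : ℝ) * (b * N) < ∑ τ ∈ Finset.range L,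
      (({i ∈ Finset.range N | ¬ Good n δ β (τ + i * L)} : Finset ℕ).card : ℝ) := by
    have h2 : ∑ τ ∈ Finset.range L, (b * (N : ℝ)) < ∑ τ ∈ Finset.range L,
      (({i ∈ Finset.range N | ¬ Good n δ β (τ + i * L)} : Finset ℕ).card : ℝ) := by
      refine Finset.sum_lt_sum_of_nonempty ⟨0, by rw [Finset.mem_range]; omega⟩ ?_
      intro τ hτ
      rw [Finset.mem_range] at hτ
      rw [hn]
      exact hcon τ hτ
    rw [Finset.sum_const, Finset.card_range, nsmul_eq_mul] at h2
    exact h2
  have h3 : ∑ τ ∈ Finset.range L,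
      (({i ∈ Finset.range N | ¬ Good n δ β (τ + i * L)} : Finset ℕ).card : ℝ) ≤
      (((Finset.range n).filter (fun i => ¬ Good n δ β i)).card : ℝ) := by
    rw [hfib, Nat.cast_sum]
    exact Finset.sum_le_sum fun τ hτ => by exact_mod_cast hle τ hτ
  rw [← hn] at hsum
  have h4 : β * ((L : ℝ) * (b * N)) < β *
      (((Finset.range n).filter (fun i => ¬ Good n δ β i)).card : ℝ) :=
    mul_lt_mul_of_pos_left (h1.trans_le h3) hβ
  nlinarith

section
variable {α : Type*} [MeasurableSpace α]

/-- Chains of pieces: `Ch m P D R N q ω` says that `ω` (seen from a cut) decomposes into pieces of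
lengths multiple of `m` (`P g` for length `g m`), `q` of which are direct ones of length `m` in `D`,
and a rest in `R`, the total being `N` windows. -/
inductive Ch (m : ℕ) (P : ℕ → Set (ℕ → α)) (D : Set (ℕ → α)) (R : ℕ → Set (ℕ → α)) :
    ℕ → ℕ → (ℕ → α) → Prop
  | stop {N : ℕ} {ω : ℕ → α} : ω ∈ R N → Ch m P D R N 0 ω
  | step {N g q : ℕ} {ω : ℕ → α} : 1 ≤ g → ω ∈ P g → Ch m P D R N q (shift (g * m) ω) →
      Ch m P D R (N + g) q ω
  | dir {N q : ℕ} {ω : ℕ → α} : ω ∈ D → Ch m P D R N q (shift m ω) → Ch m P D R (N + 1) (q + 1) ω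

omit [MeasurableSpace α] in
lemma Ch_eq (m : ℕ) (P : ℕ → Set (ℕ → α)) (D : Set (ℕ → α)) (R : ℕ → Set (ℕ → α)) (N q : ℕ) :
    {ω | Ch m P D R N q ω} = {ω | q = 0 ∧ ω ∈ R N} ∪
      ((⋃ g ∈ Finset.Icc 1 N, P g ∩ shift (g * m) ⁻¹' {ω | Ch m P D R (N - g) q ω}) ∪
        {ω | 1 ≤ N ∧ 1 ≤ q ∧ ω ∈ D ∩ shift m ⁻¹' {ω | Ch m P D R (N - 1) (q - 1) ω}}) := by
  ext ω
  simp only [Set.mem_union, Set.mem_iUnion, Set.mem_inter_iff, Set.mem_preimage,
    Set.mem_ofPred_eq, Finset.mem_Icc]
  constructor
  · intro h
    cases h with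
    | stop h => left; exact ⟨rfl, h⟩
    | @step N' g _ _ hg h1 h2 =>
      right; left
      refine ⟨g, ⟨hg, by omega⟩, h1, ?_⟩
      have : N' + g - g = N' := by omega
      rw [this]; exact h2
    | dir h1 h2 => right; right; exact ⟨by omega, by omega, h1, h2⟩
  · rintro (⟨rfl, h⟩ | ⟨g, ⟨hg, hgN⟩, h1, h2⟩ | ⟨hN, hq, h1, h2⟩)
    · exact Ch.stop h
    · have := Ch.step (R := R) (D := D) hg h1 h2
      rwa [Nat.sub_add_cancel hgN] at this
    · have := Ch.dir (P := P) (R := R) h1 h2
      rwa [Nat.sub_add_cancel hN, Nat.sub_add_cancel hq] at this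

lemma geom_aux {y a : ℝ} (hy : y = 4 * a + 1) (N : ℕ) :
    a * ∑ g ∈ Finset.Icc 1 N, y ^ (N - g) = (y ^ N - 1) / 4 := by
  induction N with
  | zero => simp
  | succ N ih =>
    have h1 : ∑ g ∈ Finset.Icc 1 (N + 1), y ^ (N + 1 - g) =
        y * (∑ g ∈ Finset.Icc 1 N, y ^ (N - g)) + 1 := by
      rw [Finset.sum_Icc_succ_top (by omega), Finset.mul_sum]
      congr 1
      · refine Finset.sum_congr rfl fun g hg => ?_
        rw [Finset.mem_Icc] at hg
        rw [← pow_succ']
        congr 1; omega
      · simp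
    rw [h1]
    have : a * (y * (∑ g ∈ Finset.Icc 1 N, y ^ (N - g)) + 1) =
        y * (a * ∑ g ∈ Finset.Icc 1 N, y ^ (N - g)) + a := by ring
    rw [this, ih, pow_succ]
    rw [hy]; ring

/-- Probability of chains of independent pieces. -/
theorem chain_bound (σ : Measure α) [IsProbabilityMeasure σ] {m : ℕ} {P : ℕ → Set (ℕ → α)}
    {D : Set (ℕ → α)} {R : ℕ → Set (ℕ → α)} (hPm : ∀ g, MeasurableSet (P g)) (hDm : MeasurableSet D)
    (hRm : ∀ n, MeasurableSet (R n)) (hPd : ∀ g, Dep (g * m) (P g)) (hDd : Dep m D)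
    {a lam s Cr M : ℝ} (ha : 1 ≤ a) (hlam : 0 < lam) (hs : 1 ≤ s) (hCr : 0 ≤ Cr) (hM : 1 ≤ M)
    (hP : ∀ g, 1 ≤ g → (iid σ).real (P g) ≤ a * lam ^ g) (hD : (iid σ).real D ≤ a / M * lam)
    (hR : ∀ n, (iid σ).real (R n) ≤ Cr * (lam * s) ^ n) (N q : ℕ) :
    MeasurableSet {ω | Ch m P D R N q ω} ∧
      (iid σ).real {ω | Ch m P D R N q ω} ≤ 2 * Cr * ((4 * a + 1) * lam * s) ^ N / M ^ q := by
  induction N using Nat.strong_induction_on generalizing q with
  | _ N ih =>
    have hm1 : MeasurableSet {ω : ℕ → α | q = 0 ∧ ω ∈ R N} := by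
      by_cases hq : q = 0
      · simp only [hq, true_and]; exact hRm N
      · simp only [hq, false_and]; exact MeasurableSet.const _
    have hm2 : MeasurableSet (⋃ g ∈ Finset.Icc 1 N,
        P g ∩ shift (g * m) ⁻¹' {ω | Ch m P D R (N - g) q ω}) := by
      refine Finset.measurableSet_biUnion _ fun g hg => ?_
      rw [Finset.mem_Icc] at hg
      exact (hPm g).inter (measurable_shift _ (ih (N - g) (by omega) q).1)
    have hm3 : MeasurableSet {ω : ℕ → α | 1 ≤ N ∧ 1 ≤ q ∧
        ω ∈ D ∩ shift m ⁻¹' {ω | Ch m P D R (N - 1) (q - 1) ω}} := by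
      by_cases hN : 1 ≤ N
      · by_cases hq : 1 ≤ q
        · simp only [hN, hq, true_and]
          exact hDm.inter (measurable_shift _ (ih (N - 1) (by omega) (q - 1)).1)
        · simp only [hq, false_and, and_false]; exact MeasurableSet.const _
      · simp only [hN, false_and]; exact MeasurableSet.const _
    refine ⟨by rw [Ch_eq]; exact hm1.union (hm2.union hm3), ?_⟩
    obtain ⟨y, hy⟩ : ∃ y, y = 4 * a + 1 := ⟨_, rfl⟩
    obtain ⟨x, hx⟩ : ∃ x, x = lam * s := ⟨_, rfl⟩
    have hx0 : 0 < x := by rw [hx]; positivity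
    have hlx : lam ≤ x := by rw [hx]; nlinarith
    have hy1 : 1 ≤ y := by rw [hy]; linarith
    have hM0 : 0 < M := by linarith
    have e0 : (4 * a + 1) * lam * s = y * x := by rw [hy, hx]; ring
    rw [e0]
    simp only [e0] at ih
    have hMq : 0 < M ^ q := pow_pos hM0 q
    -- first part
    have b1 : (iid σ).real {ω : ℕ → α | q = 0 ∧ ω ∈ R N} ≤ Cr * x ^ N / M ^ q := by
      by_cases hq : q = 0
      · simp only [hq, true_and, pow_zero, div_one]
        rw [hx]; exact hR N
      · simp only [hq, false_and]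
        have : (iid σ).real {ω : ℕ → α | False} = 0 := by simp
        rw [this]; positivity
    -- second part
    have b2 : (iid σ).real (⋃ g ∈ Finset.Icc 1 N,
        P g ∩ shift (g * m) ⁻¹' {ω | Ch m P D R (N - g) q ω}) ≤
        2 * Cr * x ^ N / M ^ q * ((y ^ N - 1) / 4) := by
      refine (measureReal_biUnion_finset_le _ _).trans ?_
      rw [← geom_aux hy N]
      have : 2 * Cr * x ^ N / M ^ q * (a * ∑ g ∈ Finset.Icc 1 N, y ^ (N - g)) =
          ∑ g ∈ Finset.Icc 1 N, (a * x ^ g) * (2 * Cr * (y * x) ^ (N - g) / M ^ q) := by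
        rw [Finset.mul_sum, Finset.mul_sum]
        refine Finset.sum_congr rfl fun g hg => ?_
        rw [Finset.mem_Icc] at hg
        have e1 : x ^ N = x ^ g * x ^ (N - g) := by rw [← pow_add]; congr 1; omega
        rw [e1, mul_pow]; ring
      rw [this]
      refine Finset.sum_le_sum fun g hg => ?_
      rw [Finset.mem_Icc] at hg
      have hih := ih (N - g) (by omega) q
      rw [real_inter_shift σ (hPm g) (hPd g) hih.1]
      refine mul_le_mul ((hP g hg.1).trans ?_) hih.2 measureReal_nonneg (by positivity)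
      gcongr
    -- third part
    have b3 : (iid σ).real {ω : ℕ → α | 1 ≤ N ∧ 1 ≤ q ∧
        ω ∈ D ∩ shift m ⁻¹' {ω | Ch m P D R (N - 1) (q - 1) ω}} ≤
        2 * Cr * x ^ N / M ^ q * (y ^ N / 4) := by
      by_cases hN : 1 ≤ N
      · by_cases hq : 1 ≤ q
        · simp only [hN, hq, true_and]
          have hih := ih (N - 1) (by omega) (q - 1)
          have e1 : {ω : ℕ → α | ω ∈ D ∩ shift m ⁻¹' {ω | Ch m P D R (N - 1) (q - 1) ω}} =
            D ∩ shift m ⁻¹' {ω | Ch m P D R (N - 1) (q - 1) ω} := rfl
          rw [e1, real_inter_shift σ hDm hDd hih.1]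
          calc (iid σ).real D * (iid σ).real {ω | Ch m P D R (N - 1) (q - 1) ω}
              ≤ (a / M * x) * (2 * Cr * (y * x) ^ (N - 1) / M ^ (q - 1)) := by
                refine mul_le_mul (hD.trans ?_) hih.2 measureReal_nonneg (by positivity)
                gcongr
            _ = 2 * Cr * x ^ N / M ^ q * (a * y ^ (N - 1)) := by
                have e2 : x ^ N = x * x ^ (N - 1) := by rw [← pow_succ']; congr 1; omega
                have e3 : M ^ q = M * M ^ (q - 1) := by rw [← pow_succ']; congr 1; omega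
                rw [e2, e3, mul_pow]
                field_simp
            _ ≤ 2 * Cr * x ^ N / M ^ q * (y ^ N / 4) := by
                refine mul_le_mul_of_nonneg_left ?_ (by positivity)
                have e4 : y ^ N = y * y ^ (N - 1) := by rw [← pow_succ']; congr 1; omega
                rw [e4]
                have : 0 < y ^ (N - 1) := by positivity
                nlinarith
        · simp only [hq, false_and, and_false]
          have : (iid σ).real {ω : ℕ → α | False} = 0 := by simp
          rw [this]; positivity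
      · simp only [hN, false_and]
        have : (iid σ).real {ω : ℕ → α | False} = 0 := by simp
        rw [this]; positivity
    have hu : (iid σ).real {ω | Ch m P D R N q ω} ≤ Cr * x ^ N / M ^ q +
        (2 * Cr * x ^ N / M ^ q * ((y ^ N - 1) / 4) + 2 * Cr * x ^ N / M ^ q * (y ^ N / 4)) := by
      rw [Ch_eq]
      refine (measureReal_union_le _ _).trans (add_le_add b1 ?_)
      exact (measureReal_union_le _ _).trans (add_le_add b2 b3)
    refine hu.trans ?_
    have hK : 0 ≤ 2 * Cr * x ^ N / M ^ q := by positivity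
    have hyN : 1 ≤ y ^ N := one_le_pow₀ hy1
    have e5 : Cr * x ^ N / M ^ q = 2 * Cr * x ^ N / M ^ q * (1 / 2) := by ring
    have e6 : 2 * Cr * (y * x) ^ N / M ^ q = 2 * Cr * x ^ N / M ^ q * y ^ N := by
      rw [mul_pow]; ring
    rw [e5, e6, ← mul_add, ← mul_add]
    refine mul_le_mul_of_nonneg_left ?_ hK
    linarith

omit [MeasurableSpace α] in
open Classical in
/-- A path with many good slots is a chain of pieces. -/
theorem ch_of_good {m : ℕ} {P : ℕ → Set (ℕ → α)} {D : Set (ℕ → α)} {R : ℕ → Set (ℕ → α)}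
    (N : ℕ) (good direct : ℕ → Prop) (ω : ℕ → α)
    (hR : ∀ i ≤ N, good i → shift (i * m) ω ∈ R (N - i))
    (hP : ∀ i j, i < j → j ≤ N → good i → good j → shift (i * m) ω ∈ P (j - i))
    (hD : ∀ i < N, good i → good (i + 1) → direct i → shift (i * m) ω ∈ D)
    (i : ℕ) (hi : i ≤ N) (hg : good i) :
    Ch m P D R (N - i)
      ((Finset.Ico i N).filter fun t => good t ∧ good (t + 1) ∧ direct t).card (shift (i * m) ω) := by
  obtain ⟨d, hd⟩ : ∃ d, d = N - i := ⟨_, rfl⟩
  induction d using Nat.strong_induction_on generalizing i with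
  | _ d ih =>
    by_cases hex : ∃ j, i < j ∧ j ≤ N ∧ good j
    · have hj := Nat.find_spec hex
      have hmin := fun l (hl : l < Nat.find hex) => Nat.find_min hex hl
      obtain ⟨j, hjdef⟩ : ∃ j, j = Nat.find hex := ⟨_, rfl⟩
      rw [← hjdef] at hj
      simp only [← hjdef] at hmin
      obtain ⟨hij, hjN, hgj⟩ := hj
      have hih := ih (N - j) (by omega) j hjN hgj rfl
      have hshift : shift ((j - i) * m) (shift (i * m) ω) = shift (j * m) ω := by
        rw [shift_shift]
        congr 1
        rw [← add_mul]; congr 1; omega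
      by_cases hdir : j = i + 1 ∧ direct i
      · obtain ⟨hj1, hdi⟩ := hdir
        have hDi := hD i (by omega) hg (hj1 ▸ hgj) hdi
        have hs : shift m (shift (i * m) ω) = shift (j * m) ω := by
          rw [shift_shift]; congr 1
          rw [hj1]; ring
        rw [← hs] at hih
        have h1 := Ch.dir (P := P) (R := R) hDi hih
        have e1 : N - j + 1 = N - i := by omega
        have e2 : ((Finset.Ico i N).filter fun t => good t ∧ good (t + 1) ∧ direct t).card =
            ((Finset.Ico j N).filter fun t => good t ∧ good (t + 1) ∧ direct t).card + 1 := by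
          have : Finset.Ico i N = insert i (Finset.Ico j N) := by
            rw [hj1]; ext t; simp only [Finset.mem_insert, Finset.mem_Ico]; omega
          rw [this, Finset.filter_insert, if_pos ⟨hg, hj1 ▸ hgj, hdi⟩, Finset.card_insert_of_notMem]
          simp only [Finset.mem_filter, Finset.mem_Ico]
          omega
        rw [e2, ← e1]
        exact h1
      · have hPi := hP i j hij hjN hg hgj
        rw [← hshift] at hih
        have h1 := Ch.step (R := R) (D := D) (g := j - i) (by omega) hPi hih
        have e1 : N - j + (j - i) = N - i := by omega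
        have e2 : (Finset.Ico i N).filter (fun t => good t ∧ good (t + 1) ∧ direct t) =
            (Finset.Ico j N).filter (fun t => good t ∧ good (t + 1) ∧ direct t) := by
          ext t
          simp only [Finset.mem_filter, Finset.mem_Ico]
          constructor
          · rintro ⟨⟨h2, h3⟩, h4, h5, h6⟩
            refine ⟨⟨?_, h3⟩, h4, h5, h6⟩
            by_contra h7
            push Not at h7
            rcases h2.lt_or_eq with h8 | h8
            · exact hmin t h7 ⟨h8, h3.le, h4⟩
            · subst h8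
              apply hdir
              refine ⟨?_, h6⟩
              by_contra h9
              exact hmin (i + 1) (by omega) ⟨by omega, by omega, h5⟩
          · rintro ⟨⟨h2, h3⟩, h4⟩
            exact ⟨⟨by omega, h3⟩, h4⟩
        rw [e2, ← e1]
        exact h1
    · push Not at hex
      have e : (Finset.Ico i N).filter (fun t => good t ∧ good (t + 1) ∧ direct t) = ∅ := by
        ext t
        simp only [Finset.mem_filter, Finset.mem_Ico, Finset.notMem_empty, iff_false]
        rintro ⟨⟨h2, h3⟩, h4, h5, h6⟩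
        exact hex (t + 1) (by omega) (by omega) h5
      rw [e, Finset.card_empty]
      exact Ch.stop (hR i hi hg)

end

end Pool.Agent.HypSAW98
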