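import Pool.Agent.HypSAW98.GoodSlots

/-!
# Counting blocks and the deterministic conclusion (package D3)
-/

open MeasureTheory Set Filter Topology
open scoped RealInnerProductSpace

namespace Pool.Agent.HypSAW98.SlowAll

variable {k : ℕ}

open Classical in
/-- The number of fast blocks is small outside of the event `FastBlocks`. -/
lemma card_fast_lt {c v : ℝ} {m N n : ℕ} {a : ℝ} {ω : ℕ → Sph k} (hSA : ω ∈ SA k c n)
    (hn : N * m ≤ n) (hslow : ω ∉ FastBlocks k c v m N a) :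
    (((Finset.range N).filter fun j => v * m ≤ ‖S (shift (j * m) ω) m‖).card : ℝ) < a := by
  by_contra hcon
  push Not at hcon
  have hblk : ∀ j < N, shift (j * m) ω ∈ SA k c m := by
    intro j hj
    refine SA_shift ?_ hSA
    calc j * m + m = (j + 1) * m := by ring
      _ ≤ N * m := Nat.mul_le_mul_right m hj
      _ ≤ n := hn
  apply hslow
  refine ⟨hblk, _, Finset.filter_subset _ _, hcon, fun j hj => ?_⟩
  obtain ⟨h1, h2⟩ := Finset.mem_filter.1 hj
  exact ⟨hblk j (Finset.mem_range.1 h1), h2⟩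

/-- The total deviation is small. -/
lemma sum_del_le {c v ε e1 a1 : ℝ} {e : Euc k} (he : ‖e‖ = 1) (hv0 : 0 < v) (he1 : 0 ≤ e1)
    {m n : ℕ} (hm : 1 ≤ m) {ω : ℕ → Sph k} (hSA : ω ∈ SA k c (n * m))
    (hfar : (v - ε) * ((n * m : ℕ) : ℝ) ≤ ⟪e, S ω (n * m)⟫)
    (hslow : ω ∉ FastBlocks k c (v + e1) m n (a1 * n)) :
    ∑ j ∈ Finset.range n, del e v m ω j ≤ (ε + 2 * e1 + 2 * a1) * n := by
  classical
  have hm' : (0 : ℝ) < m := by exact_mod_cast hm
  have hcard := card_fast_lt hSA le_rfl hslow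
  set T := (Finset.range n).filter fun j => (v + e1) * m ≤ ‖S (shift (j * m) ω) m‖ with hT
  have hj : ∀ j ∈ Finset.range n, del e v m ω j ≤
      (v - ⟪e, S (shift (j * m) ω) m⟫ / m) + (2 * e1 + if j ∈ T then 2 else 0) := by
    intro j hj
    set a : ℝ := ⟪e, S (shift (j * m) ω) m⟫ / m with ha
    set b : ℝ := ‖S (shift (j * m) ω) m‖ / m with hb
    have hab : a ≤ b := by
      have := real_inner_le_norm e (S (shift (j * m) ω) m)
      rw [he, one_mul] at this
      rw [ha, hb]; gcongr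
    have hb1 : b ≤ 1 := by
      rw [hb, div_le_one hm']; exact norm_S_le _ _
    have hbv : b - v ≤ e1 + if j ∈ T then 1 else 0 := by
      by_cases h : j ∈ T
      · rw [if_pos h]; linarith
      · rw [if_neg h]
        have h1 : ‖S (shift (j * m) ω) m‖ < (v + e1) * m := by
          by_contra hcon
          push Not at hcon
          exact h (Finset.mem_filter.2 ⟨hj, hcon⟩)
        have : b < v + e1 := by rw [hb, div_lt_iff₀ hm']; exact h1
        linarith
    have hnn : 0 ≤ e1 + if j ∈ T then (1 : ℝ) else 0 := by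
      split_ifs <;> linarith
    have h1 : max (b - v) 0 ≤ e1 + if j ∈ T then 1 else 0 := max_le hbv hnn
    have h2 : max (v - a) 0 ≤ (v - a) + (e1 + if j ∈ T then 1 else 0) := by
      refine max_le (by linarith) ?_
      linarith
    have h3 : (2 * e1 + if j ∈ T then (2 : ℝ) else 0) =
        (e1 + if j ∈ T then 1 else 0) + (e1 + if j ∈ T then 1 else 0) := by
      split_ifs <;> ring
    unfold del
    rw [← ha, ← hb, h3]
    linarith
  refine (Finset.sum_le_sum hj).trans ?_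
  rw [Finset.sum_add_distrib, Finset.sum_add_distrib, Finset.sum_sub_distrib, Finset.sum_const,
    Finset.sum_const, Finset.card_range, nsmul_eq_mul, nsmul_eq_mul, ← Finset.sum_div]
  have h1 : ∑ j ∈ Finset.range n, ⟪e, S (shift (j * m) ω) m⟫ = ⟪e, S ω (n * m)⟫ := by
    rw [← inner_sum]
    have := slot_diff ω m (Nat.zero_le n)
    rw [zero_mul, S_zero, sub_zero, ← Finset.range_eq_Ico] at this
    rw [this]
  have h2 : ∑ j ∈ Finset.range n, (if j ∈ T then (2 : ℝ) else 0) = 2 * T.card := by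
    rw [Finset.sum_ite_mem, Finset.sum_const, nsmul_eq_mul, Finset.inter_eq_right.2, mul_comm]
    exact Finset.filter_subset _ _
  have h3 : (v - ε) * n ≤ ⟪e, S ω (n * m)⟫ / m := by
    rw [le_div_iff₀ hm']
    push_cast at hfar
    linarith
  rw [h1, h2]
  nlinarith

/-- The number of blocks which are not far in direction `e` is small. -/
lemma card_short_le {c v ε e2 e3 a2 : ℝ} {e : Euc k} (he : ‖e‖ = 1) (hv0 : 0 < v)
    (he2 : 0 ≤ e2) (ha2 : 0 ≤ a2) {N m2 t0 : ℕ} (hm2 : 1 ≤ m2)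
    (ht0 : t0 ≤ m2) {ω : ℕ → Sph k} (hSA : ω ∈ SA k c ((N + 1) * m2))
    (hfar : (v - ε) * (((N + 1) * m2 : ℕ) : ℝ) ≤ ⟪e, S ω ((N + 1) * m2)⟫)
    (hslow : shift t0 ω ∉ FastBlocks k c (v + e2) m2 N (a2 * N)) :
    e3 * (((Finset.range N).filter fun i =>
      ⟪e, S (shift (i * m2) (shift t0 ω)) m2⟫ < (v - e3) * m2).card : ℝ) ≤
      1 + (ε + e2 + a2) * (N + 1) := by
  classical
  have hm' : (0 : ℝ) < m2 := by exact_mod_cast hm2
  have hSA' : shift t0 ω ∈ SA k c (N * m2) := by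
    refine SA_shift ?_ hSA
    have : (N + 1) * m2 = N * m2 + m2 := by ring
    omega
  have hcard := card_fast_lt hSA' le_rfl hslow
  set T := (Finset.range N).filter fun j => (v + e2) * m2 ≤ ‖S (shift (j * m2) (shift t0 ω)) m2‖
    with hT
  set U := (Finset.range N).filter fun i =>
      ⟪e, S (shift (i * m2) (shift t0 ω)) m2⟫ < (v - e3) * m2 with hU
  have hle : ∀ i ∈ Finset.range N, ⟪e, S (shift (i * m2) (shift t0 ω)) m2⟫ ≤
      (v + e2) * m2 + (if i ∈ T then (m2 : ℝ) else 0) - (if i ∈ U then e3 * m2 else 0) := by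
    intro i hi
    have h1 := real_inner_le_norm e (S (shift (i * m2) (shift t0 ω)) m2)
    rw [he, one_mul] at h1
    have h2 := norm_S_le (shift (i * m2) (shift t0 ω)) m2
    have h3 : 0 ≤ (if i ∈ T then (m2 : ℝ) else 0) := by split_ifs <;> linarith
    by_cases hiU : i ∈ U
    · rw [if_pos hiU]
      have h4 := (Finset.mem_filter.1 hiU).2
      have : 0 ≤ e2 * m2 := by positivity
      nlinarith
    · rw [if_neg hiU]
      by_cases hiT : i ∈ T
      · rw [if_pos hiT]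
        have : 0 ≤ (v + e2) * m2 := by positivity
        linarith
      · rw [if_neg hiT]
        have h5 : ‖S (shift (i * m2) (shift t0 ω)) m2‖ < (v + e2) * m2 := by
          by_contra hcon
          push Not at hcon
          exact hiT (Finset.mem_filter.2 ⟨hi, hcon⟩)
        linarith
  have hsum := Finset.sum_le_sum hle
  rw [Finset.sum_sub_distrib, Finset.sum_add_distrib, Finset.sum_const, Finset.card_range,
    nsmul_eq_mul, Finset.sum_ite_mem, Finset.sum_ite_mem, Finset.sum_const, Finset.sum_const,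
    nsmul_eq_mul, nsmul_eq_mul, Finset.inter_eq_right.2 (Finset.filter_subset _ _),
    Finset.inter_eq_right.2 (Finset.filter_subset _ _)] at hsum
  have h1 : ∑ i ∈ Finset.range N, ⟪e, S (shift (i * m2) (shift t0 ω)) m2⟫ =
      ⟪e, S (shift t0 ω) (N * m2)⟫ := by
    rw [← inner_sum]
    have := slot_diff (shift t0 ω) m2 (Nat.zero_le N)
    rw [zero_mul, S_zero, sub_zero, ← Finset.range_eq_Ico] at this
    rw [this]
  rw [h1] at hsum
  -- decomposition of the whole walk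
  have hlen : (N + 1) * m2 = t0 + (N * m2 + (m2 - t0)) := by
    have : (N + 1) * m2 = N * m2 + m2 := by ring
    omega
  have h2 : ⟪e, S ω ((N + 1) * m2)⟫ ≤ t0 + (⟪e, S (shift t0 ω) (N * m2)⟫ + ((m2 - t0 : ℕ) : ℝ)) := by
    rw [hlen, S_add, inner_add_right, S_add, inner_add_right]
    have h3 := real_inner_le_norm e (S ω t0)
    have h4 := real_inner_le_norm e (S (shift (N * m2) (shift t0 ω)) (m2 - t0))
    rw [he, one_mul] at h3 h4
    have h5 := norm_S_le ω t0
    have h6 := norm_S_le (shift (N * m2) (shift t0 ω)) (m2 - t0)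
    linarith
  rw [Nat.cast_sub ht0] at h2
  push_cast at hfar
  have h3 : (v - ε) * ((N : ℝ) + 1) * m2 ≤
      m2 * (1 + (N * (v + e2) + T.card - e3 * U.card)) := by nlinarith
  have h4 : (v - ε) * ((N : ℝ) + 1) ≤ 1 + (N * (v + e2) + T.card - e3 * U.card) := by
    have : m2 * ((v - ε) * ((N : ℝ) + 1)) ≤
      m2 * (1 + (N * (v + e2) + T.card - e3 * U.card)) := by linarith
    exact le_of_mul_le_mul_left this hm'
  nlinarith

/-- Far and not fast blocks are direct. -/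
lemma dir_of {e : Euc k} (he : ‖e‖ = 1) {v e2 e3 θ r : ℝ} (hv0 : 0 < v) (he2 : 0 ≤ e2)
    (he23 : e2 ≤ e3) (he3v : e3 ≤ v / 2) (hθ : 0 < θ) (he3θ : e3 ≤ θ ^ 2 * v / 16) {l : ℕ}
    (hr : r ≤ (v - e3) * l) {ω : ℕ → Sph k} (h1 : ‖S ω l‖ ≤ (v + e2) * l)
    (h2 : (v - e3) * l ≤ ⟪e, S ω l⟫) : ω ∈ Dir e θ r l := by
  refine ⟨?_, hr.trans h2⟩
  set x := S ω l with hx
  have hl : (0 : ℝ) ≤ l := Nat.cast_nonneg l
  have hA : 0 ≤ (v - e3) * l := mul_nonneg (by linarith) hl
  have h3 : 0 ≤ ⟪e, x⟫ := hA.trans h2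
  refine le_of_sq_le_sq ?_ (by positivity)
  have h4 : ‖x - ⟪e, x⟫ • e‖ ^ 2 = ‖x‖ ^ 2 - ⟪e, x⟫ ^ 2 := by
    rw [norm_sub_sq_real, norm_smul, he, inner_smul_right, real_inner_comm x e, Real.norm_eq_abs,
      mul_one, sq_abs]
    ring
  rw [h4]
  have h5 : ‖x‖ ^ 2 ≤ ((v + e2) * l) ^ 2 := by gcongr
  have h6 : ((v - e3) * l) ^ 2 ≤ ⟪e, x⟫ ^ 2 := by gcongr
  have h7 : ((v + e2) * l) ^ 2 - ((v - e3) * l) ^ 2 = (e2 + e3) * (2 * v + e2 - e3) * l ^ 2 := by
    ring
  have h8 : (e2 + e3) * (2 * v + e2 - e3) ≤ (2 * e3) * (2 * v) := by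
    have : 0 ≤ e2 + e3 := by linarith
    have h9 : 0 ≤ 2 * v + e2 - e3 := by linarith
    exact mul_le_mul (by linarith) (by linarith) h9 (by linarith)
  have h9 : (2 * e3) * (2 * v) ≤ θ ^ 2 * (v / 2) ^ 2 := by
    nlinarith
  have h10 : (v / 2) ^ 2 * (l : ℝ) ^ 2 ≤ ((v - e3) * l) ^ 2 := by
    rw [mul_pow]; gcongr; linarith
  have h11 : (e2 + e3) * (2 * v + e2 - e3) * (l : ℝ) ^ 2 ≤ θ ^ 2 * (v / 2) ^ 2 * l ^ 2 := by
    have : (0 : ℝ) ≤ l ^ 2 := by positivity
    exact mul_le_mul_of_nonneg_right (h8.trans h9) this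
  have h12 : θ ^ 2 * ((v / 2) ^ 2 * l ^ 2) ≤ θ ^ 2 * ⟪e, x⟫ ^ 2 :=
    mul_le_mul_of_nonneg_left (h10.trans h6) (by positivity)
  rw [mul_pow]
  nlinarith

end Pool.Agent.HypSAW98.SlowAll
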