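import Pool.Agent.HypSAW98.Events

/-!
# The directed estimate is enough (package D0)
-/

open MeasureTheory Set Filter Topology
open scoped RealInnerProductSpace

namespace Pool.Agent.HypSAW98

variable {k : ℕ}

lemma measurableSet_dirFast (c : ℝ) (e : Euc k) (n : ℕ) (a : ℝ) :
    MeasurableSet {ω : ℕ → Sph k | ω ∈ SA k c n ∧ a ≤ ⟪e, S ω n⟫} :=
  (measurableSet_SA c n).inter (measurableSet_le measurable_const (measurable_inner_S e n))

/-- The probability of the directed event does not depend on the direction. -/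
lemma real_dirFast (c : ℝ) {e w : Euc k} (he : ‖e‖ = 1) (hw : ‖w‖ = 1) (n : ℕ) (a : ℝ) :
    (law k).real {ω : ℕ → Sph k | ω ∈ SA k c n ∧ a ≤ ⟪w, S ω n⟫} =
      (law k).real {ω : ℕ → Sph k | ω ∈ SA k c n ∧ a ≤ ⟪e, S ω n⟫} := by
  set ρ : Euc k ≃ₗᵢ[ℝ] Euc k := (ℝ ∙ (e - w))ᗮ.reflection with hρ
  have hρe : ρ e = w := by
    rw [hρ]; exact Submodule.reflection_sub (by rw [he, hw])
  rw [← law_rotAll ρ (measurableSet_dirFast c w n a)]
  congr 1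
  ext ω
  simp only [Set.mem_preimage, Set.mem_ofPred_eq, SA_rotAll, S_rotAll]
  rw [← hρe, ρ.inner_map_map]

lemma inner_ge_of_close {w x : Euc k} {r : ℝ} (hw : ‖w‖ = 1) (hx : x ≠ 0)
    (h : ‖‖x‖⁻¹ • x - w‖ ≤ r) : (1 - r ^ 2 / 2) * ‖x‖ ≤ ⟪w, x⟫ := by
  have hx0 : 0 < ‖x‖ := norm_pos_iff.2 hx
  have h1 := norm_sub_sq_real (‖x‖⁻¹ • x) w
  rw [norm_smul, norm_inv, norm_norm, inv_mul_cancel₀ hx0.ne', hw, real_inner_smul_left] at h1
  have h2 : ‖‖x‖⁻¹ • x - w‖ ^ 2 ≤ r ^ 2 := by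
    have := norm_nonneg (‖x‖⁻¹ • x - w)
    nlinarith
  have h3 : 1 - r ^ 2 / 2 ≤ ‖x‖⁻¹ * ⟪x, w⟫ := by nlinarith
  have h4 : (1 - r ^ 2 / 2) * ‖x‖ ≤ (‖x‖⁻¹ * ⟪x, w⟫) * ‖x‖ := by gcongr
  have h5 : (‖x‖⁻¹ * ⟪x, w⟫) * ‖x‖ = ⟪w, x⟫ := by
    rw [real_inner_comm w x]; field_simp
  linarith

lemma slow_of_directed {c μ v ε : ℝ} (hμ : IsMu k c μ) {e : Euc k} (he : ‖e‖ = 1)
    (hε : 0 < ε) (hεv : ε < v) (hv1 : v ≤ 1) {m : ℕ} (hm : 1 ≤ m) {th C : ℝ} (hth0 : 0 < th)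
    (hth : th < 1)
    (h : ∀ N : ℕ, (law k).real {ω | ω ∈ SA k c (N * m) ∧
      (v - ε) * ((N * m : ℕ) : ℝ) ≤ ⟪e, S ω (N * m)⟫} ≤ C * (th * μ ^ m) ^ N) :
    Slow k c μ (v - ε / 4) := by
  have hμ0 := hμ.pos
  have hμ1 := hμ.le_one
  have hρm0 : 0 < th * μ ^ m := by positivity
  set ρ : ℝ := (th * μ ^ m) ^ ((m : ℝ)⁻¹) with hρ
  have hρ0 : 0 < ρ := Real.rpow_pos_of_pos hρm0 _
  have hρm : ρ ^ m = th * μ ^ m := by
    rw [hρ, ← Real.rpow_natCast, ← Real.rpow_mul hρm0.le, inv_mul_cancel₀, Real.rpow_one]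
    exact_mod_cast (show m ≠ 0 by omega)
  have hρμ : ρ < μ := by
    refine lt_of_pow_lt_pow_left₀ m hμ0.le ?_
    rw [hρm]
    have : 0 < μ ^ m := by positivity
    nlinarith
  have hρ1 : ρ ≤ 1 := by linarith
  -- step (a)
  have ha : ∃ C1, 0 ≤ C1 ∧ ∀ n : ℕ, (law k).real {ω | ω ∈ SA k c n ∧
      (v - ε / 2) * (n : ℝ) ≤ ⟪e, S ω n⟫} ≤ C1 * ρ ^ n := by
    refine ⟨|C| / ρ ^ m + 1 / ρ ^ (⌈2 * m / ε⌉₊), by positivity, fun n => ?_⟩
    have hCm : 0 ≤ |C| / ρ ^ m * ρ ^ n := by positivity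
    have hC0 : 0 ≤ 1 / ρ ^ (⌈2 * m / ε⌉₊) * ρ ^ n := by positivity
    rw [add_mul]
    rcases le_or_gt ⌈2 * (m : ℝ) / ε⌉₊ n with hn | hn
    · have hn' : 2 * (m : ℝ) / ε ≤ n := (Nat.ceil_le.1 hn)
      have hn2 : (m : ℝ) ≤ ε / 2 * n := by
        rw [div_le_iff₀ hε] at hn'
        linarith
      set N := n / m with hN
      have hNm : N * m ≤ n := Nat.div_mul_le_self n m
      have hsub : {ω : ℕ → Sph k | ω ∈ SA k c n ∧ (v - ε / 2) * (n : ℝ) ≤ ⟪e, S ω n⟫} ⊆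
          {ω | ω ∈ SA k c (N * m) ∧ (v - ε) * ((N * m : ℕ) : ℝ) ≤ ⟪e, S ω (N * m)⟫} := by
        rintro ω ⟨h1, h2⟩
        refine ⟨SA_anti c hNm h1, ?_⟩
        have h3 := real_inner_le_norm e (S ω n - S ω (N * m))
        rw [he, one_mul, inner_sub_right] at h3
        have h4 := norm_S_sub_le ω hNm
        have h5 : n < N * m + m := Nat.lt_div_mul_add (by omega)
        have h6 : (n : ℝ) < ((N * m : ℕ) : ℝ) + m := by exact_mod_cast h5
        have h7 : ((N * m : ℕ) : ℝ) ≤ n := by exact_mod_cast hNm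
        have h8 : (v - ε) * ((N * m : ℕ) : ℝ) ≤ (v - ε) * n := by
          have : 0 ≤ v - ε := by linarith
          gcongr
        nlinarith
      have h1 : (law k).real {ω : ℕ → Sph k | ω ∈ SA k c n ∧
          (v - ε / 2) * (n : ℝ) ≤ ⟪e, S ω n⟫} ≤ |C| / ρ ^ m * ρ ^ n := by
        refine (measureReal_mono hsub (measure_ne_top _ _)).trans ((h N).trans ?_)
        rw [← hρm, ← pow_mul]
        have h2 : ρ ^ (m * N) * ρ ^ m ≤ ρ ^ n := by
          rw [← pow_add]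
          refine pow_le_pow_of_le_one hρ0.le hρ1 ?_
          have := Nat.lt_div_mul_add (a := n) (b := m) (by omega)
          rw [← hN] at this
          nlinarith
        calc C * ρ ^ (m * N) ≤ |C| * ρ ^ (m * N) := by gcongr; exact le_abs_self C
          _ = |C| / ρ ^ m * (ρ ^ (m * N) * ρ ^ m) := by field_simp
          _ ≤ _ := by gcongr
      linarith
    · have h1 : (1 : ℝ) ≤ 1 / ρ ^ (⌈2 * m / ε⌉₊) * ρ ^ n := by
        rw [div_mul_eq_mul_div, one_mul, one_le_div (by positivity)]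
        exact pow_le_pow_of_le_one hρ0.le hρ1 hn.le
      have h2 : (law k).real {ω : ℕ → Sph k | ω ∈ SA k c n ∧
          (v - ε / 2) * (n : ℝ) ≤ ⟪e, S ω n⟫} ≤ 1 := measureReal_le_one
      linarith
  obtain ⟨C1, hC1, ha⟩ := ha
  -- cover the sphere
  have hr : 0 < ε / 2 := by linarith
  obtain ⟨t, ht, htf, hcov⟩ := (isCompact_sphere (0 : Euc k) 1).finite_cover_balls hr
  refine ⟨ρ, hρ0, hρμ, htf.toFinset.card * C1 + 1, fun n => ?_⟩
  rcases Nat.eq_zero_or_pos n with hn | hn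
  · subst hn
    rw [pow_zero, mul_one]
    have : (law k).real {ω : ℕ → Sph k | ω ∈ SA k c 0 ∧
        (v - ε / 4) * ((0 : ℕ) : ℝ) ≤ ‖S ω 0‖} ≤ 1 := measureReal_le_one
    have h2 : 0 ≤ (htf.toFinset.card : ℝ) * C1 := by positivity
    linarith
  · have hn' : (0 : ℝ) < n := by exact_mod_cast hn
    have hsub : {ω : ℕ → Sph k | ω ∈ SA k c n ∧ (v - ε / 4) * (n : ℝ) ≤ ‖S ω n‖} ⊆
        ⋃ w ∈ htf.toFinset, {ω | ω ∈ SA k c n ∧ (v - ε / 2) * (n : ℝ) ≤ ⟪w, S ω n⟫} := by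
      rintro ω ⟨h1, h2⟩
      have hx0 : 0 < ‖S ω n‖ := lt_of_lt_of_le (by
        have : 0 < v - ε / 4 := by linarith
        positivity) h2
      have hmem : ‖S ω n‖⁻¹ • S ω n ∈ Metric.sphere (0 : Euc k) 1 := by
        rw [mem_sphere_zero_iff_norm, norm_smul, norm_inv, norm_norm, inv_mul_cancel₀ hx0.ne']
      have := hcov hmem
      simp only [Set.mem_iUnion, Metric.mem_ball, dist_eq_norm, exists_prop] at this
      obtain ⟨w, hw, hd⟩ := this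
      simp only [Set.mem_iUnion, exists_prop]
      refine ⟨w, htf.mem_toFinset.2 hw, h1, ?_⟩
      have hw1 : ‖w‖ = 1 := mem_sphere_zero_iff_norm.1 (ht hw)
      have h3 := inner_ge_of_close hw1 (norm_pos_iff.1 hx0) hd.le
      have hε1 : ε ≤ 1 := by linarith
      have h4 : v - ε / 2 ≤ (1 - (ε / 2) ^ 2 / 2) * (v - ε / 4) := by nlinarith
      have h5 : 0 ≤ 1 - (ε / 2) ^ 2 / 2 := by nlinarith
      calc (v - ε / 2) * n ≤ ((1 - (ε / 2) ^ 2 / 2) * (v - ε / 4)) * n := by gcongr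
        _ = (1 - (ε / 2) ^ 2 / 2) * ((v - ε / 4) * n) := by ring
        _ ≤ (1 - (ε / 2) ^ 2 / 2) * ‖S ω n‖ := by gcongr
        _ ≤ _ := h3
    calc _ ≤ (law k).real (⋃ w ∈ htf.toFinset, {ω : ℕ → Sph k | ω ∈ SA k c n ∧
          (v - ε / 2) * (n : ℝ) ≤ ⟪w, S ω n⟫}) := measureReal_mono hsub (measure_ne_top _ _)
      _ ≤ ∑ w ∈ htf.toFinset, (law k).real {ω : ℕ → Sph k | ω ∈ SA k c n ∧
          (v - ε / 2) * (n : ℝ) ≤ ⟪w, S ω n⟫} := measureReal_biUnion_finset_le _ _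
      _ ≤ ∑ w ∈ htf.toFinset, C1 * ρ ^ n := by
          refine Finset.sum_le_sum fun w hw => ?_
          have hw1 : ‖w‖ = 1 := mem_sphere_zero_iff_norm.1 (ht (htf.mem_toFinset.1 hw))
          rw [real_dirFast c he hw1]
          exact ha n
      _ = htf.toFinset.card * C1 * ρ ^ n := by
          rw [Finset.sum_const, nsmul_eq_mul, mul_assoc]
      _ ≤ (htf.toFinset.card * C1 + 1) * ρ ^ n := by
          have : 0 < ρ ^ n := by positivity
          nlinarith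

end Pool.Agent.HypSAW98
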