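import Pool.Agent.HypSAW98.Walk

/-!
# Bridges, pieces and fast walks: definitions and first properties
-/

open MeasureTheory Set
open scoped RealInnerProductSpace

namespace Pool.Agent.HypSAW98

variable {k : ℕ}

/-- Strict `c`-bridges of length `n` in the direction `w`: `c`-self-avoiding, all later points are
more than `c` above the start and all earlier points strictly below the end. -/
def Br (k : ℕ) (c : ℝ) (w : Euc k) (n : ℕ) : Set (ℕ → Sph k) :=
  {ω | ω ∈ SA k c n ∧ (∀ j, 1 ≤ j → j ≤ n → c < ⟪w, S ω j⟫) ∧ ∀ j < n, ⟪w, S ω j⟫ < ⟪w, S ω n⟫}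

/-- Coarse pieces of length `l`: self-avoiding, for every `w` in the finite set `W` never more than
`K` below the start nor above the end in direction `w`, and (after `C` steps) above the start,
(until `C` steps before the end) below the end in direction `e`. -/
def Pc (c : ℝ) (e : Euc k) (W : Finset (Euc k)) (K : ℝ) (C l : ℕ) : Set (ℕ → Sph k) :=
  {ω | ω ∈ SA k c l ∧ (∀ w ∈ W, ∀ j ≤ l, -K ≤ ⟪w, S ω j⟫ ∧ -K ≤ ⟪w, S ω l - S ω j⟫) ∧
    (∀ j ≤ l, C ≤ j → 0 < ⟪e, S ω j⟫) ∧ ∀ j, j + C ≤ l → ⟪e, S ω j⟫ < ⟪e, S ω l⟫}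

/-- The end point after `l` steps is at height at least `r` above the start and in a narrow cone
around `e`. -/
def Dir (e : Euc k) (θ r : ℝ) (l : ℕ) : Set (ℕ → Sph k) :=
  {ω | ‖S ω l - ⟪e, S ω l⟫ • e‖ ≤ θ * ⟪e, S ω l⟫ ∧ r ≤ ⟪e, S ω l⟫}

/-- The growth constant: the two properties used everywhere. -/
structure IsMu (k : ℕ) (c μ : ℝ) : Prop where
  pos : 0 < μ
  le_one : μ ≤ 1
  pow_le : ∀ n, μ ^ n ≤ Z k c n
  eventually_le : ∀ ρ > μ, ∃ N, ∀ n ≥ N, Z k c n ≤ ρ ^ n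

lemma exists_isMu {c : ℝ} (hc0 : 0 ≤ c) (hc : c < 1) : ∃ μ, IsMu k c μ := by
  obtain ⟨μ, h1, h2, h3, h4⟩ := exists_mu (k := k) hc0 hc
  exact ⟨μ, h1, h2, h3, h4⟩

/-- Sub-ballisticity at speed `v` with an exponential rate. -/
def Slow (k : ℕ) (c μ v : ℝ) : Prop :=
  ∃ ρ, 0 < ρ ∧ ρ < μ ∧ ∃ C, ∀ n : ℕ,
    (law k).real {ω | ω ∈ SA k c n ∧ v * n ≤ ‖S ω n‖} ≤ C * ρ ^ n

lemma measurable_inner_S (w : Euc k) (n : ℕ) : Measurable fun ω : ℕ → Sph k => ⟪w, S ω n⟫ :=
  (measurable_const.inner (measurable_S n))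

lemma measurableSet_Br (c : ℝ) (w : Euc k) (n : ℕ) : MeasurableSet (Br k c w n) := by
  have : Br k c w n = SA k c n ∩ ((⋂ (j : ℕ) (_ : 1 ≤ j) (_ : j ≤ n), {ω | c < ⟪w, S ω j⟫}) ∩
      ⋂ (j : ℕ) (_ : j < n), {ω | ⟪w, S ω j⟫ < ⟪w, S ω n⟫}) := by
    ext ω; simp only [Br, Set.mem_ofPred_eq, Set.mem_inter_iff, Set.mem_iInter]
  rw [this]
  refine (measurableSet_SA c n).inter (MeasurableSet.inter ?_ ?_)
  · exact MeasurableSet.iInter fun j => MeasurableSet.iInter fun _ => MeasurableSet.iInter fun _ =>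
      measurableSet_lt measurable_const (measurable_inner_S w j)
  · exact MeasurableSet.iInter fun j => MeasurableSet.iInter fun _ =>
      measurableSet_lt (measurable_inner_S w j) (measurable_inner_S w n)

lemma dep_of_S {n : ℕ} {A : Set (ℕ → Sph k)} (T : (ℕ → Euc k) → Prop)
    (hT : ∀ f g : ℕ → Euc k, (∀ j ≤ n, f j = g j) → (T f → T g))
    (hA : ∀ ω, ω ∈ A ↔ T (S ω)) : Dep n A := by
  intro ω ω' h
  have h1 : ∀ j ≤ n, S ω j = S ω' j := fun j hj => S_congr fun i hi => h i (by omega)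
  rw [hA, hA]
  exact ⟨hT _ _ h1, hT _ _ fun j hj => (h1 j hj).symm⟩

lemma dep_Br (c : ℝ) (w : Euc k) (n : ℕ) : Dep n (Br k c w n) := by
  refine dep_of_S (fun f => (∀ i j, i < j → j ≤ n → c < ‖f j - f i‖) ∧
    (∀ j, 1 ≤ j → j ≤ n → c < ⟪w, f j⟫) ∧ ∀ j < n, ⟪w, f j⟫ < ⟪w, f n⟫) ?_ (fun ω => Iff.rfl)
  rintro f g hfg ⟨h1, h2, h3⟩
  refine ⟨fun i j hij hj => ?_, fun j hj1 hj => ?_, fun j hj => ?_⟩
  · rw [← hfg j hj, ← hfg i (by omega)]; exact h1 i j hij hj
  · rw [← hfg j hj]; exact h2 j hj1 hj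
  · rw [← hfg j hj.le, ← hfg n le_rfl]; exact h3 j hj

/-- The probability of bridges. -/
noncomputable def B (k : ℕ) (c : ℝ) (w : Euc k) (n : ℕ) : ℝ := (law k).real (Br k c w n)

/-- Bridges can be concatenated. -/
lemma Br_append {c : ℝ} (hc0 : 0 ≤ c) {w : Euc k} (hw : ‖w‖ = 1) {l m : ℕ} {ω : ℕ → Sph k}
    (h1 : ω ∈ Br k c w l) (h2 : shift l ω ∈ Br k c w m) : ω ∈ Br k c w (l + m) := by
  obtain ⟨a1, a2, a3⟩ := h1
  obtain ⟨b1, b2, b3⟩ := h2
  have hS : ∀ j, S ω (l + j) = S ω l + S (shift l ω) j := fun j => S_add ω l j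
  have hle : ∀ i ≤ l, ⟪w, S ω i⟫ ≤ ⟪w, S ω l⟫ := by
    intro i hi
    rcases hi.lt_or_eq with h | h
    · exact (a3 i h).le
    · rw [h]
  refine ⟨?_, ?_, ?_⟩
  · intro i j hij hj
    rcases le_or_gt j l with hjl | hjl
    · exact a1 i j hij hjl
    · obtain ⟨j', rfl⟩ := Nat.exists_eq_add_of_lt hjl
      rcases le_or_gt l i with hil | hil
      · obtain ⟨i', rfl⟩ := Nat.exists_eq_add_of_le hil
        rw [add_assoc, hS, hS]
        have := b1 i' (j' + 1) (by omega) (by omega)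
        simpa using this
      · rw [add_assoc, hS]
        have h3 := b2 (j' + 1) (by omega) (by omega)
        have h4 := real_inner_le_norm w (S ω l + S (shift l ω) (j' + 1) - S ω i)
        rw [hw, one_mul, inner_sub_right, inner_add_right] at h4
        have := hle i hil.le
        linarith
  · intro j hj1 hj
    rcases le_or_gt j l with hjl | hjl
    · exact a2 j hj1 hjl
    · obtain ⟨j', rfl⟩ := Nat.exists_eq_add_of_lt hjl
      rw [add_assoc, hS, inner_add_right]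
      have h3 := b2 (j' + 1) (by omega) (by omega)
      have h5 := hle 0 (Nat.zero_le _)
      rw [S_zero, inner_zero_right] at h5
      linarith
  · intro j hj
    rw [hS m, inner_add_right]
    rcases le_or_gt l j with hlj | hlj
    · obtain ⟨j', rfl⟩ := Nat.exists_eq_add_of_le hlj
      rw [hS, inner_add_right]
      have := b3 j' (by omega)
      linarith
    · have h3 := a3 j hlj
      rcases Nat.eq_zero_or_pos m with hm | hm
      · subst hm; rw [S_zero, inner_zero_right, add_zero]; exact h3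
      · have := b2 m hm le_rfl
        linarith

lemma B_supermul {c : ℝ} (hc0 : 0 ≤ c) {w : Euc k} (hw : ‖w‖ = 1) (l m : ℕ) :
    B k c w l * B k c w m ≤ B k c w (l + m) := by
  unfold B
  rw [← real_inter_shift (unif k) (measurableSet_Br c w l) (dep_Br c w l)
    (measurableSet_Br c w m)]
  exact measureReal_mono (fun ω hω => Br_append hc0 hw hω.1 hω.2) (measure_ne_top _ _)

lemma B_nonneg (c : ℝ) (w : Euc k) (n : ℕ) : 0 ≤ B k c w n := measureReal_nonneg

lemma B_le_Z (c : ℝ) (w : Euc k) (n : ℕ) : B k c w n ≤ Z k c n :=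
  measureReal_mono (fun _ h => h.1) (measure_ne_top _ _)

lemma B_pow_le {c : ℝ} (hc0 : 0 ≤ c) {w : Euc k} (hw : ‖w‖ = 1) (l N : ℕ) :
    B k c w l ^ N ≤ B k c w (N * l) := by
  induction N with
  | zero =>
    have : Br k c w 0 = Set.univ := by
      ext ω
      simp only [Br, SA, Set.mem_ofPred_eq, Set.mem_univ, iff_true]
      refine ⟨fun i j hij hj => by omega, fun j h1 h2 => by omega, fun j hj => by omega⟩
    simp [B, this]
  | succ N ih =>
    rw [pow_succ]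
    calc B k c w l ^ N * B k c w l ≤ B k c w (N * l) * B k c w l :=
          mul_le_mul_of_nonneg_right ih (B_nonneg _ _ _)
      _ ≤ B k c w (N * l + l) := B_supermul hc0 hw _ _
      _ = _ := by congr 1; ring

/-- The probability of bridges is at most `μ ^ n`. -/
lemma B_le {c μ : ℝ} (hμ : IsMu k c μ) (hc0 : 0 ≤ c) {w : Euc k} (hw : ‖w‖ = 1) (n : ℕ) :
    B k c w n ≤ μ ^ n := by
  rcases Nat.eq_zero_or_pos n with h | hn
  · subst h
    rw [pow_zero]
    exact measureReal_le_one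
  by_contra hlt
  push Not at hlt
  -- choose `ρ > μ` with `ρ ^ n < B n`
  have hB0 : 0 < B k c w n := lt_of_le_of_lt (pow_nonneg hμ.pos.le n) hlt
  set b := (B k c w n) ^ ((n : ℝ)⁻¹) with hb
  have hbn : b ^ n = B k c w n := by
    rw [hb, ← Real.rpow_natCast, ← Real.rpow_mul hB0.le, inv_mul_cancel₀, Real.rpow_one]
    exact_mod_cast hn.ne'
  have hb0 : 0 < b := Real.rpow_pos_of_pos hB0 _
  have hμb : μ < b := lt_of_pow_lt_pow_left₀ n hb0.le (by rw [hbn]; exact hlt)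
  set ρ := (μ + b) / 2 with hρ
  have h1 : μ < ρ := by rw [hρ]; linarith
  have h2 : ρ < b := by rw [hρ]; linarith
  have hρ0 : 0 < ρ := hμ.pos.trans h1
  obtain ⟨N, hN⟩ := hμ.eventually_le ρ h1
  have h3 := hN ((N + 1) * n) (by nlinarith)
  have h4 : B k c w n ^ (N + 1) ≤ ρ ^ ((N + 1) * n) :=
    (B_pow_le hc0 hw n (N + 1)).trans ((B_le_Z _ _ _).trans h3)
  rw [← hbn, ← pow_mul, mul_comm n (N + 1)] at h4
  have h5 : ρ ^ ((N + 1) * n) < b ^ ((N + 1) * n) :=
    pow_lt_pow_left₀ h2 hρ0.le (by positivity)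
  linarith

end Pool.Agent.HypSAW98
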