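import Pool.Agent.HypSAW98.Counting

/-!
# Straight walks are chains of pieces (package D3, conclusion)
-/

open MeasureTheory Set Filter Topology
open scoped RealInnerProductSpace

namespace Pool.Agent.HypSAW98.SlowAll

variable {k : ℕ}

lemma exists_chain {c v ε e1 e2 e3 a1 a2 θ r : ℝ} (hc0 : 0 < c) {e : Euc k} (he : ‖e‖ = 1)
    (hv0 : 0 < v) (he1 : 0 ≤ e1) (hbudget : ε + 2 * e1 + 2 * a1 ≤ v / 80)
    {m : ℕ} (hm : 1 ≤ m) {C : ℕ} (hC : (m : ℝ) * (2 / v + 2) ≤ C)
    {W : Finset (Euc k)} (hW : ∀ w ∈ W, ‖w‖ = 1 ∧ ‖w - e‖ ≤ ap c) {L : ℕ} (hL : 1 ≤ L)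
    (he2 : 0 ≤ e2) (he23 : e2 ≤ e3) (he3 : 0 < e3) (he3v : e3 ≤ v / 2) (hθ : 0 < θ)
    (he3θ : e3 ≤ θ ^ 2 * v / 16) (hr : r ≤ (v - e3) * ((L * m : ℕ) : ℝ)) (ha2 : 0 ≤ a2)
    (ha2' : a2 ≤ 1 / 100) (hcount : ε + e2 + a2 ≤ 3 / 100 * e3) {N : ℕ}
    (hN : 1 + 1 / e3 ≤ 36 / 100 * ((N : ℝ) + 1)) {ω : ℕ → Sph k}
    (hSA : ω ∈ SA k c ((N + 1) * (L * m)))
    (hfar : (v - ε) * (((N + 1) * (L * m) : ℕ) : ℝ) ≤ ⟪e, S ω ((N + 1) * (L * m))⟫)
    (hslow1 : ω ∉ FastBlocks k c (v + e1) m (L * (N + 1)) (a1 * ((L * (N + 1) : ℕ) : ℝ)))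
    (hslow2 : ∀ τ < L, shift (τ * m) ω ∉ FastBlocks k c (v + e2) (L * m) N (a2 * N)) :
    ∃ τ < L, ∃ i0 ≤ N, ∃ q, N + 1 ≤ 2 * q ∧ q ≤ N ∧
      Ch (L * m) (fun g => Pc c e W (m : ℝ) C (g * (L * m)))
        (Pc c e W (m : ℝ) C (L * m) ∩ Dir e θ r (L * m))
        (fun j => SA k c (j * (L * m))) (N - i0) q (shift (τ * m + i0 * (L * m)) ω) := by
  classical
  have hm' : (0 : ℝ) < m := by exact_mod_cast hm
  have hL' : (0 : ℝ) < L := by exact_mod_cast hL
  have hlen : (N + 1) * (L * m) = (L * (N + 1)) * m := by ring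
  have hm2 : 1 ≤ L * m := Nat.mul_pos hL hm
  -- first scale
  have hsum := sum_del_le (ε := ε) (n := L * (N + 1)) he hv0 he1 hm (by rwa [← hlen])
    (by rwa [← hlen]) hslow1
  have hsum' : ∑ j ∈ Finset.range (L * (N + 1)), del e v m ω j ≤
      1 / 20 * (v / 2) / 2 * ((L : ℝ) * ((N + 1 : ℕ) : ℝ)) := by
    refine hsum.trans ?_
    rw [Nat.cast_mul]
    have h0 : (0 : ℝ) ≤ (L : ℝ) * ((N + 1 : ℕ) : ℝ) := by positivity
    have h1 : ε + 2 * e1 + 2 * a1 ≤ 1 / 20 * (v / 2) / 2 := by linarith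
    exact mul_le_mul_of_nonneg_right h1 h0
  obtain ⟨τ, hτ, hbad⟩ := exists_offset L (N + 1) hL (del e v m ω) (del_nonneg e v m ω) (v / 2)
    (1 / 20) (by positivity) hsum'
  set good : ℕ → Prop := fun i => Good (L * (N + 1)) (del e v m ω) (v / 2) (τ + i * L) with hgood
  set ω' := shift (τ * m) ω with hω'
  set direct : ℕ → Prop := fun i => ‖S (shift (i * (L * m)) ω') (L * m)‖ ≤ (v + e2) * (L * m : ℕ) ∧
    (v - e3) * (L * m : ℕ) ≤ ⟪e, S (shift (i * (L * m)) ω') (L * m)⟫ with hdirect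
  -- second scale
  have hτm : τ * m ≤ L * m := Nat.mul_le_mul_right m hτ.le
  have hSA' : ω' ∈ SA k c (N * (L * m)) := by
    refine SA_shift ?_ hSA
    have : (N + 1) * (L * m) = N * (L * m) + L * m := by ring
    omega
  have hfast := card_fast_lt hSA' le_rfl (hslow2 τ hτ)
  have hshort := card_short_le (ε := ε) (e3 := e3) he hv0 he2 ha2 hm2 hτm hSA hfar (hslow2 τ hτ)
  rw [← hω'] at hshort
  set T := (Finset.range N).filter fun j =>
    (v + e2) * ((L * m : ℕ) : ℝ) ≤ ‖S (shift (j * (L * m)) ω') (L * m)‖ with hT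
  set U := (Finset.range N).filter fun i =>
      ⟪e, S (shift (i * (L * m)) ω') (L * m)⟫ < (v - e3) * ((L * m : ℕ) : ℝ) with hU
  set Bad := ({i ∈ Finset.range (N + 1) | ¬ Good (L * (N + 1)) (del e v m ω) (v / 2) (τ + i * L)} :
    Finset ℕ) with hBad
  set Q := (Finset.range N).filter fun t => good t ∧ good (t + 1) ∧ direct t with hQ
  have hcover : Finset.range N ⊆ Q ∪ (Bad ∪ (Bad.image Nat.pred ∪ (T ∪ U))) := by
    intro i hi
    have hiN := Finset.mem_range.1 hi
    simp only [Finset.mem_union]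
    by_cases h1 : good i
    · by_cases h2 : good (i + 1)
      · by_cases h3 : direct i
        · exact Or.inl (Finset.mem_filter.2 ⟨hi, h1, h2, h3⟩)
        · right; right; right
          by_cases h4 : i ∈ T
          · exact Or.inl h4
          · right
            refine Finset.mem_filter.2 ⟨hi, ?_⟩
            by_contra h5
            push Not at h5
            apply h3
            refine ⟨?_, h5⟩
            by_contra h6
            push Not at h6
            exact h4 (Finset.mem_filter.2 ⟨hi, h6.le⟩)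
      · right; right; left
        refine Finset.mem_image.2 ⟨i + 1, Finset.mem_filter.2 ⟨?_, h2⟩, rfl⟩
        exact Finset.mem_range.2 (by omega)
    · right; left
      exact Finset.mem_filter.2 ⟨Finset.mem_range.2 (by omega), h1⟩
  have hcard : (N : ℝ) ≤ Q.card + (Bad.card + (Bad.card + (T.card + U.card))) := by
    have h1 := Finset.card_le_card hcover
    rw [Finset.card_range] at h1
    have h2 := Finset.card_union_le Q (Bad ∪ (Bad.image Nat.pred ∪ (T ∪ U)))
    have h3 := Finset.card_union_le Bad (Bad.image Nat.pred ∪ (T ∪ U))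
    have h4 := Finset.card_union_le (Bad.image Nat.pred) (T ∪ U)
    have h5 := Finset.card_union_le T U
    have h6 := Finset.card_image_le (s := Bad) (f := Nat.pred)
    have : N ≤ Q.card + (Bad.card + (Bad.card + (T.card + U.card))) := by omega
    exact_mod_cast this
  have hUcard : (U.card : ℝ) ≤ 1 / e3 + 3 / 100 * (N + 1) := by
    have h1 : e3 * (U.card : ℝ) ≤ 1 + (3 / 100 * e3) * (N + 1) := by
      refine hshort.trans ?_
      have : (ε + e2 + a2) * ((N : ℝ) + 1) ≤ (3 / 100 * e3) * (N + 1) :=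
        mul_le_mul_of_nonneg_right hcount (by positivity)
      linarith
    have h2 : e3 * (1 / e3 + 3 / 100 * ((N : ℝ) + 1)) = 1 + (3 / 100 * e3) * (N + 1) := by
      field_simp
    rw [← h2] at h1
    exact le_of_mul_le_mul_left h1 he3
  have hTcard : (T.card : ℝ) ≤ 1 / 100 * N := by
    have : a2 * (N : ℝ) ≤ 1 / 100 * N := mul_le_mul_of_nonneg_right ha2' (Nat.cast_nonneg N)
    linarith
  have hBcard : (Bad.card : ℝ) ≤ 1 / 20 * (N + 1) := by
    have := hbad
    push_cast at this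
    convert this using 2
  have hq : (N : ℝ) + 1 ≤ 2 * Q.card := by
    have h0 : (0 : ℝ) ≤ N := Nat.cast_nonneg N
    linarith
  have hq' : N + 1 ≤ 2 * Q.card := by exact_mod_cast hq
  have hqN : Q.card ≤ N := by
    have := Finset.card_le_card (Finset.filter_subset (fun t => good t ∧ good (t + 1) ∧ direct t)
      (Finset.range N))
    rwa [Finset.card_range] at this
  -- the first good index
  have hex : ∃ i, i < N ∧ good i := by
    have hne : Q.Nonempty := by
      rw [← Finset.card_pos]; omega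
    obtain ⟨i, hi⟩ := hne
    obtain ⟨h1, h2, -⟩ := Finset.mem_filter.1 hi
    exact ⟨i, Finset.mem_range.1 h1, h2⟩
  set i0 := Nat.find hex with hi0
  obtain ⟨hi0N, hi0g⟩ := Nat.find_spec hex
  have hQ' : (Finset.Ico i0 N).filter (fun t => good t ∧ good (t + 1) ∧ direct t) = Q := by
    ext t
    simp only [Finset.mem_filter, Finset.mem_Ico, hQ, Finset.mem_range]
    constructor
    · rintro ⟨⟨h1, h2⟩, h3⟩; exact ⟨h2, h3⟩
    · rintro ⟨h2, h3⟩
      exact ⟨⟨Nat.find_min' hex ⟨h2, h3.1⟩, h2⟩, h3⟩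
  have hpiece : ∀ i j, i < j → j ≤ N → good i → good j →
      shift (i * (L * m)) ω' ∈ Pc c e W (m : ℝ) C ((j - i) * (L * m)) := by
    intro i j hij hjN hgi hgj
    have h1 : τ + i * L < τ + j * L := by
      have : i * L < j * L := Nat.mul_lt_mul_of_pos_right hij hL
      omega
    have h2 : τ + j * L ≤ L * (N + 1) := by
      have : j * L ≤ N * L := Nat.mul_le_mul_right L hjN
      have h3 : L * (N + 1) = N * L + L := by ring
      omega
    have h3 := piece_of_good hc0 he hv0 hm hC hW (n := L * (N + 1)) (by rwa [← hlen]) h1 h2 hgi hgj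
    rw [hω', shift_shift]
    have e1 : τ * m + i * (L * m) = (τ + i * L) * m := by ring
    have e2 : (j - i) * (L * m) = (τ + j * L - (τ + i * L)) * m := by
      have : τ + j * L - (τ + i * L) = (j - i) * L := by
        rw [Nat.add_sub_add_left, Nat.sub_mul]
      rw [this]; ring
    rw [e1, e2]
    exact h3
  have hch := ch_of_good (m := L * m) (P := fun g => Pc c e W (m : ℝ) C (g * (L * m)))
    (D := Pc c e W (m : ℝ) C (L * m) ∩ Dir e θ r (L * m)) (R := fun j => SA k c (j * (L * m)))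
    N good direct ω' ?_ hpiece ?_ i0 hi0N.le hi0g
  · refine ⟨τ, hτ, i0, hi0N.le, Q.card, hq', hqN, ?_⟩
    rw [← shift_shift, ← hω']
    have hfe : ((Finset.Ico i0 N).filter fun t => good t ∧ good (t + 1) ∧ direct t).card =
        Q.card := by rw [hQ']
    convert hch using 1
    rw [← hfe]
    congr!
  · intro i hi hgi
    refine SA_shift ?_ hSA'
    rw [← add_mul]
    refine Nat.mul_le_mul_right _ ?_
    omega
  · intro i hi hgi hgi1 hd
    refine ⟨?_, ?_⟩
    · have := hpiece i (i + 1) (Nat.lt_succ_self i) hi hgi hgi1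
      rwa [Nat.add_sub_cancel_left, one_mul] at this
    · exact dir_of he hv0 he2 he23 he3v hθ he3θ hr hd.1 hd.2

end Pool.Agent.HypSAW98.SlowAll
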