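import Pool.Agent.HypSAW98.Events

/-!
# Few fast blocks (package D1)
-/

open MeasureTheory Set Filter Topology
open scoped RealInnerProductSpace

namespace Pool.Agent.HypSAW98

variable {k : ℕ}

/-- All of the first `N` blocks of length `m` are self-avoiding, and at least `a` of them are
fast (displacement at least `v * m`). -/
def FastBlocks (k : ℕ) (c v : ℝ) (m N : ℕ) (a : ℝ) : Set (ℕ → Sph k) :=
  {ω | (∀ j < N, shift (j * m) ω ∈ SA k c m) ∧
      ∃ T ⊆ Finset.range N, a ≤ (T.card : ℝ) ∧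
        ∀ j ∈ T, shift (j * m) ω ∈ {ω | ω ∈ SA k c m ∧ v * m ≤ ‖S ω m‖}}

lemma measurableSet_fast (c v : ℝ) (m : ℕ) :
    MeasurableSet {ω : ℕ → Sph k | ω ∈ SA k c m ∧ v * m ≤ ‖S ω m‖} :=
  (measurableSet_SA c m).inter (measurableSet_le measurable_const (measurable_S m).norm)

lemma dep_fast (c v : ℝ) (m : ℕ) : Dep m {ω : ℕ → Sph k | ω ∈ SA k c m ∧ v * m ≤ ‖S ω m‖} := by
  refine (dep_SA c m).inter (B := {ω | v * m ≤ ‖S ω m‖}) fun ω ω' h => ?_
  simp only [Set.mem_ofPred_eq]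
  rw [S_congr h]

lemma measurableSet_FastBlocks (c v : ℝ) (m N : ℕ) (a : ℝ) :
    MeasurableSet (FastBlocks k c v m N a) := by
  have e : FastBlocks k c v m N a = (⋂ (j : ℕ) (_ : j < N), shift (j * m) ⁻¹' SA k c m) ∩
      ⋃ (T : Finset ℕ) (_ : T ⊆ Finset.range N) (_ : a ≤ (T.card : ℝ)),
        ⋂ (j : ℕ) (_ : j ∈ T), shift (j * m) ⁻¹' {ω | ω ∈ SA k c m ∧ v * m ≤ ‖S ω m‖} := by
    ext ω
    simp only [FastBlocks, Set.mem_ofPred_eq, Set.mem_inter_iff, Set.mem_iInter, Set.mem_iUnion,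
      Set.mem_preimage, exists_prop]
  rw [e]
  refine MeasurableSet.inter ?_ ?_
  · exact MeasurableSet.iInter fun j => MeasurableSet.iInter fun _ =>
      measurable_shift _ (measurableSet_SA c m)
  · refine MeasurableSet.iUnion fun T => MeasurableSet.iUnion fun _ => MeasurableSet.iUnion fun _ =>
      MeasurableSet.iInter fun j => MeasurableSet.iInter fun _ =>
        measurable_shift _ (measurableSet_fast c v m)

/-- If speed `v` is exponentially unlikely then so are many blocks of speed `v`. -/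
lemma few_fast {c μ v α : ℝ} (hμ : IsMu k c μ) (hs : Slow k c μ v) (hα : 0 < α) :
    ∃ m0 : ℕ, ∀ m ≥ m0, ∃ th : ℝ, 0 < th ∧ th < 1 ∧ ∀ N : ℕ,
      (law k).real (FastBlocks k c v m N (α * N)) ≤ th ^ N * μ ^ (N * m) := by
  obtain ⟨ρ, hρ0, hρμ, C, hC⟩ := hs
  have hμ0 := hμ.pos
  set g : ℝ := Real.log (μ / ρ) / 2 with hg
  have hg0 : 0 < g := by
    have : 0 < Real.log (μ / ρ) := Real.log_pos ((one_lt_div hρ0).2 hρμ)
    positivity
  have hρg : ρ = μ * Real.exp (-(2 * g)) := by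
    have h1 : -(2 * g) = -Real.log (μ / ρ) := by rw [hg]; ring
    rw [h1, Real.exp_neg, Real.exp_log (div_pos hμ0 hρ0), inv_div]
    field_simp
  set r : ℝ := α * g / 4 with hr
  have hr0 : 0 < r := by positivity
  have hμr : μ < μ * Real.exp r := by
    have : 1 < Real.exp r := Real.one_lt_exp_iff.2 hr0
    nlinarith
  obtain ⟨N1, hN1⟩ := hμ.eventually_le _ hμr
  -- `C * exp (-g m) ≤ 1` eventually
  have hlim : ∀ {x : ℝ}, 0 < x → Tendsto (fun m : ℕ => Real.exp (-(x * m))) atTop (𝓝 0) := by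
    intro x hx
    refine Real.tendsto_exp_neg_atTop_nhds_zero.comp ?_
    exact (tendsto_natCast_atTop_atTop).const_mul_atTop hx
  have h2 : ∀ᶠ m : ℕ in atTop, C * Real.exp (-(g * m)) < 1 := by
    have h := (hlim hg0).const_mul C
    rw [mul_zero] at h
    exact h.eventually (gt_mem_nhds one_pos)
  have h3 : ∀ᶠ m : ℕ in atTop, 2 * Real.exp (-((3 / 4 * (α * g)) * m)) < 1 := by
    have h := (hlim (show 0 < 3 / 4 * (α * g) by positivity)).const_mul 2
    rw [mul_zero] at h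
    exact h.eventually (gt_mem_nhds one_pos)
  obtain ⟨m0, hm0⟩ := eventually_atTop.1 (h2.and (h3.and (eventually_ge_atTop N1)))
  refine ⟨m0, fun m hm => ?_⟩
  obtain ⟨h4, h5, h6⟩ := hm0 m hm
  refine ⟨2 * Real.exp (-((3 / 4 * (α * g)) * m)), by positivity, h5, fun N => ?_⟩
  have hA : (law k).real {ω | ω ∈ SA k c m ∧ v * m ≤ ‖S ω m‖} ≤ μ ^ m * Real.exp (-(g * m)) := by
    refine (hC m).trans ?_
    rw [hρg, mul_pow, ← Real.exp_nat_mul]
    have e1 : (m : ℝ) * -(2 * g) = -(g * m) + -(g * m) := by ring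
    rw [e1, Real.exp_add]
    have : 0 < μ ^ m * Real.exp (-(g * m)) := by positivity
    nlinarith
  have hB : (law k).real (SA k c m) ≤ μ ^ m * Real.exp (r * m) := by
    refine (hN1 m h6).trans ?_
    rw [mul_pow, ← Real.exp_nat_mul, mul_comm (m : ℝ) r]
  have ht : (1 : ℝ) ≤ Real.exp (g * m) := Real.one_le_exp (by positivity)
  refine (real_many_blocks (unif k) m (measurableSet_fast c v m) (measurableSet_SA c m)
    (dep_fast c v m) (dep_SA c m) N (α * N) (Real.exp (g * m)) ht).trans ?_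
  have h7 : Real.exp (g * m) * (law k).real {ω | ω ∈ SA k c m ∧ v * m ≤ ‖S ω m‖} ≤ μ ^ m := by
    calc _ ≤ Real.exp (g * m) * (μ ^ m * Real.exp (-(g * m))) := by gcongr
      _ = μ ^ m * (Real.exp (g * m) * Real.exp (-(g * m))) := by ring
      _ = μ ^ m := by rw [← Real.exp_add, add_neg_cancel, Real.exp_zero, mul_one]
  have h8 : Real.exp (g * m) * (law k).real {ω | ω ∈ SA k c m ∧ v * m ≤ ‖S ω m‖} +
      (law k).real (SA k c m) ≤ 2 * Real.exp (r * m) * μ ^ m := by
    have : (1 : ℝ) ≤ Real.exp (r * m) := Real.one_le_exp (by positivity)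
    have h9 : 0 < μ ^ m := by positivity
    nlinarith
  calc _ ≤ Real.exp (g * m) ^ (-(α * N)) * (2 * Real.exp (r * m) * μ ^ m) ^ N := by
        gcongr
    _ = (2 * Real.exp (-((3 / 4 * (α * g)) * m))) ^ N * μ ^ (N * m) := by
        rw [← Real.exp_mul, mul_pow, mul_pow, mul_pow, ← Real.exp_nat_mul, ← Real.exp_nat_mul,
          ← pow_mul, mul_comm m N]
        have : Real.exp (g * m * -(α * N)) * (2 ^ N * Real.exp (N * (r * m)) * μ ^ (N * m)) =
          2 ^ N * (Real.exp (g * m * -(α * N)) * Real.exp (N * (r * m))) * μ ^ (N * m) := by ring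
        rw [this, ← Real.exp_add, hr]
        congr 3
        ring

end Pool.Agent.HypSAW98
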