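import Pool.Agent.HypSAW98.Hyp

/-!
# Bridges have the same growth constant as self-avoiding walks
-/

open MeasureTheory Set Filter Topology
open scoped RealInnerProductSpace

namespace Pool.Agent.HypSAW98

variable {k : ℕ}

/-! ## Convolutions -/

lemma conv_le (u v : ℕ → ℝ) (hu : ∀ n, 0 ≤ u n) (hv : ∀ n, 0 ≤ v n) (K : ℕ) :
    ∑ n ∈ Finset.range K, ∑ p ∈ Finset.range (n + 1), u p * v (n - p) ≤
      (∑ p ∈ Finset.range K, u p) * ∑ q ∈ Finset.range K, v q := by
  have h : ∑ n ∈ Finset.range K, ∑ p ∈ Finset.range (n + 1), u p * v (n - p) =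
      ∑ p ∈ Finset.range K, ∑ n ∈ Finset.Ico p K, u p * v (n - p) := by
    refine Finset.sum_comm' ?_
    intro x y
    simp only [Finset.mem_range, Finset.mem_Ico]
    omega
  rw [h, Finset.sum_mul]
  refine Finset.sum_le_sum fun p hp => ?_
  rw [Finset.sum_Ico_eq_sum_range, ← Finset.mul_sum]
  refine mul_le_mul_of_nonneg_left ?_ (hu p)
  have : ∀ m, p + m - p = m := fun m => by omega
  simp only [this]
  exact Finset.sum_le_sum_of_subset_of_nonneg (Finset.range_mono (by omega)) fun i _ _ => hv i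

/-- Bounded partial sums. -/
def Bdd (f : ℕ → ℝ) : Prop := ∃ C, ∀ K, ∑ n ∈ Finset.range K, f n ≤ C

lemma bdd_of_self {h p g : ℕ → ℝ} (hh : ∀ n, 0 ≤ h n) (hg : ∀ n, 0 ≤ g n) (hp : Bdd p)
    (hg2 : ∀ K, ∑ n ∈ Finset.range K, g n ≤ 1 / 2)
    (hle : ∀ n, h n ≤ p n + ∑ q ∈ Finset.range (n + 1), h q * g (n - q)) : Bdd h := by
  obtain ⟨C, hC⟩ := hp
  refine ⟨2 * C, fun K => ?_⟩
  have h1 : ∑ n ∈ Finset.range K, h n ≤ ∑ n ∈ Finset.range K, p n +
      (∑ n ∈ Finset.range K, h n) * ∑ n ∈ Finset.range K, g n := by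
    refine le_trans (Finset.sum_le_sum fun n _ => hle n) ?_
    rw [Finset.sum_add_distrib]
    exact add_le_add le_rfl (conv_le h g hh hg K)
  have h2 : 0 ≤ ∑ n ∈ Finset.range K, h n := Finset.sum_nonneg fun n _ => hh n
  have h3 : (∑ n ∈ Finset.range K, h n) * ∑ n ∈ Finset.range K, g n ≤
      (∑ n ∈ Finset.range K, h n) * (1 / 2) := mul_le_mul_of_nonneg_left (hg2 K) h2
  have := hC K
  linarith

lemma bdd_conv {f p u v : ℕ → ℝ} (hu : ∀ n, 0 ≤ u n) (hv : ∀ n, 0 ≤ v n) (hp : Bdd p)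
    (hbu : Bdd u) (hbv : Bdd v)
    (hle : ∀ n, f n ≤ p n + ∑ q ∈ Finset.range (n + 1), u q * v (n - q)) : Bdd f := by
  obtain ⟨C, hC⟩ := hp
  obtain ⟨Cu, hCu⟩ := hbu
  obtain ⟨Cv, hCv⟩ := hbv
  refine ⟨C + Cu * Cv, fun K => ?_⟩
  refine le_trans (Finset.sum_le_sum fun n _ => hle n) ?_
  rw [Finset.sum_add_distrib]
  refine add_le_add (hC K) ((conv_le u v hu hv K).trans ?_)
  have h1 : 0 ≤ ∑ q ∈ Finset.range K, v q := Finset.sum_nonneg fun n _ => hv n
  have h2 : 0 ≤ ∑ q ∈ Finset.range K, u q := Finset.sum_nonneg fun n _ => hu n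
  exact mul_le_mul (hCu K) (hCv K) h1 (h2.trans (hCu K))

/-! ## Closed bridges -/

/-- Closed bridges. -/
def Cb (k : ℕ) (c : ℝ) (w : Euc k) (n : ℕ) : Set (ℕ → Sph k) :=
  {ω | ω ∈ SA k c n ∧ ∀ j ≤ n, 0 ≤ ⟪w, S ω j⟫ ∧ ⟪w, S ω j⟫ ≤ ⟪w, S ω n⟫}

lemma measurableSet_Cb (c : ℝ) (w : Euc k) (n : ℕ) : MeasurableSet (Cb k c w n) := by
  have : Cb k c w n = SA k c n ∩ ⋂ (j : ℕ) (_ : j ≤ n), ({ω | 0 ≤ ⟪w, S ω j⟫} ∩
      {ω | ⟪w, S ω j⟫ ≤ ⟪w, S ω n⟫}) := by
    ext ω; simp only [Cb, Set.mem_ofPred_eq, Set.mem_inter_iff, Set.mem_iInter]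
  rw [this]
  refine (measurableSet_SA c n).inter (MeasurableSet.iInter fun j => MeasurableSet.iInter fun _ => ?_)
  exact (measurableSet_le measurable_const (measurable_inner_S w j)).inter
    (measurableSet_le (measurable_inner_S w j) (measurable_inner_S w n))

lemma dep_Cb (c : ℝ) (w : Euc k) (n : ℕ) : Dep n (Cb k c w n) := by
  refine dep_of_S (fun f => (∀ i j, i < j → j ≤ n → c < ‖f j - f i‖) ∧
    ∀ j ≤ n, 0 ≤ ⟪w, f j⟫ ∧ ⟪w, f j⟫ ≤ ⟪w, f n⟫) ?_ (fun ω => Iff.rfl)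
  rintro f g hfg ⟨h1, h2⟩
  refine ⟨fun i j hij hj => ?_, fun j hj => ?_⟩
  · rw [← hfg j hj, ← hfg i (by omega)]; exact h1 i j hij hj
  · rw [← hfg j hj, ← hfg n le_rfl]; exact h2 j hj

lemma exists_isometry {w w' : Euc k} (hw : ‖w‖ = 1) (hw' : ‖w'‖ = 1) :
    ∃ ρ : Euc k ≃ₗᵢ[ℝ] Euc k, ρ w = w' :=
  ⟨Submodule.reflection (ℝ ∙ (w - w'))ᗮ, Submodule.reflection_sub (by rw [hw, hw'])⟩

lemma law_Cb_eq (c : ℝ) {w w' : Euc k} (hw : ‖w‖ = 1) (hw' : ‖w'‖ = 1) (n : ℕ) :
    (law k).real (Cb k c w n) = (law k).real (Cb k c w' n) := by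
  obtain ⟨ρ, hρ⟩ := exists_isometry hw hw'
  rw [← law_rotAll ρ (measurableSet_Cb c w' n)]
  congr 1
  ext ω
  simp only [Cb, Set.mem_preimage, Set.mem_ofPred_eq, SA_rotAll, S_rotAll, ← hρ,
    LinearIsometryEquiv.inner_map_map]

/-- A closed bridge, with one step in the cap before and after, is a strict bridge. -/
lemma cap_Cb_le {c : ℝ} (hc0 : 0 ≤ c) (hc : c < 1) {w : Euc k} (hw : ‖w‖ = 1) (n : ℕ) :
    capP w (ap c) * ((law k).real (Cb k c w n) * capP w (ap c)) ≤ B k c w (n + 2) := by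
  have h1 : (law k).real (Caps w (ap c) 1) = capP w (ap c) := by
    rw [law_Caps, pow_one]
  have hsp := sp_gt hc
  have e : capP w (ap c) * ((law k).real (Cb k c w n) * capP w (ap c)) =
      (law k).real (Caps w (ap c) 1 ∩ shift 1 ⁻¹' (Cb k c w n ∩ shift n ⁻¹' (Caps w (ap c) 1))) := by
    rw [real_inter_shift (unif k) (measurableSet_Caps _ _ _) (dep_Caps _ _ _)
      ((measurableSet_Cb c w n).inter (measurable_shift n (measurableSet_Caps _ _ _))),
      real_inter_shift (unif k) (measurableSet_Cb c w n) (dep_Cb c w n)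
      (measurableSet_Caps _ _ _), h1]
  rw [e]
  refine measureReal_mono ?_ (measure_ne_top _ _)
  rintro ω ⟨hω1, ⟨hSA, hCb⟩, hω3⟩
  have hu : sp c ≤ ⟪w, (ω 0 : Euc k)⟫ :=
    sp_le_inner hc0 hc hw (norm_step _) (by simpa using (ap_pos hc).le) (hω1 0 (by omega)).le
  have hv : sp c ≤ ⟪w, (ω (1 + n) : Euc k)⟫ := by
    have := hω3 0 (by omega)
    exact sp_le_inner hc0 hc hw (norm_step _) (by simpa using (ap_pos hc).le) this.le
  have hS1 : ∀ j, S ω (1 + j) = (ω 0 : Euc k) + S (shift 1 ω) j := fun j => by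
    rw [S_add]; simp [S]
  have hS2 : S ω (n + 2) = (ω 0 : Euc k) + S (shift 1 ω) n + (ω (1 + n) : Euc k) := by
    have : n + 2 = (1 + n) + 1 := by omega
    rw [this, S_succ, hS1]
  -- heights
  have hh0 : ⟪w, S ω 0⟫ = 0 := by rw [S_zero, inner_zero_right]
  have hh1 : ∀ j ≤ n, ⟪w, S ω (1 + j)⟫ = ⟪w, (ω 0 : Euc k)⟫ + ⟪w, S (shift 1 ω) j⟫ := fun j _ => by
    rw [hS1, inner_add_right]
  have hh2 : ⟪w, S ω (n + 2)⟫ = ⟪w, (ω 0 : Euc k)⟫ + ⟪w, S (shift 1 ω) n⟫ +
      ⟪w, (ω (1 + n) : Euc k)⟫ := by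
    rw [hS2, inner_add_right, inner_add_right]
  have hpos : ∀ j, 1 ≤ j → j ≤ n + 2 → c < ⟪w, S ω j⟫ := by
    intro j hj1 hj
    rcases Nat.lt_or_ge j (n + 2) with h | h
    · obtain ⟨j', rfl⟩ := Nat.exists_eq_add_of_le hj1
      rw [hh1 j' (by omega)]
      have := (hCb j' (by omega)).1
      linarith
    · have : j = n + 2 := by omega
      subst this
      rw [hh2]
      have := (hCb n le_rfl).1
      linarith
  have htop : ∀ j < n + 2, c < ⟪w, S ω (n + 2)⟫ - ⟪w, S ω j⟫ := by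
    intro j hj
    rcases Nat.eq_zero_or_pos j with h | h
    · subst h
      rw [hh0, sub_zero]
      exact hpos _ (by omega) le_rfl
    · obtain ⟨j', rfl⟩ := Nat.exists_eq_add_of_le (show 1 ≤ j from h)
      rw [hh2, hh1 j' (by omega)]
      have := (hCb j' (by omega)).2
      linarith
  refine ⟨?_, hpos, fun j hj => by have := htop j hj; linarith⟩
  intro i j hij hj
  have hin : ∀ x : Euc k, ⟪w, x⟫ ≤ ‖x‖ := fun x => by
    have := real_inner_le_norm w x
    rwa [hw, one_mul] at this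
  rcases Nat.lt_or_ge j (n + 2) with h | h
  · rcases Nat.eq_zero_or_pos i with h' | h'
    · subst h'
      rw [S_zero, sub_zero]
      exact (hpos j (by omega) hj).trans_le (hin _)
    · obtain ⟨i', rfl⟩ := Nat.exists_eq_add_of_le (show 1 ≤ i from h')
      obtain ⟨j', rfl⟩ := Nat.exists_eq_add_of_le (show 1 ≤ j by omega)
      rw [hS1, hS1, add_sub_add_left_eq_sub]
      exact hSA i' j' (by omega) (by omega)
  · have : j = n + 2 := by omega
    subst this
    refine (htop i hij).trans_le ?_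
    rw [← inner_sub_right]
    exact hin _

/-- The closed bridges in the directions `w` and `-w`. -/
def Cb2 (k : ℕ) (c : ℝ) (w : Euc k) (n : ℕ) : Set (ℕ → Sph k) := Cb k c w n ∪ Cb k c (-w) n

lemma measurableSet_Cb2 (c : ℝ) (w : Euc k) (n : ℕ) : MeasurableSet (Cb2 k c w n) :=
  (measurableSet_Cb c w n).union (measurableSet_Cb c (-w) n)

lemma dep_Cb2 (c : ℝ) (w : Euc k) (n : ℕ) : Dep n (Cb2 k c w n) := fun ω ω' h =>
  or_congr (dep_Cb c w n ω ω' h) (dep_Cb c (-w) n ω ω' h)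

/-! ## The decomposition -/

/-- The oscillation in direction `w` is at most `s`. -/
def Osc (k : ℕ) (s : ℝ) (w : Euc k) (n : ℕ) : Set (ℕ → Sph k) :=
  {ω | ∀ j ≤ n, ∀ j' ≤ n, ⟪w, S ω j'⟫ - ⟪w, S ω j⟫ ≤ s}

/-- The last position is extreme in direction `w`. -/
def LE (k : ℕ) (w : Euc k) (n : ℕ) : Set (ℕ → Sph k) :=
  {ω | (∀ j ≤ n, ⟪w, S ω j⟫ ≤ ⟪w, S ω n⟫) ∨ ∀ j ≤ n, ⟪w, S ω n⟫ ≤ ⟪w, S ω j⟫}

/-- The first position is extreme in direction `w`. -/
def FE (k : ℕ) (w : Euc k) (n : ℕ) : Set (ℕ → Sph k) :=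
  {ω | (∀ j ≤ n, ⟪w, S ω j⟫ ≤ 0) ∨ ∀ j ≤ n, 0 ≤ ⟪w, S ω j⟫}

lemma measurableSet_Osc (s : ℝ) (w : Euc k) (n : ℕ) : MeasurableSet (Osc k s w n) := by
  have : Osc k s w n = ⋂ (j : ℕ) (_ : j ≤ n) (j' : ℕ) (_ : j' ≤ n),
      {ω | ⟪w, S ω j'⟫ - ⟪w, S ω j⟫ ≤ s} := by
    ext ω; simp only [Osc, Set.mem_ofPred_eq, Set.mem_iInter]
  rw [this]
  exact MeasurableSet.iInter fun j => MeasurableSet.iInter fun _ => MeasurableSet.iInter fun j' =>
    MeasurableSet.iInter fun _ =>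
      measurableSet_le ((measurable_inner_S w j').sub (measurable_inner_S w j)) measurable_const

lemma measurableSet_LE (w : Euc k) (n : ℕ) : MeasurableSet (LE k w n) := by
  have : LE k w n = (⋂ (j : ℕ) (_ : j ≤ n), {ω | ⟪w, S ω j⟫ ≤ ⟪w, S ω n⟫}) ∪
      ⋂ (j : ℕ) (_ : j ≤ n), {ω | ⟪w, S ω n⟫ ≤ ⟪w, S ω j⟫} := by
    ext ω; simp only [LE, Set.mem_ofPred_eq, Set.mem_iInter, Set.mem_union]
  rw [this]
  exact (MeasurableSet.iInter fun j => MeasurableSet.iInter fun _ =>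
    measurableSet_le (measurable_inner_S w j) (measurable_inner_S w n)).union
    (MeasurableSet.iInter fun j => MeasurableSet.iInter fun _ =>
    measurableSet_le (measurable_inner_S w n) (measurable_inner_S w j))

lemma measurableSet_FE (w : Euc k) (n : ℕ) : MeasurableSet (FE k w n) := by
  have : FE k w n = (⋂ (j : ℕ) (_ : j ≤ n), {ω | ⟪w, S ω j⟫ ≤ 0}) ∪
      ⋂ (j : ℕ) (_ : j ≤ n), {ω | 0 ≤ ⟪w, S ω j⟫} := by
    ext ω; simp only [FE, Set.mem_ofPred_eq, Set.mem_iInter, Set.mem_union]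
  rw [this]
  exact (MeasurableSet.iInter fun j => MeasurableSet.iInter fun _ =>
    measurableSet_le (measurable_inner_S w j) measurable_const).union
    (MeasurableSet.iInter fun j => MeasurableSet.iInter fun _ =>
    measurableSet_le measurable_const (measurable_inner_S w j))

lemma dep_Osc (s : ℝ) (w : Euc k) (n : ℕ) : Dep n (Osc k s w n) := by
  refine dep_of_S (fun f => ∀ j ≤ n, ∀ j' ≤ n, ⟪w, f j'⟫ - ⟪w, f j⟫ ≤ s) ?_ (fun ω => Iff.rfl)
  intro f g hfg h j hj j' hj'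
  rw [← hfg j hj, ← hfg j' hj']; exact h j hj j' hj'

lemma dep_LE (w : Euc k) (n : ℕ) : Dep n (LE k w n) := by
  refine dep_of_S (fun f => (∀ j ≤ n, ⟪w, f j⟫ ≤ ⟪w, f n⟫) ∨ ∀ j ≤ n, ⟪w, f n⟫ ≤ ⟪w, f j⟫) ?_
    (fun ω => Iff.rfl)
  rintro f g hfg (h | h)
  · exact Or.inl fun j hj => by rw [← hfg j hj, ← hfg n le_rfl]; exact h j hj
  · exact Or.inr fun j hj => by rw [← hfg j hj, ← hfg n le_rfl]; exact h j hj

lemma dep_FE (w : Euc k) (n : ℕ) : Dep n (FE k w n) := by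
  refine dep_of_S (fun f => (∀ j ≤ n, ⟪w, f j⟫ ≤ 0) ∨ ∀ j ≤ n, 0 ≤ ⟪w, f j⟫) ?_
    (fun ω => Iff.rfl)
  rintro f g hfg (h | h)
  · exact Or.inl fun j hj => by rw [← hfg j hj]; exact h j hj
  · exact Or.inr fun j hj => by rw [← hfg j hj]; exact h j hj

/-- Hereditary families of events. -/
structure Hered (k : ℕ) (c : ℝ) (A : ℕ → Set (ℕ → Sph k)) : Prop where
  meas : ∀ n, MeasurableSet (A n)
  dep : ∀ n, Dep n (A n)
  sa : ∀ n, A n ⊆ SA k c n
  sub : ∀ l m n, l + m ≤ n → ∀ ω ∈ A n, shift l ω ∈ A m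

lemma hered_SA (c : ℝ) : Hered k c (SA k c) :=
  ⟨measurableSet_SA c, dep_SA c, fun _ => le_rfl, fun _ _ _ h _ hω => SA_shift h hω⟩

lemma Hered.osc {c : ℝ} {A : ℕ → Set (ℕ → Sph k)} (hA : Hered k c A) (s : ℝ) (w : Euc k) :
    Hered k c (fun n => A n ∩ Osc k s w n) where
  meas n := (hA.meas n).inter (measurableSet_Osc s w n)
  dep n := (hA.dep n).inter (dep_Osc s w n)
  sa n := fun _ h => hA.sa n h.1
  sub l m n h ω hω := by
    refine ⟨hA.sub l m n h ω hω.1, fun j hj j' hj' => ?_⟩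
    have h1 := hω.2 (l + j) (by omega) (l + j') (by omega)
    rw [S_add, S_add, inner_add_right, inner_add_right] at h1
    linarith

lemma Hered.restrict {c : ℝ} {A : ℕ → Set (ℕ → Sph k)} (hA : Hered k c A) {m n : ℕ} (h : m ≤ n)
    {ω : ℕ → Sph k} (hω : ω ∈ A n) : ω ∈ A m := by
  have := hA.sub 0 m n (by omega) ω hω
  rwa [shift_zero] at this

/-- A block between two opposite extreme times is a closed bridge up or down. -/
lemma cb2_of_extreme {c : ℝ} {w : Euc k} {p m n : ℕ} (hpm : p + m ≤ n) {ω : ℕ → Sph k}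
    (hSA : ω ∈ SA k c n)
    (h : (∀ j ≤ m, ⟪w, S ω p⟫ ≤ ⟪w, S ω (p + j)⟫ ∧ ⟪w, S ω (p + j)⟫ ≤ ⟪w, S ω (p + m)⟫) ∨
      (∀ j ≤ m, ⟪w, S ω (p + m)⟫ ≤ ⟪w, S ω (p + j)⟫ ∧ ⟪w, S ω (p + j)⟫ ≤ ⟪w, S ω p⟫)) :
    shift p ω ∈ Cb2 k c w m := by
  have hS : ∀ j, ⟪w, S (shift p ω) j⟫ = ⟪w, S ω (p + j)⟫ - ⟪w, S ω p⟫ := fun j => by
    rw [S_add, inner_add_right]; ring
  rcases h with h | h
  · left
    refine ⟨SA_shift hpm hSA, fun j hj => ?_⟩
    rw [hS, hS]
    have := h j hj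
    constructor <;> linarith
  · right
    refine ⟨SA_shift hpm hSA, fun j hj => ?_⟩
    rw [inner_neg_left, inner_neg_left, hS, hS]
    have := h j hj
    constructor <;> linarith

lemma exists_extreme (f : ℕ → ℝ) (n : ℕ) : ∃ a ≤ n, ∃ b ≤ n, ∀ j ≤ n, f a ≤ f j ∧ f j ≤ f b := by
  obtain ⟨a, ha, h1⟩ := Finset.exists_min_image (Finset.range (n + 1)) f ⟨0, by simp⟩
  obtain ⟨b, hb, h2⟩ := Finset.exists_max_image (Finset.range (n + 1)) f ⟨0, by simp⟩
  rw [Finset.mem_range] at ha hb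
  exact ⟨a, by omega, b, by omega, fun j hj => ⟨h1 j (Finset.mem_range.2 (by omega)),
    h2 j (Finset.mem_range.2 (by omega))⟩⟩

lemma inner_S_sub_le {w : Euc k} (hw : ‖w‖ = 1) (ω : ℕ → Sph k) {i j : ℕ} (h : i ≤ j) :
    |⟪w, S ω j⟫ - ⟪w, S ω i⟫| ≤ (j : ℝ) - i := by
  rw [← inner_sub_right]
  have := abs_real_inner_le_norm w (S ω j - S ω i)
  rw [hw, one_mul] at this
  exact this.trans (norm_S_sub_le ω h)

/-- Long bridges only. -/
def Lb (k : ℕ) (c : ℝ) (s : ℕ) (w : Euc k) (m : ℕ) : Set (ℕ → Sph k) :=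
  {ω | s ≤ m ∧ ω ∈ Cb2 k c w m}

lemma measurableSet_Lb (c : ℝ) (s : ℕ) (w : Euc k) (n : ℕ) : MeasurableSet (Lb k c s w n) := by
  by_cases h : s ≤ n
  · have : Lb k c s w n = Cb2 k c w n := by ext; simp [Lb, h]
    rw [this]; exact measurableSet_Cb2 c w n
  · have : Lb k c s w n = ∅ := by ext; simp [Lb, h]
    rw [this]; exact MeasurableSet.empty

lemma dep_Lb (c : ℝ) (s : ℕ) (w : Euc k) (n : ℕ) : Dep n (Lb k c s w n) := fun ω ω' h =>
  and_congr Iff.rfl (dep_Cb2 c w n ω ω' h)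

lemma decomp_last {c : ℝ} {A : ℕ → Set (ℕ → Sph k)} (hA : Hered k c A) (s : ℕ) {w : Euc k}
    (hw : ‖w‖ = 1) (n : ℕ) :
    A n ∩ LE k w n ⊆ (A n ∩ Osc k s w n) ∪
      ⋃ p ∈ Finset.range (n + 1), ((A p ∩ LE k w p) ∩ shift p ⁻¹' Lb k c s w (n - p)) := by
  rintro ω ⟨hωA, hωE⟩
  by_cases hosc : ω ∈ Osc k s w n
  · exact Or.inl ⟨hωA, hosc⟩
  right
  obtain ⟨a, ha, b, hb, hab⟩ := exists_extreme (fun j => ⟪w, S ω j⟫) n
  have hgap : (s : ℝ) < ⟪w, S ω b⟫ - ⟪w, S ω a⟫ := by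
    by_contra hcon
    push Not at hcon
    exact hosc fun j hj j' hj' => by
      have h1 := (hab j hj).1
      have h2 := (hab j' hj').2
      linarith
  simp only [Set.mem_iUnion, Finset.mem_range]
  rcases hωE with hE | hE
  · -- the last position is the maximum; cut at `a`
    have hbn : ⟪w, S ω b⟫ = ⟪w, S ω n⟫ := le_antisymm (hE b hb) (hab n le_rfl).2
    refine ⟨a, by omega, ⟨⟨hA.restrict ha hωA, Or.inr fun j hj => (hab j (by omega)).1⟩, ?_, ?_⟩⟩
    · have h1 := inner_S_sub_le hw ω ha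
      have h2 := le_abs_self (⟪w, S ω n⟫ - ⟪w, S ω a⟫)
      have h3 : (s : ℝ) < ((n - a : ℕ) : ℝ) := by
        rw [Nat.cast_sub ha]; linarith
      exact_mod_cast h3.le
    · refine cb2_of_extreme (n := n) (by omega) (hA.sa n hωA) (Or.inl fun j hj => ?_)
      have e : a + (n - a) = n := by omega
      rw [e]
      exact ⟨(hab (a + j) (by omega)).1, hE (a + j) (by omega)⟩
  · have han : ⟪w, S ω a⟫ = ⟪w, S ω n⟫ := le_antisymm (hab n le_rfl).1 (hE a ha)
    refine ⟨b, by omega, ⟨⟨hA.restrict hb hωA, Or.inl fun j hj => (hab j (by omega)).2⟩, ?_, ?_⟩⟩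
    · have h1 := inner_S_sub_le hw ω hb
      have h2 := neg_abs_le (⟪w, S ω n⟫ - ⟪w, S ω b⟫)
      have h3 : (s : ℝ) < ((n - b : ℕ) : ℝ) := by
        rw [Nat.cast_sub hb]; linarith
      exact_mod_cast h3.le
    · refine cb2_of_extreme (n := n) (by omega) (hA.sa n hωA) (Or.inr fun j hj => ?_)
      have e : b + (n - b) = n := by omega
      rw [e]
      exact ⟨hE (b + j) (by omega), (hab (b + j) (by omega)).2⟩

lemma decomp_first {c : ℝ} {A : ℕ → Set (ℕ → Sph k)} (hA : Hered k c A) (s : ℕ) {w : Euc k}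
    (hw : ‖w‖ = 1) (n : ℕ) :
    A n ∩ FE k w n ⊆ (A n ∩ Osc k s w n) ∪
      ⋃ p ∈ Finset.range (n + 1), (Lb k c s w p ∩ shift p ⁻¹' (A (n - p) ∩ FE k w (n - p))) := by
  rintro ω ⟨hωA, hωE⟩
  by_cases hosc : ω ∈ Osc k s w n
  · exact Or.inl ⟨hωA, hosc⟩
  right
  obtain ⟨a, ha, b, hb, hab⟩ := exists_extreme (fun j => ⟪w, S ω j⟫) n
  have hgap : (s : ℝ) < ⟪w, S ω b⟫ - ⟪w, S ω a⟫ := by
    by_contra hcon
    push Not at hcon
    exact hosc fun j hj j' hj' => by
      have h1 := (hab j hj).1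
      have h2 := (hab j' hj').2
      linarith
  have h0 : ⟪w, S ω 0⟫ = 0 := by rw [S_zero, inner_zero_right]
  simp only [Set.mem_iUnion, Finset.mem_range]
  rcases hωE with hE | hE
  · -- the first position is the maximum; cut at `a`
    have hb0 : ⟪w, S ω b⟫ = 0 := le_antisymm (hE b hb) (by
      have := (hab 0 (Nat.zero_le _)).2
      rwa [h0] at this)
    refine ⟨a, by omega, ⟨?_, ?_⟩, hA.sub a (n - a) n (by omega) ω hωA, Or.inr fun j hj => ?_⟩
    · have h1 := inner_S_sub_le hw ω (Nat.zero_le a)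
      have h2 := neg_abs_le (⟪w, S ω a⟫ - ⟪w, S ω 0⟫)
      have h3 : (s : ℝ) < (a : ℝ) := by
        rw [h0] at h1 h2
        simp only [Nat.cast_zero, sub_zero] at h1 h2
        linarith
      exact_mod_cast h3.le
    · have := cb2_of_extreme (p := 0) (m := a) (n := n) (w := w) (by omega) (hA.sa n hωA)
        (Or.inr fun j hj => by
          rw [zero_add, zero_add, h0]
          exact ⟨(hab j (by omega)).1, hE j (by omega)⟩)
      rwa [shift_zero] at this
    · have h1 := (hab (a + j) (by omega)).1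
      rw [S_add, inner_add_right] at h1
      linarith
  · have ha0 : ⟪w, S ω a⟫ = 0 := le_antisymm (by
      have := (hab 0 (Nat.zero_le _)).1
      rwa [h0] at this) (hE a ha)
    refine ⟨b, by omega, ⟨?_, ?_⟩, hA.sub b (n - b) n (by omega) ω hωA, Or.inl fun j hj => ?_⟩
    · have h1 := inner_S_sub_le hw ω (Nat.zero_le b)
      have h2 := le_abs_self (⟪w, S ω b⟫ - ⟪w, S ω 0⟫)
      have h3 : (s : ℝ) < (b : ℝ) := by
        rw [h0] at h1 h2
        simp only [Nat.cast_zero, sub_zero] at h1 h2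
        linarith
      exact_mod_cast h3.le
    · have := cb2_of_extreme (p := 0) (m := b) (n := n) (w := w) (by omega) (hA.sa n hωA)
        (Or.inl fun j hj => by
          rw [zero_add, zero_add, h0]
          exact ⟨hE j (by omega), (hab j (by omega)).2⟩)
      rwa [shift_zero] at this
    · have h1 := (hab (b + j) (by omega)).2
      rw [S_add, inner_add_right] at h1
      linarith

/-- A long bridge followed by a walk whose first position is extreme. -/
def Gs (k : ℕ) (c : ℝ) (s : ℕ) (w : Euc k) (A : ℕ → Set (ℕ → Sph k)) (l : ℕ) :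
    Set (ℕ → Sph k) :=
  ⋃ p ∈ Finset.range (l + 1), (Lb k c s w p ∩ shift p ⁻¹' (A (l - p) ∩ FE k w (l - p)))

lemma measurableSet_Gs {c : ℝ} {A : ℕ → Set (ℕ → Sph k)} (hA : Hered k c A) (s : ℕ) (w : Euc k)
    (l : ℕ) : MeasurableSet (Gs k c s w A l) :=
  Finset.measurableSet_biUnion _ fun p _ => (measurableSet_Lb c s w p).inter
    (measurable_shift p ((hA.meas _).inter (measurableSet_FE w _)))

lemma decomp {c : ℝ} {A : ℕ → Set (ℕ → Sph k)} (hA : Hered k c A) (s : ℕ) {w : Euc k}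
    (hw : ‖w‖ = 1) (n : ℕ) :
    A n ⊆ (A n ∩ Osc k s w n) ∪
      ⋃ p ∈ Finset.range (n + 1), ((A p ∩ LE k w p) ∩ shift p ⁻¹' Gs k c s w A (n - p)) := by
  rintro ω hωA
  by_cases hosc : ω ∈ Osc k s w n
  · exact Or.inl ⟨hωA, hosc⟩
  right
  obtain ⟨a, ha, b, hb, hab⟩ := exists_extreme (fun j => ⟪w, S ω j⟫) n
  have hgap : (s : ℝ) < ⟪w, S ω b⟫ - ⟪w, S ω a⟫ := by
    by_contra hcon
    push Not at hcon
    exact hosc fun j hj j' hj' => by
      have h1 := (hab j hj).1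
      have h2 := (hab j' hj').2
      linarith
  simp only [Set.mem_iUnion, Finset.mem_range, Gs, Set.mem_preimage, Set.mem_inter_iff]
  rcases le_total a b with hle | hle
  · refine ⟨a, by omega, ⟨hA.restrict ha hωA, Or.inr fun j hj => (hab j (by omega)).1⟩,
      b - a, by omega, ⟨?_, ?_⟩, ?_, ?_⟩
    · have h1 := inner_S_sub_le hw ω hle
      have h2 := le_abs_self (⟪w, S ω b⟫ - ⟪w, S ω a⟫)
      have h3 : (s : ℝ) < ((b - a : ℕ) : ℝ) := by
        rw [Nat.cast_sub hle]; linarith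
      exact_mod_cast h3.le
    · refine cb2_of_extreme (n := n) (by omega) (hA.sa n hωA) (Or.inl fun j hj => ?_)
      have e : a + (b - a) = b := by omega
      rw [e]
      exact hab (a + j) (by omega)
    · rw [shift_shift]
      have e : a + (b - a) = b := by omega
      rw [e]
      exact hA.sub b _ n (by omega) ω hωA
    · rw [shift_shift]
      have e : a + (b - a) = b := by omega
      rw [e]
      refine Or.inl fun j hj => ?_
      have h1 := (hab (b + j) (by omega)).2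
      rw [S_add, inner_add_right] at h1
      linarith
  · refine ⟨b, by omega, ⟨hA.restrict hb hωA, Or.inl fun j hj => (hab j (by omega)).2⟩,
      a - b, by omega, ⟨?_, ?_⟩, ?_, ?_⟩
    · have h1 := inner_S_sub_le hw ω hle
      have h2 := neg_abs_le (⟪w, S ω a⟫ - ⟪w, S ω b⟫)
      have h3 : (s : ℝ) < ((a - b : ℕ) : ℝ) := by
        rw [Nat.cast_sub hle]; linarith
      exact_mod_cast h3.le
    · refine cb2_of_extreme (n := n) (by omega) (hA.sa n hωA) (Or.inr fun j hj => ?_)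
      have e : b + (a - b) = a := by omega
      rw [e]
      exact hab (b + j) (by omega)
    · rw [shift_shift]
      have e : b + (a - b) = a := by omega
      rw [e]
      exact hA.sub a _ n (by omega) ω hωA
    · rw [shift_shift]
      have e : b + (a - b) = a := by omega
      rw [e]
      refine Or.inr fun j hj => ?_
      have h1 := (hab (a + j) (by omega)).1
      rw [S_add, inner_add_right] at h1
      linarith

/-! ## From the decomposition to the convolution inequality -/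

lemma real_conv_le {X Y : Set (ℕ → Sph k)} {U V : ℕ → Set (ℕ → Sph k)} (n : ℕ)
    (hU : ∀ n, MeasurableSet (U n)) (hdU : ∀ n, Dep n (U n)) (hV : ∀ n, MeasurableSet (V n))
    (h : X ⊆ Y ∪ ⋃ p ∈ Finset.range (n + 1), (U p ∩ shift p ⁻¹' V (n - p))) :
    (law k).real X ≤ (law k).real Y +
      ∑ p ∈ Finset.range (n + 1), (law k).real (U p) * (law k).real (V (n - p)) := by
  refine (measureReal_mono h (measure_ne_top _ _)).trans ((measureReal_union_le _ _).trans ?_)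
  refine add_le_add le_rfl ((measureReal_biUnion_finset_le _ _).trans ?_)
  refine Finset.sum_le_sum fun p _ => ?_
  rw [real_inter_shift (unif k) (hU p) (hdU p) (hV _)]

/-- The normalised probabilities. -/
noncomputable def nrm (k : ℕ) (μ : ℝ) (X : ℕ → Set (ℕ → Sph k)) (n : ℕ) : ℝ :=
  (law k).real (X n) / μ ^ n

lemma nrm_nonneg {μ : ℝ} (hμ : 0 < μ) (X : ℕ → Set (ℕ → Sph k)) (n : ℕ) : 0 ≤ nrm k μ X n :=
  div_nonneg measureReal_nonneg (pow_nonneg hμ.le n)

lemma nrm_conv_le {μ : ℝ} (hμ : 0 < μ) {X Y U V : ℕ → Set (ℕ → Sph k)}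
    (hU : ∀ n, MeasurableSet (U n)) (hdU : ∀ n, Dep n (U n)) (hV : ∀ n, MeasurableSet (V n))
    (h : ∀ n, X n ⊆ Y n ∪ ⋃ p ∈ Finset.range (n + 1), (U p ∩ shift p ⁻¹' V (n - p))) (n : ℕ) :
    nrm k μ X n ≤ nrm k μ Y n +
      ∑ p ∈ Finset.range (n + 1), nrm k μ U p * nrm k μ V (n - p) := by
  have h1 := real_conv_le n hU hdU hV (h n)
  have h2 : (0 : ℝ) < μ ^ n := pow_pos hμ n
  have h3 : ∑ p ∈ Finset.range (n + 1), nrm k μ U p * nrm k μ V (n - p) =
      (∑ p ∈ Finset.range (n + 1), (law k).real (U p) * (law k).real (V (n - p))) / μ ^ n := by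
    rw [Finset.sum_div]
    refine Finset.sum_congr rfl fun p hp => ?_
    have hp' : p ≤ n := by
      have := Finset.mem_range.1 hp; omega
    unfold nrm
    rw [div_mul_div_comm, ← pow_add]
    congr 3
    omega
  rw [h3]
  unfold nrm
  rw [← add_div]
  gcongr

lemma bdd_step {c μ : ℝ} (hμ : 0 < μ) {A : ℕ → Set (ℕ → Sph k)} (hA : Hered k c A) (s : ℕ)
    {w : Euc k} (hw : ‖w‖ = 1)
    (hg : ∀ K, ∑ n ∈ Finset.range K, nrm k μ (Lb k c s w) n ≤ 1 / 2)
    (hb : Bdd (nrm k μ fun n => A n ∩ Osc k s w n)) : Bdd (nrm k μ A) := by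
  have hgb : Bdd (nrm k μ (Lb k c s w)) := ⟨1 / 2, hg⟩
  -- last position extreme
  have h1 : Bdd (nrm k μ fun n => A n ∩ LE k w n) :=
    bdd_of_self (nrm_nonneg hμ _) (nrm_nonneg hμ _) hb hg
      (nrm_conv_le hμ (fun n => (hA.meas n).inter (measurableSet_LE w n))
        (fun n => (hA.dep n).inter (dep_LE w n)) (measurableSet_Lb c s w) (decomp_last hA s hw))
  -- first position extreme
  have h2 : Bdd (nrm k μ fun n => A n ∩ FE k w n) := by
    refine bdd_of_self (nrm_nonneg hμ _) (nrm_nonneg hμ _) hb hg fun n => ?_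
    refine (nrm_conv_le hμ (measurableSet_Lb c s w) (dep_Lb c s w)
      (fun n => (hA.meas n).inter (measurableSet_FE w n)) (decomp_first hA s hw) n).trans ?_
    refine add_le_add le_rfl (le_of_eq ?_)
    rw [← Finset.sum_range_reflect]
    refine Finset.sum_congr rfl fun p hp => ?_
    have hp' := Finset.mem_range.1 hp
    have e1 : n + 1 - 1 - p = n - p := by omega
    have e2 : n - (n - p) = p := by omega
    rw [e1, e2, mul_comm]
  have h3 : Bdd (nrm k μ (Gs k c s w A)) := by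
    refine bdd_conv (p := fun _ => 0) (nrm_nonneg hμ _) (nrm_nonneg hμ _) ⟨0, fun K => by simp⟩ hgb h2
      fun n => ?_
    have := nrm_conv_le hμ (X := Gs k c s w A) (Y := fun _ => ∅) (measurableSet_Lb c s w)
      (dep_Lb c s w) (fun n => (hA.meas n).inter (measurableSet_FE w n))
      (fun n => by rw [Set.empty_union]; exact le_rfl) n
    refine this.trans (add_le_add ?_ le_rfl)
    simp [nrm]
  exact bdd_conv (nrm_nonneg hμ _) (nrm_nonneg hμ _) hb h1 h3
    (nrm_conv_le hμ (fun n => (hA.meas n).inter (measurableSet_LE w n))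
        (fun n => (hA.dep n).inter (dep_LE w n)) (measurableSet_Gs hA s w) (decomp hA s hw))

/-- Self-avoiding walks confined in finitely many directions. -/
def ConfL (k : ℕ) (c : ℝ) (s : ℕ) : List (Euc k) → ℕ → Set (ℕ → Sph k)
  | [] => SA k c
  | w :: L => fun n => ConfL k c s L n ∩ Osc k s w n

lemma hered_ConfL (c : ℝ) (s : ℕ) (L : List (Euc k)) : Hered k c (ConfL k c s L) := by
  induction L with
  | nil => exact hered_SA c
  | cons w L ih => exact ih.osc s w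

lemma osc_of_ConfL {c : ℝ} {s : ℕ} {L : List (Euc k)} {n : ℕ} {ω : ℕ → Sph k}
    (h : ω ∈ ConfL k c s L n) : ∀ w ∈ L, ω ∈ Osc k s w n := by
  induction L with
  | nil => intro w hw; simp at hw
  | cons w L ih =>
    intro w' hw'
    rcases List.mem_cons.1 hw' with rfl | h'
    · exact h.2
    · exact ih h.1 w' h'

lemma bdd_SA_of_ConfL {c μ : ℝ} (hμ : 0 < μ) (s : ℕ)
    (hg : ∀ w : Euc k, ‖w‖ = 1 → ∀ K, ∑ n ∈ Finset.range K, nrm k μ (Lb k c s w) n ≤ 1 / 2)
    (L : List (Euc k)) (hL : ∀ w ∈ L, ‖w‖ = 1) (hb : Bdd (nrm k μ (ConfL k c s L))) :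
    Bdd (nrm k μ (SA k c)) := by
  induction L with
  | nil => exact hb
  | cons w L ih =>
    have hw : ‖w‖ = 1 := hL w (by simp)
    exact ih (fun w' hw' => hL w' (by simp [hw'])) (bdd_step hμ (hered_ConfL c s L) s hw (hg w hw) hb)

/-- Confined self-avoiding walks cannot be long. -/
lemma confined_short {c : ℝ} (hc0 : 0 < c) (s : ℕ) : ∃ N, ∀ n ≥ N, ∀ ω : ℕ → Sph k,
    ω ∈ SA k c n → (∀ i : Fin (k + 1), ω ∈ Osc k s (EuclideanSpace.single i 1) n) → False := by
  set R : ℝ := √((k + 1 : ℕ) * (s : ℝ) ^ 2) with hR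
  have hcomp : IsCompact (Metric.closedBall (0 : Euc k) R) := isCompact_closedBall _ _
  obtain ⟨t, htsub, htcov⟩ := hcomp.elim_finite_subcover_image (b := Metric.closedBall (0 : Euc k) R)
    (c := fun x => Metric.ball x (c / 2)) (fun x _ => Metric.isOpen_ball)
    (fun x hx => Set.mem_iUnion₂.2 ⟨x, hx, Metric.mem_ball_self (by linarith)⟩)
  obtain ⟨htfin, htcov⟩ := htcov
  classical
  set T := htfin.toFinset with hT
  refine ⟨T.card, fun n hn ω hSA hosc => ?_⟩
  have hball : ∀ j ≤ n, S ω j ∈ Metric.closedBall (0 : Euc k) R := by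
    intro j hj
    rw [mem_closedBall_zero_iff, hR]
    refine Real.le_sqrt_of_sq_le ?_
    rw [EuclideanSpace.norm_sq_eq]
    calc ∑ i, ‖(S ω j) i‖ ^ 2 ≤ ∑ _i : Fin (k + 1), (s : ℝ) ^ 2 := by
          refine Finset.sum_le_sum fun i _ => ?_
          have h1 := hosc i 0 (Nat.zero_le _) j hj
          have h2 := hosc i j hj 0 (Nat.zero_le _)
          rw [S_zero, inner_zero_right, EuclideanSpace.inner_single_left] at h1 h2
          simp only [map_one, one_mul] at h1 h2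
          rw [Real.norm_eq_abs, sq_abs, sq_le_sq, Nat.abs_cast]
          exact abs_le.2 ⟨by linarith, by linarith⟩
      _ = _ := by simp
  have hmaps : ∀ j ∈ Finset.range (n + 1), ∃ x ∈ T, S ω j ∈ Metric.ball x (c / 2) := by
    intro j hj
    have := htcov (hball j (by have := Finset.mem_range.1 hj; omega))
    obtain ⟨x, hx, hx2⟩ := Set.mem_iUnion₂.1 this
    exact ⟨x, by simpa [hT] using hx, hx2⟩
  choose! f hf1 hf2 using hmaps
  obtain ⟨i, hi, j, hj, hne, hfij⟩ := Finset.exists_ne_map_eq_of_card_lt_of_maps_to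
    (s := Finset.range (n + 1)) (t := T) (by rw [Finset.card_range]; omega) hf1
  have key : ∀ i j, i ∈ Finset.range (n + 1) → j ∈ Finset.range (n + 1) → i < j → f i = f j →
      False := by
    intro i j hi hj hlt hfij
    have h1 := hSA i j hlt (by have := Finset.mem_range.1 hj; omega)
    have h2 := hf2 i hi
    have h3 := hf2 j hj
    rw [hfij] at h2
    have h4 := dist_triangle_right (S ω j) (S ω i) (f j)
    rw [Metric.mem_ball] at h2 h3
    rw [dist_eq_norm] at h4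
    linarith
  rcases lt_or_gt_of_ne hne with h | h
  · exact key i j hi hj h hfij
  · exact key j i hj hi h hfij.symm

theorem bridge_growth {c μ ρ : ℝ} (hc0 : 0 < c) (hc : c < 1) (hμ : ∀ n, μ ^ n ≤ Z k c n)
    (hρ0 : 0 < ρ) (hρ : ρ < μ) {w : Euc k} (hw : ‖w‖ = 1) :
    ∃ n, 1 ≤ n ∧ ρ ^ n < B k c w n := by
  by_contra hcon
  push Not at hcon
  have hμ0 : 0 < μ := hρ0.trans hρ
  set a := capP w (ap c) with ha
  have ha0 : 0 < a := capP_pos hw (ap_pos hc)
  set q := ρ / μ with hq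
  have hq0 : 0 < q := div_pos hρ0 hμ0
  have hq1 : q < 1 := (div_lt_one hμ0).2 hρ
  set D := 2 * (ρ ^ 2 / a ^ 2) with hD
  -- closed bridges are rare
  have hCb : ∀ w' : Euc k, ‖w'‖ = 1 → ∀ n, (law k).real (Cb k c w' n) ≤ ρ ^ 2 / a ^ 2 * ρ ^ n := by
    intro w' hw' n
    rw [law_Cb_eq c hw' hw]
    have h1 := (cap_Cb_le hc0.le hc hw n).trans (hcon (n + 2) (by omega))
    rw [div_mul_eq_mul_div, le_div_iff₀ (by positivity)]
    calc (law k).real (Cb k c w n) * a ^ 2 = a * ((law k).real (Cb k c w n) * a) := by ring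
      _ ≤ ρ ^ (n + 2) := h1
      _ = ρ ^ 2 * ρ ^ n := by ring
  have hCb2 : ∀ w' : Euc k, ‖w'‖ = 1 → ∀ s n, nrm k μ (Lb k c s w') n ≤
      if s ≤ n then D * q ^ n else 0 := by
    intro w' hw' s n
    split_ifs with h
    · have h1 : (law k).real (Lb k c s w' n) ≤ D * ρ ^ n := by
        refine (measureReal_mono (s₂ := Cb k c w' n ∪ Cb k c (-w') n) (fun ω hω => hω.2)
          (measure_ne_top _ _)).trans ((measureReal_union_le _ _).trans ?_)
        have h2 := hCb w' hw' n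
        have h3 := hCb (-w') (by rwa [norm_neg]) n
        rw [hD]; linarith
      unfold nrm
      rw [div_le_iff₀ (pow_pos hμ0 n)]
      have h4 : q ^ n * μ ^ n = ρ ^ n := by
        rw [← mul_pow, hq, div_mul_cancel₀ _ hμ0.ne']
      rw [mul_assoc, h4]
      exact h1
    · have : Lb k c s w' n = ∅ := by ext; simp [Lb, h]
      unfold nrm
      rw [this]; simp
  have hsum : Summable fun n : ℕ => D * q ^ n := (summable_geometric_of_lt_one hq0.le hq1).mul_left D
  have hD0 : 0 ≤ D := by positivity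
  obtain ⟨s, hs⟩ : ∃ s : ℕ, ∑' n, D * q ^ (n + s) < 1 / 2 := by
    have := tendsto_sum_nat_add fun n : ℕ => D * q ^ n
    exact (this.eventually (gt_mem_nhds (by norm_num : (0 : ℝ) < 1 / 2))).exists
  have hg : ∀ w' : Euc k, ‖w'‖ = 1 → ∀ K, ∑ n ∈ Finset.range K, nrm k μ (Lb k c s w') n ≤ 1 / 2 := by
    intro w' hw' K
    refine (Finset.sum_le_sum fun n _ => hCb2 w' hw' s n).trans ?_
    rw [← Finset.sum_filter]
    have hsub : (Finset.range K).filter (fun n => s ≤ n) ⊆ Finset.Ico s (s + K) := by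
      intro n hn
      rw [Finset.mem_filter, Finset.mem_range] at hn
      rw [Finset.mem_Ico]; omega
    refine (Finset.sum_le_sum_of_subset_of_nonneg hsub fun i _ _ => by positivity).trans ?_
    rw [Finset.sum_Ico_eq_sum_range]
    have e : ∀ i, s + i = i + s := fun i => add_comm _ _
    simp only [e, Nat.add_sub_cancel]
    have hsum' : Summable fun n : ℕ => D * q ^ (n + s) := (summable_nat_add_iff s).2 hsum
    exact (hsum'.sum_le_tsum _ fun i _ => by positivity).trans hs.le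
  -- the walk confined in all coordinates
  obtain ⟨N, hN⟩ := confined_short (k := k) hc0 s
  set L : List (Euc k) := List.ofFn fun i : Fin (k + 1) => EuclideanSpace.single i (1 : ℝ) with hL
  have hLn : ∀ w' ∈ L, ‖w'‖ = 1 := by
    intro w' hw'
    rw [hL, List.mem_ofFn'] at hw'
    obtain ⟨i, rfl⟩ := hw'
    simp
  have hbase : Bdd (nrm k μ (ConfL k c s L)) := by
    refine ⟨∑ n ∈ Finset.range N, nrm k μ (ConfL k c s L) n, fun K => ?_⟩
    have hz : ∀ n ≥ N, nrm k μ (ConfL k c s L) n = 0 := by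
      intro n hn
      have : ConfL k c s L n = ∅ := by
        rw [Set.eq_empty_iff_forall_notMem]
        intro ω hω
        refine hN n hn ω ((hered_ConfL c s L).sa n hω) fun i => ?_
        exact osc_of_ConfL hω _ (by rw [hL, List.mem_ofFn']; exact ⟨i, rfl⟩)
      unfold nrm
      rw [this]; simp
    calc ∑ n ∈ Finset.range K, nrm k μ (ConfL k c s L) n
        ≤ ∑ n ∈ Finset.range (N + K), nrm k μ (ConfL k c s L) n :=
          Finset.sum_le_sum_of_subset_of_nonneg (Finset.range_mono (by omega))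
            fun i _ _ => nrm_nonneg hμ0 _ _
      _ = ∑ n ∈ Finset.range N, nrm k μ (ConfL k c s L) n := by
          rw [Finset.sum_range_add]
          have : ∑ x ∈ Finset.range K, nrm k μ (ConfL k c s L) (N + x) = 0 :=
            Finset.sum_eq_zero fun x _ => hz _ (by omega)
          rw [this, add_zero]
  obtain ⟨C, hC⟩ := bdd_SA_of_ConfL hμ0 s hg L hLn hbase
  obtain ⟨K, hK⟩ := exists_nat_gt C
  have h1 : (K : ℝ) ≤ ∑ n ∈ Finset.range K, nrm k μ (SA k c) n := by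
    have : (K : ℝ) = ∑ _n ∈ Finset.range K, (1 : ℝ) := by simp
    rw [this]
    refine Finset.sum_le_sum fun n _ => ?_
    unfold nrm
    rw [le_div_iff₀ (pow_pos hμ0 n), one_mul]
    exact hμ n
  have := hC K
  linarith

end Pool.Agent.HypSAW98
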