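import Pool.Agent.HypSAW98.Hyp

/-!
# Geometry of the half-space and of the chain
-/

open MeasureTheory Set
open scoped RealInnerProductSpace

namespace Pool.Agent.HypSAW98

variable {k : ℕ}

lemma cosh_hdist (x y : HSp k) :
    Real.cosh (hdist x y) = 1 + (‖x.a - y.a‖ ^ 2 + (x.t - y.t) ^ 2) / (2 * (x.t * y.t)) := by
  have hx := x.pos
  have hy := y.pos
  have hxy : 0 < x.t * y.t := mul_pos hx hy
  unfold hdist
  rw [Real.cosh_two_mul, Real.cosh_sq, Real.sinh_arsinh, div_pow, mul_pow,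
    Real.sq_sqrt (by positivity), Real.sq_sqrt hxy.le]
  field_simp
  ring

theorem hdist_nonneg (x y : HSp k) : 0 ≤ hdist x y := by
  unfold hdist
  have : 0 ≤ √(‖x.a - y.a‖ ^ 2 + (x.t - y.t) ^ 2) / (2 * √(x.t * y.t)) := by positivity
  have := Real.arsinh_nonneg_iff.2 this
  linarith

lemma hdist_eq_abs_of_cosh {x y : HSp k} {d : ℝ} (h : Real.cosh (hdist x y) = Real.cosh d) :
    hdist x y = |d| := by
  have h1 : |hdist x y| ≤ |d| := Real.cosh_le_cosh.1 h.le
  have h2 : |d| ≤ |hdist x y| := Real.cosh_le_cosh.1 h.ge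
  rw [abs_of_nonneg (hdist_nonneg x y)] at h1 h2
  exact le_antisymm h1 h2

lemma norm_hor_sq (u : Sph k) : ‖hor (u : Euc k)‖ ^ 2 = 1 - ver (u : Euc k) ^ 2 := by
  have h1 : ‖(u : Euc k)‖ ^ 2 = 1 := by rw [norm_step]; norm_num
  rw [EuclideanSpace.norm_sq_eq, Fin.sum_univ_castSucc] at h1
  rw [EuclideanSpace.norm_sq_eq]
  simp only [hor, ver, Real.norm_eq_abs, sq_abs] at *
  linarith

theorem hdist_expPt (x : HSp k) (u : Sph k) (r s : ℝ) :
    hdist (expPt x r u) (expPt x s u) = |r - s| := by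
  apply hdist_eq_abs_of_cosh
  rw [cosh_hdist, Real.cosh_sub]
  have hr := den_pos r u
  have hs := den_pos s u
  have ht := x.pos
  have hn := norm_hor_sq u
  have e1 : (expPt x r u).a - (expPt x s u).a =
      (x.t * Real.sinh r / den r u - x.t * Real.sinh s / den s u) • hor (u : Euc k) := by
    simp only [expPt, sub_smul]; abel
  have e2 : (expPt x r u).t = x.t / den r u := rfl
  have e3 : (expPt x s u).t = x.t / den s u := rfl
  rw [e1, e2, e3, norm_smul, mul_pow, hn, Real.norm_eq_abs, sq_abs]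
  have hcr := Real.cosh_sq r
  have hcs := Real.cosh_sq s
  have key : (Real.sinh r * den s u - Real.sinh s * den r u) ^ 2 * (1 - ver (u : Euc k) ^ 2) +
      (den s u - den r u) ^ 2 =
      2 * (den r u * den s u) * (Real.cosh r * Real.cosh s - Real.sinh r * Real.sinh s - 1) := by
    unfold den
    generalize Real.cosh r = cr at *
    generalize Real.cosh s = cs at *
    generalize Real.sinh r = sr at *
    generalize Real.sinh s = ss at *
    generalize ver (u : Euc k) = v at *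
    linear_combination (ss ^ 2 - ss ^ 2 * v ^ 2 + 1 - 2 * cs ^ 2 + 2 * cs * ss * v) * hcr +
      (-sr ^ 2 - sr ^ 2 * v ^ 2 - 1 + 2 * cr * sr * v) * hcs
  have h2 : (x.t * Real.sinh r / den r u - x.t * Real.sinh s / den s u) ^ 2 *
      (1 - ver (u : Euc k) ^ 2) + (x.t / den r u - x.t / den s u) ^ 2 =
      (x.t / (den r u * den s u)) ^ 2 *
      ((Real.sinh r * den s u - Real.sinh s * den r u) ^ 2 * (1 - ver (u : Euc k) ^ 2) +
      (den s u - den r u) ^ 2) := by
    field_simp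
  rw [h2, key]
  field_simp
  ring

theorem hdist_self (x : HSp k) : hdist x x = 0 := by
  simp [hdist]

theorem hdist_comm (x y : HSp k) : hdist x y = hdist y x := by
  unfold hdist
  rw [norm_sub_rev, mul_comm x.t y.t, show (x.t - y.t) ^ 2 = (y.t - x.t) ^ 2 by ring]

lemma uhp_dist (a b s t : ℝ) (hs : 0 < s) (ht : 0 < t) :
    dist (⟨⟨a, s⟩, hs⟩ : UpperHalfPlane) ⟨⟨b, t⟩, ht⟩ =
      2 * Real.arsinh (√((a - b) ^ 2 + (s - t) ^ 2) / (2 * √(s * t))) := by
  rw [UpperHalfPlane.dist_eq]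
  congr 3
  rw [Complex.dist_eq, Complex.norm_def, Complex.normSq_apply]
  congr 1
  simp
  ring

theorem hdist_triangle (x y z : HSp k) : hdist x z ≤ hdist x y + hdist y z := by
  have h := dist_triangle (⟨⟨-‖x.a - y.a‖, x.t⟩, x.pos⟩ : UpperHalfPlane) ⟨⟨0, y.t⟩, y.pos⟩
    ⟨⟨‖y.a - z.a‖, z.t⟩, z.pos⟩
  rw [uhp_dist, uhp_dist, uhp_dist] at h
  unfold hdist
  have e1 : (-‖x.a - y.a‖ - 0) ^ 2 = ‖x.a - y.a‖ ^ 2 := by ring
  have e2 : (0 - ‖y.a - z.a‖) ^ 2 = ‖y.a - z.a‖ ^ 2 := by ring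
  rw [e1, e2] at h
  refine le_trans ?_ h
  have h3 : ‖x.a - z.a‖ ≤ ‖x.a - y.a‖ + ‖y.a - z.a‖ := norm_sub_le_norm_sub_add_norm_sub _ _ _
  have h4 : ‖x.a - z.a‖ ^ 2 ≤ (-‖x.a - y.a‖ - ‖y.a - z.a‖) ^ 2 := by
    rw [show (-‖x.a - y.a‖ - ‖y.a - z.a‖) ^ 2 = (‖x.a - y.a‖ + ‖y.a - z.a‖) ^ 2 by ring]
    gcongr
  gcongr 2 * ?_
  apply Real.arsinh_le_arsinh.2
  gcongr

/-- The affine map `x ↦ p · x`, an isometry. -/
noncomputable def act (p x : HSp k) : HSp k := ⟨p.a + p.t • x.a, p.t * x.t, mul_pos p.pos x.pos⟩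

lemma hdist_act (p x y : HSp k) : hdist (act p x) (act p y) = hdist x y := by
  have hp := p.pos
  unfold hdist act
  simp only
  have e1 : p.a + p.t • x.a - (p.a + p.t • y.a) = p.t • (x.a - y.a) := by
    rw [smul_sub]; abel
  have e2 : ‖p.a + p.t • x.a - (p.a + p.t • y.a)‖ ^ 2 + (p.t * x.t - p.t * y.t) ^ 2 =
      p.t ^ 2 * (‖x.a - y.a‖ ^ 2 + (x.t - y.t) ^ 2) := by
    rw [e1, norm_smul, Real.norm_eq_abs, mul_pow, sq_abs]; ring
  have e3 : p.t * x.t * (p.t * y.t) = p.t ^ 2 * (x.t * y.t) := by ring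
  rw [e2, e3, Real.sqrt_mul (by positivity), Real.sqrt_mul (by positivity), Real.sqrt_sq hp.le]
  congr 2
  rw [show 2 * (p.t * √(x.t * y.t)) = p.t * (2 * √(x.t * y.t)) by ring, mul_div_mul_left _ _ hp.ne']

lemma expPt_act (p x : HSp k) (ε : ℝ) (u : Sph k) :
    expPt (act p x) ε u = act p (expPt x ε u) := by
  unfold expPt act
  ext i
  · simp only [PiLp.add_apply, PiLp.smul_apply, smul_eq_mul]
    ring
  · simp only
    ring

lemma act_one (x : HSp k) : act (⟨0, 1, one_pos⟩ : HSp k) x = x := by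
  unfold act
  ext i <;> simp

lemma act_self_one (x : HSp k) : act x (⟨0, 1, one_pos⟩ : HSp k) = x := by
  unfold act
  ext i <;> simp

lemma chain_add (ε : ℝ) (ω : ℕ → Sph k) (l i : ℕ) :
    chain ε ω (l + i) = act (chain ε ω l) (chain ε (shift l ω) i) := by
  induction i with
  | zero => simp only [add_zero, chain, act_self_one]
  | succ i ih =>
    rw [← add_assoc]
    simp only [chain]
    rw [ih, expPt_act]
    rfl

theorem hdist_chain_shift (ε : ℝ) (ω : ℕ → Sph k) (l i j : ℕ) :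
    hdist (chain ε ω (l + i)) (chain ε ω (l + j)) =
      hdist (chain ε (shift l ω) i) (chain ε (shift l ω) j) := by
  rw [chain_add, chain_add, hdist_act]

theorem chain_t_shift (ε : ℝ) (ω : ℕ → Sph k) (l n : ℕ) :
    (chain ε ω (l + n)).t = (chain ε ω l).t * (chain ε (shift l ω) n).t := by
  rw [chain_add]; rfl

theorem abs_log_le_hdist (x y : HSp k) : |Real.log x.t - Real.log y.t| ≤ hdist x y := by
  have hx := x.pos
  have hy := y.pos
  rw [← abs_of_nonneg (hdist_nonneg x y), ← Real.cosh_le_cosh, cosh_hdist, Real.cosh_eq,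
    neg_sub, Real.exp_sub, Real.exp_sub, Real.exp_log hx, Real.exp_log hy]
  have : (x.t / y.t + y.t / x.t) / 2 = 1 + (x.t - y.t) ^ 2 / (2 * (x.t * y.t)) := by
    field_simp; ring
  rw [this]
  gcongr
  nlinarith [sq_nonneg ‖x.a - y.a‖]

lemma measurable_ver : Measurable fun u : Euc k => ver u := by
  unfold ver; fun_prop

lemma measurable_hor : Measurable fun u : Euc k => hor u := by
  unfold hor
  apply (PiLp.continuous_toLp 2 _).measurable.comp
  fun_prop

lemma measurable_den (ε : ℝ) : Measurable fun u : Sph k => den ε u := by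
  unfold den
  have := (measurable_ver (k := k)).comp (measurable_subtype_coe (p := (· ∈ Metric.sphere (0 : Euc k) 1)))
  exact measurable_const.sub (this.const_mul _)

lemma measurable_chain (ε : ℝ) (n : ℕ) :
    (Measurable fun ω : ℕ → Sph k => (chain ε ω n).a) ∧
      Measurable fun ω : ℕ → Sph k => (chain ε ω n).t := by
  induction n with
  | zero => exact ⟨measurable_const, measurable_const⟩
  | succ n ih =>
    obtain ⟨iha, iht⟩ := ih
    have hd : Measurable fun ω : ℕ → Sph k => den ε (ω n) :=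
      (measurable_den ε).comp (measurable_pi_apply n)
    have hh : Measurable fun ω : ℕ → Sph k => hor ((ω n : Sph k) : Euc k) :=
      measurable_hor.comp (measurable_subtype_coe.comp (measurable_pi_apply n))
    refine ⟨?_, ?_⟩
    · simp only [chain, expPt]
      exact iha.add (((iht.mul_const _).div hd).smul hh)
    · simp only [chain, expPt]
      exact iht.div hd

theorem measurable_hdist_chain (ε : ℝ) (i j : ℕ) :
    Measurable fun ω : ℕ → Sph k => hdist (chain ε ω i) (chain ε ω j) := by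
  unfold hdist
  obtain ⟨ai, ti⟩ := measurable_chain (k := k) ε i
  obtain ⟨aj, tj⟩ := measurable_chain (k := k) ε j
  have h1 : Measurable fun ω : ℕ → Sph k => ‖(chain ε ω i).a - (chain ε ω j).a‖ :=
    (ai.sub aj).norm
  exact (Real.continuous_arsinh.measurable.comp ((((h1.pow_const 2).add ((ti.sub tj).pow_const 2)).sqrt).div
    ((ti.mul tj).sqrt.const_mul 2))).const_mul 2

theorem measurable_chain_t (ε : ℝ) (n : ℕ) :
    Measurable fun ω : ℕ → Sph k => (chain ε ω n).t := (measurable_chain ε n).2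

theorem chain_congr (ε : ℝ) {ω ω' : ℕ → Sph k} {n : ℕ} (h : ∀ i < n, ω i = ω' i) :
    chain ε ω n = chain ε ω' n := by
  induction n with
  | zero => rfl
  | succ n ih =>
    simp only [chain]
    rw [ih fun i hi => h i (hi.trans n.lt_succ_self), h n n.lt_succ_self]

end Pool.Agent.HypSAW98
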