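import Pool.Agent.HypSAW98.Hyp

/-!
# The rotation gain for coarse pieces
-/

open MeasureTheory Set Filter Topology
open scoped RealInnerProductSpace

namespace Pool.Agent.HypSAW98

variable {k : ℕ}

section sandwich

variable {c : ℝ} {e : Euc k} {R b : ℕ} {ω : ℕ → Sph k}

lemma S_add3 (ω : ℕ → Sph k) (R b i : ℕ) :
    S ω (R + b + i) = S ω R + S (shift R ω) b + S (shift (R + b) ω) i := by
  rw [S_add, S_add]

/-- A piece between two straight parts is self-avoiding. -/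
lemma SA_sandwich (hc0 : 0 ≤ c) (hc : c < 1) (he : ‖e‖ = 1)
    (h1 : ω ∈ Caps e (ap c) R) (h2 : shift R ω ∈ SA k c b)
    (h3 : ∀ j ≤ b, 0 ≤ ⟪e, S (shift R ω) j⟫ ∧ ⟪e, S (shift R ω) j⟫ ≤ ⟪e, S (shift R ω) b⟫)
    (h4 : shift (R + b) ω ∈ Caps e (ap c) R) : ω ∈ SA k c (R + b + R) := by
  have hee : ‖e - e‖ ≤ ap c := by simpa using (ap_pos hc).le
  have hsp := sp_gt hc
  have hsp0 : 0 < sp c := by linarith
  have hA := fun i j (hij : i ≤ j) (hj : j ≤ R) => caps_forward hc0 hc he hee h1 hij hj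
  have hB := fun i j (hij : i ≤ j) (hj : j ≤ R) => caps_forward hc0 hc he hee h4 hij hj
  intro i j hij hj
  rcases le_or_gt j R with hjR | hjR
  · exact Caps_subset_SA hc0 hc he R h1 i j hij hjR
  rcases le_or_gt (R + b) i with hib | hib
  · obtain ⟨i', rfl⟩ := Nat.exists_eq_add_of_le hib
    obtain ⟨j', rfl⟩ := Nat.exists_eq_add_of_le (hib.trans hij.le)
    have := Caps_subset_SA hc0 hc he R h4 i' j' (by omega) (by omega)
    rw [S_add3, S_add3]
    simpa using this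
  by_cases hmid : R ≤ i ∧ j ≤ R + b
  · obtain ⟨i', rfl⟩ := Nat.exists_eq_add_of_le hmid.1
    obtain ⟨j', rfl⟩ := Nat.exists_eq_add_of_le hjR.le
    have := h2 i' j' (by omega) (by omega)
    rw [S_add, S_add]
    simpa using this
  -- now use heights in direction `e`
  have key : sp c ≤ ⟪e, S ω j - S ω i⟫ := by
    rcases le_or_gt R i with hRi | hRi
    · have hjb : R + b < j := by
        by_contra h
        exact hmid ⟨hRi, by omega⟩
      obtain ⟨i', rfl⟩ := Nat.exists_eq_add_of_le hRi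
      obtain ⟨j', rfl⟩ := Nat.exists_eq_add_of_le hjb.le
      rw [S_add3, S_add]
      have e1 := (h3 i' (by omega)).2
      have e2 := hB 0 j' (Nat.zero_le _) (by omega)
      rw [S_zero, sub_zero, Nat.cast_zero, sub_zero] at e2
      have e3 : (1 : ℝ) ≤ j' := by
        have : 1 ≤ j' := by omega
        exact_mod_cast this
      have e4 : S ω R + S (shift R ω) b + S (shift (R + b) ω) j' - (S ω R + S (shift R ω) i') =
        (S (shift R ω) b - S (shift R ω) i') + S (shift (R + b) ω) j' := by abel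
      rw [e4, inner_add_right, inner_sub_right]
      nlinarith
    · have e5 := hA i R hRi.le le_rfl
      have e6 : (1 : ℝ) ≤ (R : ℝ) - i := by
        have : (i : ℝ) + 1 ≤ R := by exact_mod_cast hRi
        linarith
      rcases le_or_gt j (R + b) with hjb | hjb
      · obtain ⟨j', rfl⟩ := Nat.exists_eq_add_of_le hjR.le
        rw [S_add]
        have e1 := (h3 j' (by omega)).1
        have e4 : S ω R + S (shift R ω) j' - S ω i = (S ω R - S ω i) + S (shift R ω) j' := by abel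
        rw [e4, inner_add_right]
        nlinarith
      · obtain ⟨j', rfl⟩ := Nat.exists_eq_add_of_le hjb.le
        rw [S_add3]
        have e1 := (h3 b le_rfl).1
        have e2 := hB 0 j' (Nat.zero_le _) (by omega)
        rw [S_zero, sub_zero, Nat.cast_zero, sub_zero] at e2
        have e3 : (0 : ℝ) ≤ j' := Nat.cast_nonneg _
        have e4 : S ω R + S (shift R ω) b + S (shift (R + b) ω) j' - S ω i =
          (S ω R - S ω i) + S (shift R ω) b + S (shift (R + b) ω) j' := by abel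
        rw [e4, inner_add_right, inner_add_right]
        nlinarith
  have h5 := real_inner_le_norm e (S ω j - S ω i)
  rw [he, one_mul] at h5
  linarith

/-- A piece between two straight parts is a bridge. -/
lemma Br_sandwich (hc0 : 0 ≤ c) (hc : c < 1) (he : ‖e‖ = 1) {w : Euc k} (hw : ‖w‖ = 1)
    (hwe : ‖w - e‖ ≤ ap c) {K' : ℝ} (hR : K' + 1 + c ≤ R * sp c) (hK' : 0 ≤ K')
    (h1 : ω ∈ Caps e (ap c) R) (h2 : shift R ω ∈ SA k c b)
    (h3 : ∀ j ≤ b, 0 ≤ ⟪e, S (shift R ω) j⟫ ∧ ⟪e, S (shift R ω) j⟫ ≤ ⟪e, S (shift R ω) b⟫)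
    (h4 : shift (R + b) ω ∈ Caps e (ap c) R)
    (h5 : ∀ j ≤ b, -K' ≤ ⟪w, S (shift R ω) j⟫ ∧ -K' ≤ ⟪w, S (shift R ω) b - S (shift R ω) j⟫) :
    ω ∈ Br k c w (R + b + R) := by
  have hsp := sp_gt hc
  have hsp0 : 0 < sp c := by linarith
  have hA := fun i j (hij : i ≤ j) (hj : j ≤ R) => caps_forward hc0 hc hw hwe h1 hij hj
  have hB := fun i j (hij : i ≤ j) (hj : j ≤ R) => caps_forward hc0 hc hw hwe h4 hij hj
  have hA0 := hA 0 R (Nat.zero_le _) le_rfl
  have hB0 := hB 0 R (Nat.zero_le _) le_rfl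
  rw [S_zero, sub_zero, Nat.cast_zero, sub_zero] at hA0 hB0
  refine ⟨SA_sandwich hc0 hc he h1 h2 h3 h4, ?_, ?_⟩
  · intro j hj1 hj
    rcases le_or_gt j R with hjR | hjR
    · have e1 := hA 0 j (Nat.zero_le _) hjR
      rw [S_zero, sub_zero, Nat.cast_zero, sub_zero] at e1
      have e2 : (1 : ℝ) ≤ j := by exact_mod_cast hj1
      nlinarith
    rcases le_or_gt j (R + b) with hjb | hjb
    · obtain ⟨j', rfl⟩ := Nat.exists_eq_add_of_le hjR.le
      rw [S_add, inner_add_right]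
      have e1 := (h5 j' (by omega)).1
      nlinarith
    · obtain ⟨j', rfl⟩ := Nat.exists_eq_add_of_le hjb.le
      rw [S_add3, inner_add_right, inner_add_right]
      have e1 := (h5 b le_rfl).1
      have e2 := hB 0 j' (Nat.zero_le _) (by omega)
      rw [S_zero, sub_zero, Nat.cast_zero, sub_zero] at e2
      have e3 : (0 : ℝ) ≤ j' := Nat.cast_nonneg _
      nlinarith
  · intro j hj
    have key : 0 < ⟪w, S ω (R + b + R) - S ω j⟫ := by
      rcases le_or_gt (R + b) j with hjb | hjb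
      · obtain ⟨j', rfl⟩ := Nat.exists_eq_add_of_le hjb
        rw [S_add3, S_add3]
        have e1 := hB j' R (by omega) le_rfl
        have e2 : (1 : ℝ) ≤ (R : ℝ) - j' := by
          have : (j' : ℝ) + 1 ≤ R := by
            have : j' + 1 ≤ R := by omega
            exact_mod_cast this
          linarith
        have e4 : S ω R + S (shift R ω) b + S (shift (R + b) ω) R -
          (S ω R + S (shift R ω) b + S (shift (R + b) ω) j') =
          S (shift (R + b) ω) R - S (shift (R + b) ω) j' := by abel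
        rw [e4]
        nlinarith
      rcases le_or_gt R j with hRj | hRj
      · obtain ⟨j', rfl⟩ := Nat.exists_eq_add_of_le hRj
        rw [S_add3, S_add]
        have e1 := (h5 j' (by omega)).2
        have e4 : S ω R + S (shift R ω) b + S (shift (R + b) ω) R - (S ω R + S (shift R ω) j') =
          (S (shift R ω) b - S (shift R ω) j') + S (shift (R + b) ω) R := by abel
        rw [e4, inner_add_right]
        nlinarith
      · rw [S_add3]
        have e1 := (h5 0 (Nat.zero_le _)).2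
        rw [S_zero, sub_zero] at e1
        have e2 := hA j R hRj.le le_rfl
        have e3 : (0 : ℝ) ≤ (R : ℝ) - j := by
          have : (j : ℝ) ≤ R := by exact_mod_cast hRj.le
          linarith
        have e4 : S ω R + S (shift R ω) b + S (shift (R + b) ω) R - S ω j =
          (S ω R - S ω j) + S (shift R ω) b + S (shift (R + b) ω) R := by abel
        rw [e4, inner_add_right, inner_add_right]
        nlinarith
    rw [inner_sub_right] at key
    linarith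

end sandwich

/-- Middle parts of coarse pieces. -/
def Qs (c : ℝ) (e : Euc k) (W : Finset (Euc k)) (K' : ℝ) (b : ℕ) : Set (ℕ → Sph k) :=
  {ω | ω ∈ SA k c b ∧ (∀ j ≤ b, 0 ≤ ⟪e, S ω j⟫ ∧ ⟪e, S ω j⟫ ≤ ⟪e, S ω b⟫) ∧
    ∀ w ∈ W, ∀ j ≤ b, -K' ≤ ⟪w, S ω j⟫ ∧ -K' ≤ ⟪w, S ω b - S ω j⟫}

lemma measurableSet_Qs (c : ℝ) (e : Euc k) (W : Finset (Euc k)) (K' : ℝ) (b : ℕ) :
    MeasurableSet (Qs c e W K' b) := by
  have : Qs c e W K' b = SA k c b ∩ ((⋂ (j : ℕ) (_ : j ≤ b),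
      ({ω | 0 ≤ ⟪e, S ω j⟫} ∩ {ω | ⟪e, S ω j⟫ ≤ ⟪e, S ω b⟫})) ∩
      ⋂ w ∈ W, ⋂ (j : ℕ) (_ : j ≤ b), ({ω | -K' ≤ ⟪w, S ω j⟫} ∩
        {ω | -K' ≤ ⟪w, S ω b - S ω j⟫})) := by
    ext ω; simp only [Qs, Set.mem_ofPred_eq, Set.mem_inter_iff, Set.mem_iInter]
  rw [this]
  refine (measurableSet_SA c b).inter (MeasurableSet.inter ?_ ?_)
  · exact MeasurableSet.iInter fun j => MeasurableSet.iInter fun _ =>
      (measurableSet_le measurable_const (measurable_inner_S e j)).inter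
        (measurableSet_le (measurable_inner_S e j) (measurable_inner_S e b))
  · refine Finset.measurableSet_biInter _ fun w _ => MeasurableSet.iInter fun j =>
      MeasurableSet.iInter fun _ => ?_
    exact (measurableSet_le measurable_const (measurable_inner_S w j)).inter
      (measurableSet_le measurable_const
        (measurable_const.inner ((measurable_S b).sub (measurable_S j))))

lemma dep_Qs (c : ℝ) (e : Euc k) (W : Finset (Euc k)) (K' : ℝ) (b : ℕ) :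
    Dep b (Qs c e W K' b) := by
  refine dep_of_S (fun f => (∀ i j, i < j → j ≤ b → c < ‖f j - f i‖) ∧
    (∀ j ≤ b, 0 ≤ ⟪e, f j⟫ ∧ ⟪e, f j⟫ ≤ ⟪e, f b⟫) ∧
    ∀ w ∈ W, ∀ j ≤ b, -K' ≤ ⟪w, f j⟫ ∧ -K' ≤ ⟪w, f b - f j⟫) ?_ (fun ω => Iff.rfl)
  rintro f g hfg ⟨h1, h2, h3⟩
  refine ⟨fun i j hij hj => ?_, fun j hj => ?_, fun w hw j hj => ?_⟩
  · rw [← hfg j hj, ← hfg i (by omega)]; exact h1 i j hij hj
  · rw [← hfg j hj, ← hfg b le_rfl]; exact h2 j hj
  · rw [← hfg j hj, ← hfg b le_rfl]; exact h3 w hw j hj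

/-- the end point is in a (thickened) cone -/
def Cn (e : Euc k) (θ E h : ℝ) (b : ℕ) : Set (ℕ → Sph k) :=
  {ω | ‖S ω b - ⟪e, S ω b⟫ • e‖ ≤ θ * ⟪e, S ω b⟫ + E ∧ h ≤ ⟪e, S ω b⟫}

lemma measurableSet_Cn (e : Euc k) (θ E h : ℝ) (b : ℕ) : MeasurableSet (Cn e θ E h b) := by
  have : Cn e θ E h b = {ω | ‖S ω b - ⟪e, S ω b⟫ • e‖ ≤ θ * ⟪e, S ω b⟫ + E} ∩
      {ω | h ≤ ⟪e, S ω b⟫} := rfl
  rw [this]
  refine MeasurableSet.inter ?_ (measurableSet_le measurable_const (measurable_inner_S e b))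
  refine measurableSet_le ?_ ?_
  · exact ((measurable_S b).sub ((measurable_inner_S e b).smul_const e)).norm
  · exact ((measurable_inner_S e b).const_mul θ).add_const E

lemma dep_Cn (e : Euc k) (θ E h : ℝ) (b : ℕ) : Dep b (Cn e θ E h b) := by
  refine dep_of_S (fun f => ‖f b - ⟪e, f b⟫ • e‖ ≤ θ * ⟪e, f b⟫ + E ∧ h ≤ ⟪e, f b⟫) ?_
    (fun ω => Iff.rfl)
  rintro f g hfg h1
  rw [← hfg b le_rfl]; exact h1

/-- Cones are stable under bounded perturbations. -/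
lemma cone_perturb {e : Euc k} (he : ‖e‖ = 1) {θ E h D : ℝ} (hθ : 0 ≤ θ) {X Y : Euc k}
    (hXY : ‖Y - X‖ ≤ D) (h1 : ‖X - ⟪e, X⟫ • e‖ ≤ θ * ⟪e, X⟫ + E) (h2 : h ≤ ⟪e, X⟫) :
    ‖Y - ⟪e, Y⟫ • e‖ ≤ θ * ⟪e, Y⟫ + (E + (1 + θ) * D) ∧ h - D ≤ ⟪e, Y⟫ := by
  have h3 : |⟪e, Y - X⟫| ≤ D := by
    refine (abs_real_inner_le_norm e (Y - X)).trans ?_
    rw [he, one_mul]; exact hXY
  rw [inner_sub_right] at h3
  have h4 := abs_le.1 h3
  have h5 : ‖(Y - X) - ⟪e, Y - X⟫ • e‖ ≤ ‖Y - X‖ := by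
    have h6 : ‖(Y - X) - ⟪e, Y - X⟫ • e‖ ^ 2 = ‖Y - X‖ ^ 2 - ⟪e, Y - X⟫ ^ 2 := by
      rw [norm_sub_sq_real, inner_smul_right, norm_smul, he, mul_one, real_inner_comm,
        Real.norm_eq_abs, sq_abs]
      ring
    have h7 : ‖(Y - X) - ⟪e, Y - X⟫ • e‖ ^ 2 ≤ ‖Y - X‖ ^ 2 := by
      rw [h6]; nlinarith [sq_nonneg ⟪e, Y - X⟫]
    exact le_of_sq_le_sq h7 (norm_nonneg _) 
  have h8 : Y - ⟪e, Y⟫ • e = (X - ⟪e, X⟫ • e) + ((Y - X) - ⟪e, Y - X⟫ • e) := by
    rw [inner_sub_right, sub_smul]; abel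
  refine ⟨?_, by linarith⟩
  rw [h8]
  refine (norm_add_le _ _).trans ?_
  nlinarith

/-- Coarse pieces contain middle parts. -/
lemma Pc_middle {c : ℝ} {e : Euc k} {W : Finset (Euc k)} (hW : ∀ w ∈ W, ‖w‖ = 1) {K : ℝ}
    {C l : ℕ} (hl : 2 * C ≤ l) {ω : ℕ → Sph k} (hω : ω ∈ Pc c e W K C l) :
    ∃ τ < C, ∃ u < C, shift τ ω ∈ Qs c e W (|K| + C) (l - u - τ) ∧
      ‖S (shift τ ω) (l - u - τ) - S ω l‖ ≤ 2 * C := by
  obtain ⟨h1, h2, h3, h4⟩ := hω
  obtain ⟨τ, hτ, hτmin⟩ := Finset.exists_min_image (Finset.range (l + 1))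
    (fun j => ⟪e, S ω j⟫) ⟨0, by simp⟩
  obtain ⟨τ', hτ', hτmax⟩ := Finset.exists_max_image (Finset.range (l + 1))
    (fun j => ⟪e, S ω j⟫) ⟨0, by simp⟩
  rw [Finset.mem_range] at hτ hτ'
  have hτC : τ < C := by
    by_contra h
    push Not at h
    have e1 := h3 τ (by omega) h
    have e2 := hτmin 0 (by simp)
    rw [S_zero, inner_zero_right] at e2
    linarith
  have hτC' : l < τ' + C := by
    by_contra h
    push Not at h
    have e1 := h4 τ' h
    have e2 := hτmax l (by simp)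
    linarith
  obtain ⟨u, hu⟩ : ∃ u, u = l - τ' := ⟨_, rfl⟩
  have hlu : l - u = τ' := by omega
  have hS : ∀ j, S (shift τ ω) j = S ω (τ + j) - S ω τ := by
    intro j; rw [S_add]; abel
  have hSτ : ‖S ω τ‖ ≤ C := (norm_S_le ω τ).trans (by exact_mod_cast hτC.le)
  have hSτ' : ‖S ω l - S ω τ'‖ ≤ C := by
    refine (norm_S_sub_le ω (by omega)).trans ?_
    have : (l : ℝ) ≤ τ' + C := by exact_mod_cast hτC'.le
    linarith
  have hb : τ + (l - u - τ) = τ' := by omega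
  refine ⟨τ, hτC, u, by omega, ⟨?_, ?_, ?_⟩, ?_⟩
  · exact SA_shift (by omega) h1
  · intro j hj
    rw [hS, hS, hb, inner_sub_right, inner_sub_right]
    have e1 := hτmin (τ + j) (by rw [Finset.mem_range]; omega)
    have e2 := hτmax (τ + j) (by rw [Finset.mem_range]; omega)
    constructor <;> linarith
  · intro w hw j hj
    have hwn := hW w hw
    have e1 := h2 w hw (τ + j) (by omega)
    have e2 := real_inner_le_norm w (S ω τ)
    have e3 := real_inner_le_norm w (S ω l - S ω τ')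
    rw [hwn, one_mul] at e2 e3
    have e4 := le_abs_self K
    rw [hS, hS, hb]
    constructor
    · rw [inner_sub_right]; linarith [e1.1]
    · have : S ω τ' - S ω τ - (S ω (τ + j) - S ω τ) =
        (S ω l - S ω (τ + j)) - (S ω l - S ω τ') := by abel
      rw [this, inner_sub_right]
      linarith [e1.2]
  · rw [hS, hb]
    have : S ω τ' - S ω τ - S ω l = -((S ω l - S ω τ') + S ω τ) := by abel
    rw [this, norm_neg]
    refine (norm_add_le _ _).trans (by linarith)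

/-- Put straight parts before and after. -/
def Sand (e : Euc k) (r : ℝ) (R b : ℕ) (X : Set (ℕ → Sph k)) : Set (ℕ → Sph k) :=
  Caps e r R ∩ shift R ⁻¹' (X ∩ shift b ⁻¹' (Caps e r R))

lemma measurableSet_Sand (e : Euc k) (r : ℝ) (R b : ℕ) {X : Set (ℕ → Sph k)}
    (hX : MeasurableSet X) : MeasurableSet (Sand e r R b X) :=
  (measurableSet_Caps e r R).inter (measurable_shift _
    (hX.inter (measurable_shift _ (measurableSet_Caps e r R))))

lemma law_Sand (e : Euc k) (r : ℝ) (R b : ℕ) {X : Set (ℕ → Sph k)} (hX : MeasurableSet X)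
    (hd : Dep b X) : (law k).real (Sand e r R b X) =
      capP e r ^ (2 * R) * (law k).real X := by
  unfold Sand
  rw [real_inter_shift (unif k) (measurableSet_Caps e r R) (dep_Caps e r R)
    (hX.inter (measurable_shift _ (measurableSet_Caps e r R))),
    real_inter_shift (unif k) hX hd (measurableSet_Caps e r R), law_Caps]
  ring

lemma shift_Sand {e : Euc k} {r : ℝ} {R b : ℕ} {X : Set (ℕ → Sph k)} {ω : ℕ → Sph k}
    (h : ω ∈ Sand e r R b X) : ω ∈ Caps e r R ∧ shift R ω ∈ X ∧ shift (R + b) ω ∈ Caps e r R := by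
  obtain ⟨h1, h2, h3⟩ := h
  refine ⟨h1, h2, ?_⟩
  have : shift (R + b) ω = shift b (shift R ω) := (shift_shift R b ω).symm
  rw [this]; exact h3

lemma cone_disjoint {w w' x : Euc k} (hw : ‖w‖ = 1) (hw' : ‖w'‖ = 1) {θ : ℝ} (hθ : 0 ≤ θ)
    (h1 : ‖x - ⟪w, x⟫ • w‖ ≤ θ * ⟪w, x⟫) (h2 : ‖x - ⟪w', x⟫ • w'‖ ≤ θ * ⟪w', x⟫)
    (h3 : 0 < ⟪w, x⟫) (h4 : 0 < ⟪w', x⟫) : ‖w - w'‖ ≤ 4 * θ := by
  have key : ∀ v : Euc k, ‖v‖ = 1 → 0 < ⟪v, x⟫ → ‖x - ⟪v, x⟫ • v‖ ≤ θ * ⟪v, x⟫ →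
      ‖x - ‖x‖ • v‖ ≤ 2 * θ * ‖x‖ := by
    intro v hv hpos hvx
    have e1 : ⟪v, x⟫ ≤ ‖x‖ := by
      have := real_inner_le_norm v x
      rwa [hv, one_mul] at this
    have e2 : ‖x‖ ≤ ⟪v, x⟫ + θ * ⟪v, x⟫ := by
      have : ‖x‖ ≤ ‖x - ⟪v, x⟫ • v‖ + ‖⟪v, x⟫ • v‖ := by
        have := norm_add_le (x - ⟪v, x⟫ • v) (⟪v, x⟫ • v)
        rwa [sub_add_cancel] at this
      rw [norm_smul, hv, mul_one, Real.norm_of_nonneg hpos.le] at this
      linarith
    have e8 : x - ‖x‖ • v = (x - ⟪v, x⟫ • v) + (⟪v, x⟫ - ‖x‖) • v := by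
      rw [sub_smul]; abel
    rw [e8]
    refine (norm_add_le _ _).trans ?_
    rw [norm_smul, hv, mul_one, Real.norm_eq_abs, abs_sub_comm, abs_of_nonneg (by linarith)]
    nlinarith
  have k1 := key w hw h3 h1
  have k2 := key w' hw' h4 h2
  have hx : 0 < ‖x‖ := by
    have := real_inner_le_norm w x
    rw [hw, one_mul] at this
    linarith
  have e1 : ‖x‖ • (w - w') = (x - ‖x‖ • w') - (x - ‖x‖ • w) := by rw [smul_sub]; abel
  have e2 : ‖x‖ * ‖w - w'‖ ≤ 4 * θ * ‖x‖ := by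
    have : ‖‖x‖ • (w - w')‖ ≤ 4 * θ * ‖x‖ := by
      rw [e1]; refine (norm_sub_le _ _).trans (by linarith)
    rwa [norm_smul, norm_norm] at this
  have := mul_comm ‖x‖ ‖w - w'‖
  nlinarith [mul_pos hx hx]

/-- Many unit vectors close to `e`. -/
lemma exists_dirs (hk : 1 ≤ k) {e : Euc k} (he : ‖e‖ = 1) {r : ℝ} (hr : 0 < r) (hr1 : r ≤ 1)
    (M : ℕ) : ∃ W : Finset (Euc k), W.card = M ∧ ∀ w ∈ W, ‖w‖ = 1 ∧ ‖w - e‖ ≤ r := by
  classical
  -- a unit vector orthogonal to `e`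
  obtain ⟨f, hf, hef⟩ : ∃ f : Euc k, ‖f‖ = 1 ∧ ⟪e, f⟫ = 0 := by
    have hne : (ℝ ∙ e : Submodule ℝ (Euc k)) ≠ ⊤ := by
      intro htop
      have h1 : Module.finrank ℝ (ℝ ∙ e : Submodule ℝ (Euc k)) = 1 :=
        finrank_span_singleton (by intro h; rw [h, norm_zero] at he; exact zero_ne_one he)
      rw [htop, finrank_top, finrank_euclideanSpace, Fintype.card_fin] at h1
      omega
    obtain ⟨v, hv⟩ : ∃ v : Euc k, v ∉ (ℝ ∙ e : Submodule ℝ (Euc k)) := by
      by_contra h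
      push Not at h
      exact hne (Submodule.eq_top_iff'.2 h)
    have hg : v - ⟪e, v⟫ • e ≠ 0 := by
      intro h
      apply hv
      rw [sub_eq_zero] at h
      rw [h]
      exact Submodule.smul_mem _ _ (Submodule.mem_span_singleton_self e)
    have hgn : ‖v - ⟪e, v⟫ • e‖ ≠ 0 := norm_ne_zero_iff.2 hg
    refine ⟨‖v - ⟪e, v⟫ • e‖⁻¹ • (v - ⟪e, v⟫ • e), ?_, ?_⟩
    · rw [norm_smul, norm_inv, norm_norm, inv_mul_cancel₀ hgn]
    · rw [inner_smul_right, inner_sub_right, inner_smul_right, real_inner_self_eq_norm_sq, he]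
      ring
  let t : ℕ → ℝ := fun i => r * (i / (M + 1))
  have ht0 : ∀ i, 0 ≤ t i := fun i => by positivity
  have htr : ∀ i < M, t i ≤ r := by
    intro i hi
    have h1 : (i : ℝ) / (M + 1) ≤ 1 := by
      rw [div_le_one (by positivity)]
      have : (i : ℝ) ≤ M := by exact_mod_cast hi.le
      linarith
    calc t i = r * (i / (M + 1)) := rfl
      _ ≤ r * 1 := by gcongr
      _ = r := mul_one r
  let g : ℕ → Euc k := fun i => Real.cos (t i) • e + Real.sin (t i) • f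
  have hinner : ∀ i, ⟪f, g i⟫ = Real.sin (t i) := by
    intro i
    simp only [g]
    rw [inner_add_right, inner_smul_right, inner_smul_right, real_inner_self_eq_norm_sq, hf,
      real_inner_comm, hef]
    ring
  have hinj : Set.InjOn g (Finset.range M : Set ℕ) := by
    intro i hi j hj hij
    simp only [Finset.coe_range, Set.mem_Iio] at hi hj
    have h1 : Real.sin (t i) = Real.sin (t j) := by rw [← hinner, ← hinner, hij]
    have hpi := Real.pi_gt_three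
    have h2 : t i = t j := by
      refine Real.injOn_sin ?_ ?_ h1
      · constructor <;> linarith [ht0 i, htr i hi]
      · constructor <;> linarith [ht0 j, htr j hj]
    have h3 : (i : ℝ) / (M + 1) = j / (M + 1) := mul_left_cancel₀ hr.ne' h2
    have h4 : (i : ℝ) = j := by
      have hM : (M : ℝ) + 1 ≠ 0 := by positivity
      field_simp at h3
      exact h3
    exact_mod_cast h4
  have hnorm : ∀ a b : ℝ, ‖a • e + b • f‖ ^ 2 = a ^ 2 + b ^ 2 := by
    intro a b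
    rw [norm_add_sq_real, norm_smul, norm_smul, he, hf, inner_smul_left, inner_smul_right, hef]
    simp
  refine ⟨(Finset.range M).image g, ?_, ?_⟩
  · rw [Finset.card_image_of_injOn hinj, Finset.card_range]
  · intro w hw
    rw [Finset.mem_image] at hw
    obtain ⟨i, hi, rfl⟩ := hw
    rw [Finset.mem_range] at hi
    constructor
    · have h1 : ‖g i‖ ^ 2 = 1 := by
        simp only [g]
        rw [hnorm, Real.cos_sq_add_sin_sq]
      have h2 : ‖g i‖ ^ 2 = 1 ^ 2 := by rw [h1]; norm_num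
      exact (pow_left_inj₀ (norm_nonneg _) zero_le_one two_ne_zero).1 h2
    · have h1 : g i - e = (Real.cos (t i) - 1) • e + Real.sin (t i) • f := by
        simp only [g]; rw [sub_smul, one_smul]; abel
      have h2 : ‖g i - e‖ ^ 2 ≤ r ^ 2 := by
        rw [h1, hnorm]
        have h3 := Real.cos_sq_add_sin_sq (t i)
        have h4 := Real.one_sub_sq_div_two_le_cos (x := t i)
        have h5 := htr i hi
        have h6 := ht0 i
        nlinarith
      exact le_of_sq_le_sq h2 hr.le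

section bounds

variable {c μ : ℝ} {e : Euc k} {W : Finset (Euc k)} {K' : ℝ} {R : ℕ}

lemma pow_le_mid (hμ : IsMu k c μ) (R b : ℕ) : μ ^ (R + b + R) ≤ μ ^ b :=
  pow_le_pow_of_le_one hμ.pos.le hμ.le_one (by omega)

/-- First bound for middle parts. -/
lemma Qs_le (hc0 : 0 < c) (hc : c < 1) (hμ : IsMu k c μ) (he : ‖e‖ = 1) (hK' : 0 ≤ K')
    (hR : K' + 1 + c ≤ R * sp c) (b : ℕ) :
    capP e (ap c) ^ (2 * R) * (law k).real (Qs c e W K' b) ≤ μ ^ b := by
  rw [← law_Sand e (ap c) R b (measurableSet_Qs c e W K' b) (dep_Qs c e W K' b)]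
  refine le_trans (measureReal_mono ?_ (measure_ne_top _ _))
    ((B_le hμ hc0.le he (R + b + R)).trans (pow_le_mid hμ R b))
  intro ω hω
  obtain ⟨h1, ⟨h2, h3, _⟩, h5⟩ := shift_Sand hω
  refine Br_sandwich hc0.le hc he he (by simpa using (ap_pos hc).le) hR hK' h1 h2 h3 h5 ?_
  intro j hj
  have := h3 j hj
  rw [inner_sub_right]
  constructor <;> linarith [this.1, this.2]

/-- The reflection exchanging `e` and `w`. -/
noncomputable def refl (e w : Euc k) : Euc k ≃ₗᵢ[ℝ] Euc k := (ℝ ∙ (e - w))ᗮ.reflection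

lemma refl_e {e w : Euc k} (he : ‖e‖ = 1) (hw : ‖w‖ = 1) : refl e w e = w :=
  Submodule.reflection_sub (he.trans hw.symm)

lemma refl_w {e w : Euc k} (he : ‖e‖ = 1) (hw : ‖w‖ = 1) : refl e w w = e := by
  have h := refl_e he hw
  have h2 : refl e w (refl e w e) = e := Submodule.reflection_reflection _ _
  rw [h] at h2; exact h2

/-- Second bound for middle parts. -/
lemma Qs_Cn_le (hc0 : 0 < c) (hc : c < 1) (hμ : IsMu k c μ) (he : ‖e‖ = 1) (hK' : 0 ≤ K')
    (hR : K' + 1 + c ≤ R * sp c) (hW : ∀ w ∈ W, ‖w‖ = 1 ∧ ‖w - e‖ ≤ ap c) {θ : ℝ} (hθ : 0 < θ)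
    (hsep : ∀ w ∈ W, ∀ w' ∈ W, w ≠ w' → 12 * θ < ‖w - w'‖) {C r : ℝ} (hC : 0 ≤ C)
    (hr : (C + 2 * R) + (1 + θ) * (C + 2 * R) / (2 * θ) + 1 ≤ r) (b : ℕ) :
    (W.card : ℝ) * (capP e (ap c) ^ (2 * R) * (law k).real
      (Qs c e W K' b ∩ Cn e θ ((1 + θ) * C) (r - C) b)) ≤ μ ^ b := by
  obtain ⟨X, hX⟩ : ∃ X, X = Qs c e W K' b ∩ Cn e θ ((1 + θ) * C) (r - C) b := ⟨_, rfl⟩
  have hXm : MeasurableSet X := by
    rw [hX]; exact (measurableSet_Qs _ _ _ _ _).inter (measurableSet_Cn _ _ _ _ _)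
  have hXd : Dep b X := by rw [hX]; exact (dep_Qs _ _ _ _ _).inter (dep_Cn _ _ _ _ _)
  rw [← hX, ← law_Sand e (ap c) R b hXm hXd]
  have hEm := measurableSet_Sand e (ap c) R b hXm
  obtain ⟨n, hn⟩ : ∃ n, n = R + b + R := ⟨_, rfl⟩
  -- facts on the elements of the event
  have hfact : ∀ z ∈ Sand e (ap c) R b X, (∀ w ∈ W, z ∈ Br k c w n) ∧
      ‖S z n - ⟪e, S z n⟫ • e‖ ≤ 3 * θ * ⟪e, S z n⟫ ∧ 0 < ⟪e, S z n⟫ := by
    intro z hz
    obtain ⟨h1, h2', h5⟩ := shift_Sand hz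
    rw [hX] at h2'
    obtain ⟨⟨h2, h3, h4⟩, h6, h7⟩ := h2'
    refine ⟨fun w hw => ?_, ?_⟩
    · rw [hn]
      exact Br_sandwich hc0.le hc he (hW w hw).1 (hW w hw).2 hR hK' h1 h2 h3 h5 (h4 w hw)
    · have hYX : ‖S z n - S (shift R z) b‖ ≤ 2 * R := by
        rw [hn, S_add3]
        have : S z R + S (shift R z) b + S (shift (R + b) z) R - S (shift R z) b =
          S z R + S (shift (R + b) z) R := by abel
        rw [this]
        refine (norm_add_le _ _).trans ?_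
        have e1 := norm_S_le z R
        have e2 := norm_S_le (shift (R + b) z) R
        linarith
      obtain ⟨e1, e2⟩ := cone_perturb he hθ.le hYX h6 h7
      obtain ⟨D, hD⟩ : ∃ D : ℝ, D = C + 2 * R := ⟨_, rfl⟩
      have hD0 : 0 ≤ D := by rw [hD]; positivity
      have e3 : (1 + θ) * D / (2 * θ) + 1 ≤ ⟪e, S z n⟫ := by
        rw [← hD] at hr
        have : r - C - 2 * R = r - D := by rw [hD]; ring
        linarith
      have e4 : (1 + θ) * D ≤ 2 * θ * ⟪e, S z n⟫ := by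
        have e5 : (1 + θ) * D / (2 * θ) ≤ ⟪e, S z n⟫ := by linarith
        rw [div_le_iff₀ (by positivity)] at e5
        linarith
      have e6 : (1 + θ) * C + (1 + θ) * (2 * R) = (1 + θ) * D := by rw [hD]; ring
      constructor
      · rw [e6] at e1; linarith
      · have : 0 ≤ (1 + θ) * D / (2 * θ) := by positivity
        linarith
  -- the rotated events
  let F : Euc k → Set (ℕ → Sph k) := fun w => rotAll (refl e w) ⁻¹' (Sand e (ap c) R b X)
  have hFm : ∀ w, MeasurableSet (F w) := fun w => measurable_rotAll _ hEm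
  have hFP : ∀ w, (law k).real (F w) = (law k).real (Sand e (ap c) R b X) :=
    fun w => law_rotAll _ hEm
  have hFB : ∀ w ∈ W, F w ⊆ Br k c e n := by
    intro w hw ω hω
    obtain ⟨h1, h2, h3⟩ := (hfact _ hω).1 w hw
    have hin : ∀ j, ⟪w, S (rotAll (refl e w) ω) j⟫ = ⟪e, S ω j⟫ := by
      intro j
      rw [S_rotAll]
      calc ⟪w, refl e w (S ω j)⟫ = ⟪refl e w e, refl e w (S ω j)⟫ := by
            rw [refl_e he (hW w hw).1]
        _ = ⟪e, S ω j⟫ := LinearIsometryEquiv.inner_map_map _ _ _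
    refine ⟨(SA_rotAll _ _ _ _).1 h1, fun j hj1 hj => ?_, fun j hj => ?_⟩
    · rw [← hin]; exact h2 j hj1 hj
    · rw [← hin, ← hin]; exact h3 j hj
  have hcone : ∀ w ∈ W, ∀ ω ∈ F w, ‖S ω n - ⟪w, S ω n⟫ • w‖ ≤ 3 * θ * ⟪w, S ω n⟫ ∧
      0 < ⟪w, S ω n⟫ := by
    intro w hw ω hω
    obtain ⟨-, h2, h3⟩ := hfact _ hω
    have hin : ⟪e, S (rotAll (refl e w) ω) n⟫ = ⟪w, S ω n⟫ := by
      rw [S_rotAll]
      calc ⟪e, refl e w (S ω n)⟫ = ⟪refl e w w, refl e w (S ω n)⟫ := by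
            rw [refl_w he (hW w hw).1]
        _ = ⟪w, S ω n⟫ := LinearIsometryEquiv.inner_map_map _ _ _
    rw [hin] at h2 h3
    refine ⟨?_, h3⟩
    have : S (rotAll (refl e w) ω) n - ⟪w, S ω n⟫ • e = refl e w (S ω n - ⟪w, S ω n⟫ • w) := by
      rw [map_sub, map_smul, refl_w he (hW w hw).1, S_rotAll]
    rw [this, LinearIsometryEquiv.norm_map] at h2
    exact h2
  have hdisj : Set.PairwiseDisjoint (W : Set (Euc k)) F := by
    intro w hw w' hw' hne
    rw [Function.onFun, Set.disjoint_left]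
    intro ω h1 h2
    obtain ⟨a1, a2⟩ := hcone w hw ω h1
    obtain ⟨b1, b2⟩ := hcone w' hw' ω h2
    have h3 := cone_disjoint (hW w hw).1 (hW w' hw').1 (by positivity) a1 b1 a2 b2
    have h4 := hsep w hw w' hw' hne
    linarith
  have hsum : (law k).real (⋃ w ∈ W, F w) = ∑ w ∈ W, (law k).real (F w) :=
    measureReal_biUnion_finset hdisj (fun w _ => hFm w)
  simp only [hFP, Finset.sum_const, nsmul_eq_mul] at hsum
  rw [← hsum]
  refine le_trans (measureReal_mono (Set.iUnion₂_subset hFB) (measure_ne_top _ _)) ?_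
  refine (B_le hμ hc0.le he n).trans ?_
  rw [hn]; exact pow_le_mid hμ R b

lemma exists_sep (W : Finset (Euc k)) :
    ∃ θ : ℝ, 0 < θ ∧ ∀ w ∈ W, ∀ w' ∈ W, w ≠ w' → 12 * θ < ‖w - w'‖ := by
  classical
  rcases ((W ×ˢ W).filter (fun p => p.1 ≠ p.2)).eq_empty_or_nonempty with h | h
  · refine ⟨1, one_pos, fun w hw w' hw' hne => ?_⟩
    have : (w, w') ∈ (W ×ˢ W).filter (fun p => p.1 ≠ p.2) := by
      simp [hw, hw', hne]
    rw [h] at this
    exact absurd this (Finset.notMem_empty _)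
  · obtain ⟨p, hp, hmin⟩ := Finset.exists_min_image _ (fun p : Euc k × Euc k => ‖p.1 - p.2‖) h
    rw [Finset.mem_filter] at hp
    have hpos : 0 < ‖p.1 - p.2‖ := norm_pos_iff.2 (sub_ne_zero.2 hp.2)
    refine ⟨‖p.1 - p.2‖ / 24, by positivity, fun w hw w' hw' hne => ?_⟩
    have := hmin (w, w') (by simp [hw, hw', hne])
    simp only at this
    linarith

/-- Union bound over the positions of the middle part. -/
lemma Pc_bound (hμ : IsMu k c μ) {A : Set (ℕ → Sph k)} {X : ℕ → Set (ℕ → Sph k)}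
    (hX : ∀ b, MeasurableSet (X b)) {C l : ℕ} (hl : 2 * C ≤ l)
    (hA : ∀ ω ∈ A, ∃ τ < C, ∃ u < C, shift τ ω ∈ X (l - u - τ)) {a B' : ℝ} (ha : 0 < a)
    (hB : 0 ≤ B')
    (hbd : ∀ b, a * (law k).real (X b) ≤ B' * μ ^ b) :
    (law k).real A ≤ ((C : ℝ) + 1) ^ 2 / (a * μ ^ (2 * C)) * B' * μ ^ l := by
  have hμ0 := hμ.pos
  have h1 : ∀ τ < C, ∀ u < C, (law k).real (shift τ ⁻¹' (X (l - u - τ))) ≤
      B' * (μ ^ l / μ ^ (2 * C)) / a := by
    intro τ hτ u hu
    rw [real_shift (unif k) τ (hX _), le_div_iff₀ ha, mul_comm]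
    refine (hbd _).trans (mul_le_mul_of_nonneg_left ?_ hB)
    have h2 : μ ^ (l - u - τ) ≤ μ ^ (l - 2 * C) :=
      pow_le_pow_of_le_one hμ0.le hμ.le_one (by omega)
    have h3 : μ ^ l = μ ^ (l - 2 * C) * μ ^ (2 * C) := by rw [← pow_add]; congr 1; omega
    rw [h3, mul_div_assoc, div_self (pow_pos hμ0 _).ne', mul_one]
    exact h2
  have h2 : A ⊆ ⋃ τ ∈ Finset.range C, ⋃ u ∈ Finset.range C, shift τ ⁻¹' (X (l - u - τ)) := by
    intro ω hω
    obtain ⟨τ, hτ, u, hu, h⟩ := hA ω hω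
    simp only [Set.mem_iUnion]
    exact ⟨τ, Finset.mem_range.2 hτ, u, Finset.mem_range.2 hu, h⟩
  have h3 : (law k).real A ≤ ∑ τ ∈ Finset.range C, ∑ u ∈ Finset.range C,
      B' * (μ ^ l / μ ^ (2 * C)) / a := by
    refine (measureReal_mono h2 (measure_ne_top _ _)).trans ?_
    refine (measureReal_biUnion_finset_le _ _).trans ?_
    refine Finset.sum_le_sum fun τ hτ => ?_
    refine (measureReal_biUnion_finset_le _ _).trans ?_
    refine Finset.sum_le_sum fun u hu => ?_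
    exact h1 τ (Finset.mem_range.1 hτ) u (Finset.mem_range.1 hu)
  rw [Finset.sum_const, Finset.sum_const, Finset.card_range, nsmul_eq_mul, nsmul_eq_mul] at h3
  refine h3.trans ?_
  have h4 : ((C : ℝ) + 1) ^ 2 / (a * μ ^ (2 * C)) * B' * μ ^ l =
      ((C : ℝ) + 1) ^ 2 * (B' * (μ ^ l / μ ^ (2 * C)) / a) := by
    field_simp
  rw [h4, ← mul_assoc]
  refine mul_le_mul_of_nonneg_right ?_ (by positivity)
  have : (0 : ℝ) ≤ C := Nat.cast_nonneg _
  nlinarith

end bounds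

/-- **The rotation gain for pieces.** -/
theorem piece_bounds (hk : 1 ≤ k) {c μ : ℝ} (hc0 : 0 < c) (hc : c < 1) (hμ : IsMu k c μ)
    {e : Euc k} (he : ‖e‖ = 1) (K : ℝ) (C : ℕ) :
    ∃ C₃ : ℝ, 1 ≤ C₃ ∧ ∀ M : ℕ, 1 ≤ M → ∃ W : Finset (Euc k),
      (∀ w ∈ W, ‖w‖ = 1 ∧ ‖w - e‖ ≤ ap c) ∧ ∃ θ > 0, ∃ r : ℝ, ∀ l : ℕ, 2 * C ≤ l →
        (law k).real (Pc c e W K C l) ≤ C₃ * μ ^ l ∧
        (law k).real (Pc c e W K C l ∩ Dir e θ r l) ≤ C₃ / M * μ ^ l := by
  have hsp : 0 < sp c := by have := sp_gt hc; linarith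
  have hμ0 := hμ.pos
  obtain ⟨R, hR'⟩ := exists_nat_ge ((|K| + C + 1 + c) / sp c)
  have hR : |K| + C + 1 + c ≤ R * sp c := by rwa [div_le_iff₀ hsp] at hR'
  have hK' : 0 ≤ |K| + C := by positivity
  obtain ⟨a, ha⟩ : ∃ a, a = capP e (ap c) ^ (2 * R) := ⟨_, rfl⟩
  have ha0 : 0 < a := by rw [ha]; exact pow_pos (capP_pos he (ap_pos hc)) _
  have ha1 : a ≤ 1 := by rw [ha]; exact pow_le_one₀ (capP_pos he (ap_pos hc)).le (capP_le_one _ _)
  refine ⟨((C : ℝ) + 1) ^ 2 / (a * μ ^ (2 * C)), ?_, fun M hM => ?_⟩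
  · rw [le_div_iff₀ (by positivity), one_mul]
    have h1 : μ ^ (2 * C) ≤ 1 := pow_le_one₀ hμ0.le hμ.le_one
    have h2 : 0 < μ ^ (2 * C) := by positivity
    have h3 : (0 : ℝ) ≤ C := Nat.cast_nonneg _
    have h4 : a * μ ^ (2 * C) ≤ 1 := mul_le_one₀ ha1 h2.le h1
    nlinarith
  obtain ⟨W, hWc, hW⟩ := exists_dirs hk he (ap_pos hc) (by have := ap_le hc0.le; linarith) M
  obtain ⟨θ, hθ, hsep⟩ := exists_sep W
  obtain ⟨r, hr⟩ : ∃ r : ℝ, (2 * (C : ℝ) + 2 * R) + (1 + θ) * (2 * C + 2 * R) / (2 * θ) + 1 = r :=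
    ⟨_, rfl⟩
  refine ⟨W, hW, θ, hθ, r, fun l hl => ⟨?_, ?_⟩⟩
  · have h1 := Pc_bound hμ (A := Pc c e W K C l) (X := fun b => Qs c e W (|K| + C) b)
      (fun b => measurableSet_Qs _ _ _ _ _) hl (fun ω hω => ?_) ha0 zero_le_one
      (fun b => by rw [one_mul, ha]; exact Qs_le hc0 hc hμ he hK' hR b)
    · rw [mul_one] at h1; exact h1
    · obtain ⟨τ, hτ, u, hu, h, -⟩ := Pc_middle (fun w hw => (hW w hw).1) hl hω
      exact ⟨τ, hτ, u, hu, h⟩
  · have hM0 : (0 : ℝ) < M := by exact_mod_cast hM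
    have h1 := Pc_bound hμ (A := Pc c e W K C l ∩ Dir e θ r l)
      (X := fun b => Qs c e W (|K| + C) b ∩ Cn e θ ((1 + θ) * (2 * C)) (r - 2 * C) b)
      (fun b => (measurableSet_Qs _ _ _ _ _).inter (measurableSet_Cn _ _ _ _ _)) hl
      (fun ω hω => ?_) ha0 (B' := 1 / M) (by positivity) (fun b => ?_)
    · calc _ ≤ _ := h1
        _ = _ := by ring
    · obtain ⟨τ, hτ, u, hu, h, h'⟩ := Pc_middle (fun w hw => (hW w hw).1) hl hω.1
      refine ⟨τ, hτ, u, hu, h, ?_⟩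
      have h2 := hω.2
      have h3 := cone_perturb (E := 0) he hθ.le h' (by rw [add_zero]; exact h2.1) h2.2
      rw [zero_add] at h3
      exact h3
    · have h2 := Qs_Cn_le hc0 hc hμ he hK' hR hW hθ hsep (C := 2 * C) (r := r) (by positivity)
        hr.le b
      rw [hWc, ← ha] at h2
      rw [one_div, inv_mul_eq_div, le_div_iff₀ hM0, mul_comm]
      exact h2

end Pool.Agent.HypSAW98
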