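import Pool.Agent.HypSAW98.ExistsChain
import Pool.Agent.HypSAW98.Directed
import Pool.Agent.HypSAW98.Piece

/-!
# Sub-ballisticity with exponential rate (package D4)
-/

open MeasureTheory Set Filter Topology
open scoped RealInnerProductSpace

namespace Pool.Agent.HypSAW98

variable {k : ℕ}

namespace SlowAll

lemma measurableSet_Pc (c : ℝ) (e : Euc k) (W : Finset (Euc k)) (K : ℝ) (C l : ℕ) :
    MeasurableSet (Pc c e W K C l) := by
  have h : Pc c e W K C l = SA k c l ∩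
      ((⋂ (w : W) (j : ℕ) (_ : j ≤ l), {ω | -K ≤ ⟪(w : Euc k), S ω j⟫} ∩
        {ω | -K ≤ ⟪(w : Euc k), S ω l - S ω j⟫}) ∩
      ((⋂ (j : ℕ) (_ : j ≤ l) (_ : C ≤ j), {ω | 0 < ⟪e, S ω j⟫}) ∩
        ⋂ (j : ℕ) (_ : j + C ≤ l), {ω | ⟪e, S ω j⟫ < ⟪e, S ω l⟫})) := by
    ext ω
    simp only [Pc, Set.mem_ofPred_eq, Set.mem_inter_iff, Set.mem_iInter, Subtype.forall]
  rw [h]
  refine (measurableSet_SA c l).inter (MeasurableSet.inter ?_ (MeasurableSet.inter ?_ ?_))
  · refine MeasurableSet.iInter fun w => MeasurableSet.iInter fun j => MeasurableSet.iInter fun _ =>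
      MeasurableSet.inter ?_ ?_
    · exact measurableSet_le measurable_const (measurable_inner_S _ j)
    · exact measurableSet_le measurable_const
        (measurable_const.inner ((measurable_S l).sub (measurable_S j)))
  · exact MeasurableSet.iInter fun j => MeasurableSet.iInter fun _ => MeasurableSet.iInter fun _ =>
      measurableSet_lt measurable_const (measurable_inner_S e j)
  · exact MeasurableSet.iInter fun j => MeasurableSet.iInter fun _ =>
      measurableSet_lt (measurable_inner_S e j) (measurable_inner_S e l)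

lemma dep_Pc (c : ℝ) (e : Euc k) (W : Finset (Euc k)) (K : ℝ) (C l : ℕ) :
    Dep l (Pc c e W K C l) := by
  refine dep_of_S (fun f => (∀ i j, i < j → j ≤ l → c < ‖f j - f i‖) ∧
    (∀ w ∈ W, ∀ j ≤ l, -K ≤ ⟪w, f j⟫ ∧ -K ≤ ⟪w, f l - f j⟫) ∧
    (∀ j ≤ l, C ≤ j → 0 < ⟪e, f j⟫) ∧ ∀ j, j + C ≤ l → ⟪e, f j⟫ < ⟪e, f l⟫) ?_
    (fun ω => Iff.rfl)
  rintro f g hfg ⟨h1, h2, h3, h4⟩
  refine ⟨fun i j hij hj => ?_, fun w hw j hj => ?_, fun j hj hCj => ?_, fun j hj => ?_⟩
  · rw [← hfg j hj, ← hfg i (by omega)]; exact h1 i j hij hj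
  · rw [← hfg j hj, ← hfg l le_rfl]; exact h2 w hw j hj
  · rw [← hfg j hj]; exact h3 j hj hCj
  · rw [← hfg j (by omega), ← hfg l le_rfl]; exact h4 j hj

lemma measurableSet_Dir (e : Euc k) (θ r : ℝ) (l : ℕ) : MeasurableSet (Dir e θ r l) := by
  refine MeasurableSet.inter ?_ ?_
  · refine measurableSet_le ?_ ((measurable_inner_S e l).const_mul θ)
    exact ((measurable_S l).sub ((measurable_inner_S e l).smul_const e)).norm
  · exact measurableSet_le measurable_const (measurable_inner_S e l)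

lemma dep_Dir (e : Euc k) (θ r : ℝ) (l : ℕ) : Dep l (Dir e θ r l) := by
  refine dep_of_S (fun f => ‖f l - ⟪e, f l⟫ • e‖ ≤ θ * ⟪e, f l⟫ ∧ r ≤ ⟪e, f l⟫) ?_
    (fun ω => Iff.rfl)
  rintro f g hfg h
  rw [← hfg l le_rfl]; exact h

/-- The growth constant along multiples of a fixed length. -/
lemma Z_mul_le {c μ : ℝ} (hμ : IsMu k c μ) {m : ℕ} (hm : 1 ≤ m) :
    ∃ Cr, 1 ≤ Cr ∧ ∀ n, Z k c (n * m) ≤ Cr * (μ ^ m * 2) ^ n := by
  have hμ0 := hμ.pos
  have hm0 : (m : ℝ) ≠ 0 := by exact_mod_cast (show m ≠ 0 by omega)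
  set s : ℝ := (2 : ℝ) ^ ((m : ℝ)⁻¹) with hs
  have hs0 : 0 < s := Real.rpow_pos_of_pos two_pos _
  have hsm : s ^ m = 2 := by
    rw [hs, ← Real.rpow_natCast, ← Real.rpow_mul two_pos.le, inv_mul_cancel₀ hm0, Real.rpow_one]
  have hs1 : 1 < s := by
    refine Real.one_lt_rpow (by norm_num) ?_
    have : (0 : ℝ) < m := by exact_mod_cast hm
    positivity
  have hμs : μ < μ * s := by nlinarith
  obtain ⟨N1, hN1⟩ := hμ.eventually_le _ hμs
  have hlam1 : μ ^ m ≤ 1 := pow_le_one₀ hμ0.le hμ.le_one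
  have hlam0 : 0 < μ ^ m := by positivity
  refine ⟨1 + 1 / (μ ^ m) ^ N1, by simp only [le_add_iff_nonneg_right]; positivity, fun n => ?_⟩
  rcases le_or_gt N1 (n * m) with h | h
  · refine (hN1 _ h).trans ?_
    have : (μ * s) ^ (n * m) = (μ ^ m * 2) ^ n := by
      rw [mul_comm n m, pow_mul, mul_pow, hsm]
    rw [this]
    have h1 : 0 < (μ ^ m * 2) ^ n := by positivity
    have h2 : 0 ≤ 1 / (μ ^ m) ^ N1 := by positivity
    nlinarith
  · have hn : n ≤ N1 := by nlinarith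
    have h1 : (μ ^ m) ^ N1 ≤ (μ ^ m * 2) ^ n := by
      calc (μ ^ m) ^ N1 ≤ (μ ^ m) ^ n := pow_le_pow_of_le_one hlam0.le hlam1 hn
        _ ≤ (μ ^ m * 2) ^ n := by gcongr; linarith
    have h2 : 1 ≤ 1 / (μ ^ m) ^ N1 * (μ ^ m * 2) ^ n := by
      rw [div_mul_eq_mul_div, one_mul, one_le_div (by positivity)]
      exact h1
    have h3 : 0 < (μ ^ m * 2) ^ n := by positivity
    have h4 := Z_le_one (k := k) c (n * m)
    nlinarith

lemma sq_mul_le (N : ℕ) : ((N : ℝ) + 1) ^ 2 * (1 / 2) ^ N ≤ 64 * (81 / 128) ^ N := by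
  have h1 : (N : ℝ) + 1 ≤ 8 * (9 / 8) ^ N := by
    have := one_add_mul_le_pow (show (-2 : ℝ) ≤ 1 / 8 by norm_num) N
    have h2 : (1 : ℝ) + 1 / 8 = 9 / 8 := by norm_num
    rw [h2] at this
    have h3 : (0 : ℝ) ≤ N := Nat.cast_nonneg N
    linarith
  have h2 : ((N : ℝ) + 1) ^ 2 ≤ (8 * (9 / 8) ^ N) ^ 2 := by gcongr
  calc ((N : ℝ) + 1) ^ 2 * (1 / 2) ^ N ≤ (8 * (9 / 8) ^ N) ^ 2 * (1 / 2) ^ N := by gcongr
    _ = 64 * (81 / 128) ^ N := by
        rw [mul_pow, ← pow_mul, mul_comm N 2, pow_mul]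
        have : (81 / 128 : ℝ) = (9 / 8) ^ 2 * (1 / 2) := by norm_num
        rw [this, mul_pow]
        norm_num
        ring

/-- Main step: below the critical speed one can go a little further down. -/
lemma core (hk : 1 ≤ k) {c μ : ℝ} (hc0 : 0 < c) (hc : c < 1) (hμ : IsMu k c μ) {v : ℝ}
    (hv0 : 0 < v) (hv1 : v ≤ 1) (hslow : ∀ v' > v, Slow k c μ v') :
    ∃ ε, 0 < ε ∧ ε < v ∧ Slow k c μ (v - ε / 4) := by
  classical
  have hμ0 := hμ.pos
  have hμ1 := hμ.le_one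
  obtain ⟨e, he⟩ : ∃ e : Euc k, ‖e‖ = 1 := ⟨EuclideanSpace.single 0 1, by simp⟩
  -- first scale
  obtain ⟨m0, hm0⟩ := few_fast hμ (hslow (v + v / 400) (by linarith))
    (show 0 < v / 400 by positivity)
  set m : ℕ := max m0 1 with hmdef
  have hm : 1 ≤ m := le_max_right _ _
  obtain ⟨th1, hth1, hth1', hF1⟩ := hm0 m (le_max_left _ _)
  set C : ℕ := ⌈(m : ℝ) * (2 / v + 2)⌉₊ with hCdef
  have hC : (m : ℝ) * (2 / v + 2) ≤ C := Nat.le_ceil _
  obtain ⟨C₃, hC₃, hpb⟩ := piece_bounds hk hc0 hc hμ he (m : ℝ) C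
  set Qn : ℕ := ⌈4 * (4 * C₃ + 1)⌉₊ with hQn
  have hQn' : 4 * (4 * C₃ + 1) ≤ Qn := Nat.le_ceil _
  have hQn1 : (1 : ℝ) ≤ Qn := by linarith
  have hQnN : 1 ≤ Qn := by exact_mod_cast hQn1
  obtain ⟨W, hW, θ, hθ, r, hb⟩ := hpb (Qn ^ 2) (Nat.one_le_pow _ _ hQnN)
  -- second scale
  set e3 : ℝ := min (v / 2) (θ ^ 2 * v / 16) with he3def
  have he3 : 0 < e3 := lt_min (by positivity) (by positivity)
  have he3v : e3 ≤ v / 2 := min_le_left _ _
  have he3θ : e3 ≤ θ ^ 2 * v / 16 := min_le_right _ _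
  set ε : ℝ := min (v / 400) (e3 / 100) with hεdef
  have hε : 0 < ε := lt_min (by positivity) (by positivity)
  have hεv : ε ≤ v / 400 := min_le_left _ _
  have hεe : ε ≤ e3 / 100 := min_le_right _ _
  obtain ⟨m0', hm0'⟩ := few_fast hμ (hslow (v + e3 / 100) (by
    have : 0 < e3 / 100 := by positivity
    linarith)) (show 0 < e3 / 100 by positivity)
  have hve3 : 0 < v - e3 := by linarith
  set L : ℕ := max 1 (max (2 * C) (max m0' ⌈r / (v - e3)⌉₊)) with hLdef
  have hL : 1 ≤ L := le_max_left _ _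
  have hL2 : 2 * C ≤ L := (le_max_left _ _).trans (le_max_right _ _)
  have hL3 : m0' ≤ L := (le_max_left _ _).trans ((le_max_right _ _).trans (le_max_right _ _))
  have hL4 : ⌈r / (v - e3)⌉₊ ≤ L :=
    (le_max_right _ _).trans ((le_max_right _ _).trans (le_max_right _ _))
  have hLm : L ≤ L * m := Nat.le_mul_of_pos_right L hm
  have hm2 : 1 ≤ L * m := hL.trans hLm
  have hr : r ≤ (v - e3) * ((L * m : ℕ) : ℝ) := by
    have h1 : r / (v - e3) ≤ ((L * m : ℕ) : ℝ) := Nat.ceil_le.1 (hL4.trans hLm)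
    rw [div_le_iff₀ hve3] at h1
    linarith
  obtain ⟨th2, hth2, hth2', hF2⟩ := hm0' (L * m) (hL3.trans hLm)
  obtain ⟨Cr, hCr, hZ⟩ := Z_mul_le hμ hm2
  set lam : ℝ := μ ^ (L * m) with hlam
  have hlam0 : 0 < lam := by positivity
  have hlam1 : lam ≤ 1 := pow_le_one₀ hμ0.le hμ1
  -- the pieces
  set P : ℕ → Set (ℕ → Sph k) := fun g => Pc c e W (m : ℝ) C (g * (L * m)) with hP
  set D : Set (ℕ → Sph k) := Pc c e W (m : ℝ) C (L * m) ∩ Dir e θ r (L * m) with hD
  set R : ℕ → Set (ℕ → Sph k) := fun j => SA k c (j * (L * m)) with hR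
  have hchain : ∀ N q, MeasurableSet {ω | Ch (L * m) P D R N q ω} ∧
      (law k).real {ω | Ch (L * m) P D R N q ω} ≤
        2 * Cr * ((4 * C₃ + 1) * lam * 2) ^ N / ((Qn ^ 2 : ℕ) : ℝ) ^ q := by
    intro N q
    refine chain_bound (unif k) (fun g => measurableSet_Pc _ _ _ _ _ _)
      ((measurableSet_Pc _ _ _ _ _ _).inter (measurableSet_Dir _ _ _ _))
      (fun n => measurableSet_SA _ _) (fun g => dep_Pc _ _ _ _ _ _)
      ((dep_Pc _ _ _ _ _ _).inter (dep_Dir _ _ _ _)) hC₃ hlam0 one_le_two (by linarith) ?_ ?_ ?_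
      ?_ N q
    · exact_mod_cast Nat.one_le_pow 2 Qn hQnN
    · intro g hg
      have h1 : 2 * C ≤ g * (L * m) := by
        calc 2 * C ≤ L := hL2
          _ ≤ L * m := hLm
          _ ≤ g * (L * m) := Nat.le_mul_of_pos_left _ hg
      refine ((hb _ h1).1).trans ?_
      rw [hlam, ← pow_mul, mul_comm g (L * m)]
    · exact (hb _ (hL2.trans hLm)).2
    · intro n
      exact hZ n
  -- bound for the chain events
  have hG : ∀ N τ i0 q, i0 ≤ N → N + 1 ≤ 2 * q →
      (law k).real (SA k c (i0 * (L * m)) ∩ shift (τ * m + i0 * (L * m)) ⁻¹'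
        {ω | Ch (L * m) P D R (N - i0) q ω}) ≤ 2 * Cr ^ 2 * (lam / 2) ^ N := by
    intro N τ i0 q hi0 hq
    obtain ⟨hm1, hch⟩ := hchain (N - i0) q
    rw [real_inter_shift (unif k) (measurableSet_SA _ _)
      ((dep_SA _ _).mono (Nat.le_add_left _ _)) hm1]
    have h1 : (law k).real (SA k c (i0 * (L * m))) ≤ Cr * (lam * 2) ^ i0 := hZ i0
    have hKK : (1 : ℝ) ≤ 4 * C₃ + 1 := by linarith
    have h2 : Cr * (lam * 2) ^ i0 ≤ Cr * ((4 * C₃ + 1) * lam * 2) ^ i0 := by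
      have : lam * 2 ≤ (4 * C₃ + 1) * lam * 2 := by nlinarith
      gcongr
    have h3 : (4 * (4 * C₃ + 1)) ^ N ≤ ((Qn ^ 2 : ℕ) : ℝ) ^ q := by
      rw [Nat.cast_pow, ← pow_mul]
      calc (4 * (4 * C₃ + 1)) ^ N ≤ (Qn : ℝ) ^ N := by gcongr
        _ ≤ (Qn : ℝ) ^ (2 * q) := pow_le_pow_right₀ hQn1 (by omega)
    have hpos : (0 : ℝ) < (4 * (4 * C₃ + 1)) ^ N := by positivity
    calc _ ≤ (Cr * ((4 * C₃ + 1) * lam * 2) ^ i0) *
          (2 * Cr * ((4 * C₃ + 1) * lam * 2) ^ (N - i0) / ((Qn ^ 2 : ℕ) : ℝ) ^ q) := by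
          refine mul_le_mul (h1.trans h2) hch measureReal_nonneg (by positivity)
      _ = 2 * Cr ^ 2 * ((4 * C₃ + 1) * lam * 2) ^ (i0 + (N - i0)) / ((Qn ^ 2 : ℕ) : ℝ) ^ q := by
          rw [pow_add]; ring
      _ = 2 * Cr ^ 2 * ((4 * C₃ + 1) * lam * 2) ^ N / ((Qn ^ 2 : ℕ) : ℝ) ^ q := by
          congr 3; omega
      _ ≤ 2 * Cr ^ 2 * ((4 * C₃ + 1) * lam * 2) ^ N / (4 * (4 * C₃ + 1)) ^ N := by
          gcongr
      _ = 2 * Cr ^ 2 * (lam / 2) ^ N := by
          rw [mul_div_assoc, ← div_pow]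
          congr 2
          field_simp
          norm_num
  -- the main estimate
  obtain ⟨N0, hN0⟩ : ∃ N0 : ℕ, ∀ N ≥ N0, 1 + 1 / e3 ≤ 36 / 100 * ((N : ℝ) + 1) := by
    refine ⟨⌈(1 + 1 / e3) / (36 / 100)⌉₊, fun N hN => ?_⟩
    have h1 : (1 + 1 / e3) / (36 / 100) ≤ N := Nat.ceil_le.1 hN
    rw [div_le_iff₀ (by norm_num)] at h1
    linarith
  set th : ℝ := max (max th1 th2) (81 / 128) with hthdef
  have hth0 : 0 < th := lt_max_of_lt_right (by norm_num)
  have hth1t : th1 ≤ th := (le_max_left _ _).trans (le_max_left _ _)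
  have hth2t : th2 ≤ th := (le_max_right _ _).trans (le_max_left _ _)
  have hth3t : 81 / 128 ≤ th := le_max_right _ _
  have hth : th < 1 := max_lt (max_lt hth1' hth2') (by norm_num)
  set C5 : ℝ := 1 + L + 128 * L * Cr ^ 2 with hC5
  have hC50 : 0 < C5 := by positivity
  have hbig : ∀ N ≥ N0, (law k).real {ω | ω ∈ SA k c ((N + 1) * (L * m)) ∧
      (v - ε) * (((N + 1) * (L * m) : ℕ) : ℝ) ≤ ⟪e, S ω ((N + 1) * (L * m))⟫} ≤
      C5 * (th * lam) ^ N := by
    intro N hN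
    set F1 := FastBlocks k c (v + v / 400) m (L * (N + 1)) (v / 400 * ((L * (N + 1) : ℕ) : ℝ))
      with hF1def
    set F2 := FastBlocks k c (v + e3 / 100) (L * m) N (e3 / 100 * N) with hF2def
    have hsub : {ω : ℕ → Sph k | ω ∈ SA k c ((N + 1) * (L * m)) ∧
        (v - ε) * (((N + 1) * (L * m) : ℕ) : ℝ) ≤ ⟪e, S ω ((N + 1) * (L * m))⟫} ⊆
        F1 ∪ ((⋃ τ ∈ Finset.range L, shift (τ * m) ⁻¹' F2) ∪
          ⋃ τ ∈ Finset.range L, ⋃ i0 ∈ Finset.range (N + 1),
            ⋃ q ∈ (Finset.range (N + 1)).filter (fun q => N + 1 ≤ 2 * q),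
              (SA k c (i0 * (L * m)) ∩ shift (τ * m + i0 * (L * m)) ⁻¹'
                {ω | Ch (L * m) P D R (N - i0) q ω})) := by
      rintro ω ⟨h1, h2⟩
      by_cases hf1 : ω ∈ F1
      · exact Or.inl hf1
      by_cases hf2 : ∃ τ < L, shift (τ * m) ω ∈ F2
      · obtain ⟨τ, hτ, h⟩ := hf2
        right; left
        simp only [Set.mem_iUnion]
        exact ⟨τ, Finset.mem_range.2 hτ, h⟩
      push Not at hf2
      right; right
      obtain ⟨τ, hτ, i0, hi0, q, hq1, hq2, hch⟩ := exists_chain hc0 he hv0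
        (show 0 ≤ v / 400 by positivity) (a1 := v / 400) (by linarith) hm hC hW hL
        (show 0 ≤ e3 / 100 by positivity) (by linarith) he3 he3v hθ he3θ hr
        (show 0 ≤ e3 / 100 by positivity) (by linarith) (by linarith) (hN0 N hN) h1 h2 hf1 hf2
      simp only [Set.mem_iUnion]
      refine ⟨τ, Finset.mem_range.2 hτ, i0, Finset.mem_range.2 (by omega), q,
        Finset.mem_filter.2 ⟨Finset.mem_range.2 (by omega), hq1⟩, ?_, hch⟩
      refine SA_anti c ?_ h1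
      exact Nat.mul_le_mul_right _ (by omega)
    have hmeas : (law k).real F1 ≤ (th * lam) ^ N := by
      refine (hF1 (L * (N + 1))).trans ?_
      have h1 : μ ^ (L * (N + 1) * m) ≤ lam ^ N := by
        rw [hlam, ← pow_mul]
        refine pow_le_pow_of_le_one hμ0.le hμ1 ?_
        nlinarith [Nat.zero_le (L * m)]
      have h2 : th1 ^ (L * (N + 1)) ≤ th ^ N := by
        calc th1 ^ (L * (N + 1)) ≤ th1 ^ N := by
              refine pow_le_pow_of_le_one hth1.le hth1'.le ?_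
              nlinarith
          _ ≤ th ^ N := by gcongr
      rw [mul_pow]
      exact mul_le_mul h2 h1 (by positivity) (by positivity)
    have hmeas2 : ∀ τ, (law k).real (shift (τ * m) ⁻¹' F2) ≤ (th * lam) ^ N := by
      intro τ
      rw [real_shift (unif k) _ (measurableSet_FastBlocks _ _ _ _ _)]
      refine (hF2 N).trans ?_
      rw [mul_pow]
      have h1 : μ ^ (N * (L * m)) = lam ^ N := by
        rw [hlam, ← pow_mul, mul_comm]
      rw [h1]
      gcongr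
    have hG' : ∀ τ, ∀ i0 ∈ Finset.range (N + 1),
        ∀ q ∈ (Finset.range (N + 1)).filter (fun q => N + 1 ≤ 2 * q),
        (law k).real (SA k c (i0 * (L * m)) ∩ shift (τ * m + i0 * (L * m)) ⁻¹'
          {ω | Ch (L * m) P D R (N - i0) q ω}) ≤ 2 * Cr ^ 2 * (lam / 2) ^ N := by
      intro τ i0 hi0 q hq
      refine hG N τ i0 q ?_ (Finset.mem_filter.1 hq).2
      have := Finset.mem_range.1 hi0
      omega
    have hnum : ((L : ℝ) * ((N + 1) * ((N + 1) * (2 * Cr ^ 2 * (lam / 2) ^ N)))) ≤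
        128 * L * Cr ^ 2 * (th * lam) ^ N := by
      have h1 := sq_mul_le N
      have h2 : (81 / 128 : ℝ) ^ N ≤ th ^ N := by gcongr
      have h3 : ((N : ℝ) + 1) ^ 2 * (1 / 2) ^ N ≤ 64 * th ^ N := h1.trans (by linarith)
      calc ((L : ℝ) * ((N + 1) * ((N + 1) * (2 * Cr ^ 2 * (lam / 2) ^ N)))) =
            2 * L * Cr ^ 2 * lam ^ N * (((N : ℝ) + 1) ^ 2 * (1 / 2) ^ N) := by
            rw [div_eq_mul_one_div lam 2, mul_pow]; ring
        _ ≤ 2 * L * Cr ^ 2 * lam ^ N * (64 * th ^ N) := by gcongr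
        _ = _ := by rw [mul_pow]; ring
    calc _ ≤ (law k).real (F1 ∪ ((⋃ τ ∈ Finset.range L, shift (τ * m) ⁻¹' F2) ∪
          ⋃ τ ∈ Finset.range L, ⋃ i0 ∈ Finset.range (N + 1),
            ⋃ q ∈ (Finset.range (N + 1)).filter (fun q => N + 1 ≤ 2 * q),
              (SA k c (i0 * (L * m)) ∩ shift (τ * m + i0 * (L * m)) ⁻¹'
                {ω | Ch (L * m) P D R (N - i0) q ω}))) :=
          measureReal_mono hsub (measure_ne_top _ _)
      _ ≤ (law k).real F1 + ((law k).real (⋃ τ ∈ Finset.range L, shift (τ * m) ⁻¹' F2) +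
          (law k).real (⋃ τ ∈ Finset.range L, ⋃ i0 ∈ Finset.range (N + 1),
            ⋃ q ∈ (Finset.range (N + 1)).filter (fun q => N + 1 ≤ 2 * q),
              (SA k c (i0 * (L * m)) ∩ shift (τ * m + i0 * (L * m)) ⁻¹'
                {ω | Ch (L * m) P D R (N - i0) q ω}))) := by
          refine (measureReal_union_le _ _).trans ?_
          gcongr
          exact measureReal_union_le _ _
      _ ≤ (th * lam) ^ N + (∑ τ ∈ Finset.range L, (th * lam) ^ N +
          ∑ τ ∈ Finset.range L, ∑ i0 ∈ Finset.range (N + 1),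
            ∑ q ∈ (Finset.range (N + 1)).filter (fun q => N + 1 ≤ 2 * q),
              2 * Cr ^ 2 * (lam / 2) ^ N) := by
          refine add_le_add hmeas (add_le_add ?_ ?_)
          · exact (measureReal_biUnion_finset_le _ _).trans
              (Finset.sum_le_sum fun τ _ => hmeas2 τ)
          · refine (measureReal_biUnion_finset_le _ _).trans (Finset.sum_le_sum fun τ _ => ?_)
            refine (measureReal_biUnion_finset_le _ _).trans (Finset.sum_le_sum fun i0 hi0 => ?_)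
            exact (measureReal_biUnion_finset_le _ _).trans
              (Finset.sum_le_sum fun q hq => hG' τ i0 hi0 q hq)
      _ ≤ (th * lam) ^ N + (L * (th * lam) ^ N +
          L * ((N + 1) * ((N + 1) * (2 * Cr ^ 2 * (lam / 2) ^ N)))) := by
          gcongr
          · rw [Finset.sum_const, Finset.card_range, nsmul_eq_mul]
          · simp only [Finset.sum_const, Finset.card_range, nsmul_eq_mul]
            have hcard : (((Finset.range (N + 1)).filter (fun q => N + 1 ≤ 2 * q)).card : ℝ) ≤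
                (N : ℝ) + 1 := by
              have h1 := Finset.card_le_card (Finset.filter_subset (fun q => N + 1 ≤ 2 * q)
                (Finset.range (N + 1)))
              rw [Finset.card_range] at h1
              exact_mod_cast h1
            push_cast
            gcongr
      _ ≤ C5 * (th * lam) ^ N := by
          rw [hC5]
          linarith
  refine ⟨ε, hε, by linarith, ?_⟩
  refine slow_of_directed hμ he hε (by linarith) hv1 hm2 hth0 hth
    (C := C5 / (th * lam) + 1 / (th * lam) ^ (N0 + 1)) ?_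
  intro N
  rw [← hlam]
  have ht0 : 0 < th * lam := by positivity
  have ht1 : th * lam ≤ 1 := by nlinarith
  rcases le_or_gt N N0 with h | h
  · have h1 : (1 : ℝ) ≤ 1 / (th * lam) ^ (N0 + 1) * (th * lam) ^ N := by
      rw [div_mul_eq_mul_div, one_mul, one_le_div (by positivity)]
      exact pow_le_pow_of_le_one ht0.le ht1 (by omega)
    have h2 : 0 ≤ C5 / (th * lam) * (th * lam) ^ N := by positivity
    have h3 : (law k).real {ω : ℕ → Sph k | ω ∈ SA k c (N * (L * m)) ∧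
      (v - ε) * ((N * (L * m) : ℕ) : ℝ) ≤ ⟪e, S ω (N * (L * m))⟫} ≤ 1 := measureReal_le_one
    linarith
  · obtain ⟨N', rfl⟩ : ∃ N', N = N' + 1 := ⟨N - 1, by omega⟩
    refine (hbig N' (by omega)).trans ?_
    have h1 : C5 / (th * lam) * (th * lam) ^ (N' + 1) = C5 * (th * lam) ^ N' := by
      rw [pow_succ]; field_simp
    have h2 : 0 ≤ 1 / (th * lam) ^ (N0 + 1) * (th * lam) ^ (N' + 1) := by positivity
    have h3 : (C5 / (th * lam) + 1 / (th * lam) ^ (N0 + 1)) * (th * lam) ^ (N' + 1) =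
        C5 / (th * lam) * (th * lam) ^ (N' + 1) +
          1 / (th * lam) ^ (N0 + 1) * (th * lam) ^ (N' + 1) := add_mul _ _ _
    rw [h3, h1]
    exact le_add_of_nonneg_right h2

lemma slow_mono {c μ v v' : ℝ} (h : v ≤ v') (hs : Slow k c μ v) : Slow k c μ v' := by
  obtain ⟨ρ, h1, h2, C, hC⟩ := hs
  refine ⟨ρ, h1, h2, C, fun n => (measureReal_mono ?_ (measure_ne_top _ _)).trans (hC n)⟩
  rintro ω ⟨h3, h4⟩
  refine ⟨h3, le_trans ?_ h4⟩
  have : (0 : ℝ) ≤ n := Nat.cast_nonneg n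
  gcongr

lemma slow_gt_one {c μ v : ℝ} (hμ : 0 < μ) (hv : 1 < v) : Slow k c μ v := by
  refine ⟨μ / 2, by positivity, by linarith, 1, fun n => ?_⟩
  rcases Nat.eq_zero_or_pos n with h | h
  · subst h
    simp only [pow_zero, mul_one]
    exact measureReal_le_one
  · have : {ω : ℕ → Sph k | ω ∈ SA k c n ∧ v * n ≤ ‖S ω n‖} = ∅ := by
      ext ω
      simp only [Set.mem_ofPred_eq, Set.mem_empty_iff_false, iff_false, not_and, not_le]
      intro _
      have h1 := norm_S_le ω n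
      have h2 : (0 : ℝ) < n := by exact_mod_cast h
      nlinarith
    rw [this, measureReal_empty]
    positivity

end SlowAll

theorem slow_all (hk : 1 ≤ k) {c μ : ℝ} (hc0 : 0 < c) (hc : c < 1) (hμ : IsMu k c μ) {v : ℝ}
    (hv : 0 < v) : Slow k c μ v := by
  by_contra hcon
  set A : Set ℝ := {x | 0 ≤ x ∧ Slow k c μ x} with hA
  have hne : A.Nonempty := ⟨2, by norm_num, SlowAll.slow_gt_one hμ.pos (by norm_num)⟩
  have hbd : BddBelow A := ⟨0, fun x hx => hx.1⟩
  set u := sInf A with hu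
  have hvu : v ≤ u := by
    refine le_csInf hne fun x hx => ?_
    by_contra hlt
    push Not at hlt
    exact hcon (SlowAll.slow_mono hlt.le hx.2)
  have hu1 : u ≤ 1 := by
    refine le_of_forall_gt_imp_ge_of_dense fun y hy => ?_
    exact csInf_le hbd ⟨by linarith, SlowAll.slow_gt_one hμ.pos hy⟩
  have hgt : ∀ v' > u, Slow k c μ v' := by
    intro v' hv'
    obtain ⟨x, hx, hxv⟩ := (csInf_lt_iff hbd hne).1 hv'
    exact SlowAll.slow_mono hxv.le hx.2
  obtain ⟨ε, hε, hεu, hs⟩ := SlowAll.core hk hc0 hc hμ (hv.trans_le hvu) hu1 hgt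
  have : u ≤ u - ε / 4 := csInf_le hbd ⟨by linarith, hs⟩
  linarith

end Pool.Agent.HypSAW98
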