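import Pool.Agent.HypSAW98.HypLim
import Pool.Agent.HypSAW98.HypGeo
import Pool.Agent.HypSAW98.Growth
import Pool.Agent.HypSAW98.SlowAll

/-!
# Assembly: the expected displacement of the self-avoiding chain in hyperbolic space tends to zero
-/

open MeasureTheory Set Filter Topology
open scoped RealInnerProductSpace

namespace Pool.Agent.HypSAW98

variable {k : ℕ}

namespace Fin8

open Lim

lemma chain_zero (ε : ℝ) (ω : ℕ → Sph k) : (chain ε ω 0).t = 1 := rfl

lemma dep_SAH (c ε : ℝ) (n : ℕ) : Dep n (SAH k c ε n) := by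
  intro ω ω' h
  have h1 : ∀ j ≤ n, chain ε ω j = chain ε ω' j := fun j hj =>
    chain_congr ε fun i hi => h i (by omega)
  simp only [SAH, Set.mem_ofPred_eq]
  constructor
  · intro hA i j hij hj
    rw [← h1 j hj, ← h1 i (by omega)]; exact hA i j hij hj
  · intro hA i j hij hj
    rw [h1 j hj, h1 i (by omega)]; exact hA i j hij hj

lemma dep_BrH (c ε : ℝ) (n : ℕ) : Dep n (BrH k c ε n) := by
  intro ω ω' h
  have h1 : ∀ j ≤ n, chain ε ω j = chain ε ω' j := fun j hj =>
    chain_congr ε fun i hi => h i (by omega)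
  have key : ∀ ω ω' : ℕ → Sph k, (∀ j ≤ n, chain ε ω j = chain ε ω' j) →
      ω ∈ BrH k c ε n → ω' ∈ BrH k c ε n := by
    rintro ω ω' h1 ⟨a, b, d⟩
    refine ⟨fun i j hij hj => ?_, fun j hj1 hj => ?_, fun j hj => ?_⟩
    · rw [← h1 j hj, ← h1 i (by omega)]; exact a i j hij hj
    · rw [← h1 j hj]; exact b j hj1 hj
    · rw [← h1 j hj.le, ← h1 n le_rfl]; exact d j hj
  exact ⟨key ω ω' h1, key ω' ω fun j hj => (h1 j hj).symm⟩

lemma SAH_anti (c ε : ℝ) {m n : ℕ} (h : m ≤ n) : SAH k c ε n ⊆ SAH k c ε m :=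
  fun _ hω i j hij hj => hω i j hij (hj.trans h)

lemma SAH_shift {c ε : ℝ} {l m n : ℕ} (h : l + m ≤ n) {ω : ℕ → Sph k}
    (hω : ω ∈ SAH k c ε n) : shift l ω ∈ SAH k c ε m := by
  intro i j hij hj
  have := hω (l + i) (l + j) (by omega) (by omega)
  rwa [hdist_chain_shift] at this

lemma log_t_shift (ε : ℝ) (ω : ℕ → Sph k) (l n : ℕ) :
    Real.log (chain ε ω (l + n)).t =
      Real.log (chain ε ω l).t + Real.log (chain ε (shift l ω) n).t := by
  rw [chain_t_shift, Real.log_mul (chain ε ω l).pos.ne' (chain ε (shift l ω) n).pos.ne']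

lemma BrH_append {c ε : ℝ} (hc0 : 0 ≤ c) (hε : 0 ≤ ε) {l m : ℕ} {ω : ℕ → Sph k}
    (h1 : ω ∈ BrH k c ε l) (h2 : shift l ω ∈ BrH k c ε m) : ω ∈ BrH k c ε (l + m) := by
  obtain ⟨a1, a2, a3⟩ := h1
  obtain ⟨b1, b2, b3⟩ := h2
  have hcε : 0 ≤ c * ε := mul_nonneg hc0 hε
  have hle : ∀ i ≤ l, Real.log (chain ε ω i).t ≤ Real.log (chain ε ω l).t := by
    intro i hi
    rcases hi.lt_or_eq with h | h
    · exact Real.log_le_log (chain ε ω i).pos (a3 i h).le
    · rw [h]
  have hl0 : 0 ≤ Real.log (chain ε ω l).t := by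
    have := hle 0 (Nat.zero_le _)
    rwa [chain_zero, Real.log_one] at this
  refine ⟨?_, ?_, ?_⟩
  · intro i j hij hj
    rcases le_or_gt j l with hjl | hjl
    · exact a1 i j hij hjl
    · obtain ⟨j', rfl⟩ := Nat.exists_eq_add_of_lt hjl
      rcases le_or_gt l i with hil | hil
      · obtain ⟨i', rfl⟩ := Nat.exists_eq_add_of_le hil
        rw [add_assoc, hdist_chain_shift]
        exact b1 i' (j' + 1) (by omega) (by omega)
      · rw [add_assoc]
        have h3 := b2 (j' + 1) (by omega) (by omega)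
        have h4 := abs_log_le_hdist (chain ε ω i) (chain ε ω (l + (j' + 1)))
        have h5 := neg_abs_le (Real.log (chain ε ω i).t - Real.log (chain ε ω (l + (j' + 1))).t)
        rw [log_t_shift] at h4 h5
        have := hle i hil.le
        linarith
  · intro j hj1 hj
    rcases le_or_gt j l with hjl | hjl
    · exact a2 j hj1 hjl
    · obtain ⟨j', rfl⟩ := Nat.exists_eq_add_of_lt hjl
      rw [add_assoc, log_t_shift]
      have h3 := b2 (j' + 1) (by omega) (by omega)
      linarith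
  · intro j hj
    rw [chain_t_shift ε ω l m]
    rcases le_or_gt l j with hlj | hlj
    · obtain ⟨j', rfl⟩ := Nat.exists_eq_add_of_le hlj
      rw [chain_t_shift]
      exact mul_lt_mul_of_pos_left (b3 j' (by omega)) (chain ε ω l).pos
    · have h3 := a3 j hlj
      rcases Nat.eq_zero_or_pos m with hm | hm
      · subst hm; rw [chain_zero, mul_one]; exact h3
      · have h4 := b2 m hm le_rfl
        have h5 : 1 < (chain ε (shift l ω) m).t := by
          rw [← Real.log_pos_iff (chain ε (shift l ω) m).pos.le]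
          linarith
        have h6 := (chain ε ω l).pos
        nlinarith

lemma BrH_zero (c ε : ℝ) : BrH k c ε 0 = Set.univ := by
  ext ω
  simp only [BrH, SAH, Set.mem_ofPred_eq, Set.mem_univ, iff_true]
  exact ⟨fun i j hij hj => by omega, fun j h1 h2 => by omega, fun j hj => by omega⟩

lemma BrH_supermul {c ε : ℝ} (hc0 : 0 ≤ c) (hε : 0 ≤ ε) (l m : ℕ) :
    (law k).real (BrH k c ε l) * (law k).real (BrH k c ε m) ≤
      (law k).real (BrH k c ε (l + m)) := by
  rw [← real_inter_shift (unif k) (measurableSet_BrH c ε l) (dep_BrH c ε l)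
    (measurableSet_BrH c ε m)]
  exact measureReal_mono (fun ω hω => BrH_append hc0 hε hω.1 hω.2) (measure_ne_top _ _)

lemma BrH_pow_le {c ε : ℝ} (hc0 : 0 ≤ c) (hε : 0 ≤ ε) (l N : ℕ) :
    (law k).real (BrH k c ε l) ^ N ≤ (law k).real (BrH k c ε (N * l)) := by
  induction N with
  | zero => simp [BrH_zero]
  | succ N ih =>
    rw [pow_succ]
    calc (law k).real (BrH k c ε l) ^ N * (law k).real (BrH k c ε l) ≤
          (law k).real (BrH k c ε (N * l)) * (law k).real (BrH k c ε l) :=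
          mul_le_mul_of_nonneg_right ih measureReal_nonneg
      _ ≤ (law k).real (BrH k c ε (N * l + l)) := BrH_supermul hc0 hε _ _
      _ = _ := by congr 2; ring

/-- Positivity for all step lengths. -/
lemma BrH_one_pos {c : ℝ} (hc0 : 0 ≤ c) (hc : c < 1) {ε : ℝ} (hε : 0 < ε) :
    0 < (law k).real (BrH k c ε 1) := by
  have hU : IsOpen {u : Sph k | c * ε < - Real.log (den ε u)} := by
    refine isOpen_lt continuous_const ?_
    refine Continuous.neg (Continuous.log ?_ fun u => (den_pos ε u).ne')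
    unfold den
    exact continuous_const.sub (continuous_const.mul (continuous_ver.comp continuous_subtype_val))
  have hne : {u : Sph k | c * ε < - Real.log (den ε u)}.Nonempty := by
    refine ⟨⟨up k, by simp [up]⟩, ?_⟩
    have h1 : den ε (⟨up k, by simp [up]⟩ : Sph k) = Real.exp (-ε) := by
      simp [den, ver, up, Real.cosh_sub_sinh]
    simp only [Set.mem_ofPred_eq, h1, Real.log_exp]
    nlinarith
  have hpos : 0 < (unif k) {u : Sph k | c * ε < - Real.log (den ε u)} := hU.measure_pos _ hne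
  have hsub : (fun ω : ℕ → Sph k => ω 0) ⁻¹' {u : Sph k | c * ε < - Real.log (den ε u)} ⊆
      BrH k c ε 1 := by
    intro ω hω
    simp only [Set.mem_preimage, Set.mem_ofPred_eq] at hω
    have ht : Real.log (chain ε ω 1).t = - Real.log (den ε (ω 0)) := by
      simp [chain, expPt]
    refine ⟨fun i j hij hj => ?_, fun j hj1 hj => ?_, fun j hj => ?_⟩
    · have hi : i = 0 := by omega
      have hj : j = 1 := by omega
      subst hi; subst hj
      have h4 := abs_log_le_hdist (chain ε ω 0) (chain ε ω 1)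
      have h5 := neg_abs_le (Real.log (chain ε ω 0).t - Real.log (chain ε ω 1).t)
      rw [chain_zero, Real.log_one, ht] at h4 h5
      linarith
    · have hj : j = 1 := by omega
      subst hj
      rw [ht]; exact hω
    · have hj : j = 0 := by omega
      subst hj
      rw [chain_zero, ← Real.log_pos_iff (chain ε ω 1).pos.le, ht]
      linarith [mul_nonneg hc0 hε.le]
  have h2 := (measurePreserving_eval_infinitePi (fun _ : ℕ => unif k) 0).measure_preimage
    hU.measurableSet.nullMeasurableSet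
  rw [measureReal_def, ENNReal.toReal_pos_iff]
  refine ⟨lt_of_lt_of_le ?_ (measure_mono hsub), measure_lt_top _ _⟩
  rw [h2]
  exact hpos

lemma BrH_pos {c : ℝ} (hc0 : 0 ≤ c) (hc : c < 1) {ε : ℝ} (hε : 0 < ε) (n : ℕ) :
    0 < (law k).real (BrH k c ε n) := by
  have h := BrH_pow_le (k := k) hc0 hε.le 1 n
  rw [mul_one] at h
  exact lt_of_lt_of_le (pow_pos (BrH_one_pos hc0 hc hε) n) h

lemma SAH_pos {c : ℝ} (hc0 : 0 ≤ c) (hc : c < 1) {ε : ℝ} (hε : 0 < ε) (n : ℕ) :
    0 < (law k) (SAH k c ε n) := by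
  have h := BrH_pos (k := k) hc0 hc hε n
  rw [measureReal_def, ENNReal.toReal_pos_iff] at h
  exact lt_of_lt_of_le h.1 (measure_mono fun ω hω => hω.1)

/-- One step is a bridge with positive probability. -/
lemma B_one_pos {c : ℝ} (hc0 : 0 ≤ c) (hc : c < 1) : 0 < B k c (up k) 1 := by
  have he : ‖up k‖ = 1 := norm_up
  have h1 : Caps (up k) (ap c) 1 ⊆ Br k c (up k) 1 := by
    intro ω hω
    have hf : c < ⟪up k, S ω 1⟫ := by
      have h2 := caps_forward hc0 hc he (by simpa using (ap_pos hc).le) hω (Nat.zero_le 1) le_rfl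
      have h3 := sp_gt hc
      rw [S_zero, sub_zero] at h2
      simp only [Nat.cast_one, Nat.cast_zero, sub_zero, mul_one] at h2
      linarith
    refine ⟨Caps_subset_SA hc0 hc he 1 hω, fun j hj1 hj => ?_, fun j hj => ?_⟩
    · have : j = 1 := by omega
      subst this; exact hf
    · have : j = 0 := by omega
      subst this
      rw [S_zero, inner_zero_right]
      linarith
  calc 0 < capP (up k) (ap c) ^ 1 := pow_pos (capP_pos he (ap_pos hc)) 1
    _ = (law k).real (Caps (up k) (ap c) 1) := (law_Caps _ _ _).symm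
    _ ≤ _ := measureReal_mono h1 (measure_ne_top _ _)

/-- The lower bound for the probability of self-avoidance. -/
lemma lower {c μ ρ : ℝ} (hc0 : 0 < c) (hc : c < 1) (hμ : IsMu k c μ) (hρ0 : 0 < ρ)
    (hρ : ρ < μ) : ∃ b : ℝ, 0 < b ∧ ∀ᶠ ε : ℝ in 𝓝[>] 0, ∀ n : ℕ,
      b * ρ ^ n ≤ (law k).real (SAH k c ε n) := by
  obtain ⟨m, hm, hB⟩ := bridge_growth hc0 hc hμ.pow_le hρ0 hρ (norm_up (k := k))
  have hρ1 : ρ ≤ 1 := hρ.le.trans hμ.le_one
  have hb1 := B_one_pos (k := k) hc0.le hc
  set b1 := B k c (up k) 1 / 2 with hb1def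
  have hb1' : 0 < b1 := by rw [hb1def]; linarith
  have hb1le : b1 ≤ 1 := by
    have : B k c (up k) 1 ≤ 1 := measureReal_le_one
    rw [hb1def]; linarith
  refine ⟨b1 ^ m, by positivity, ?_⟩
  filter_upwards [brh_ge (k := k) hc0 m (sub_pos.2 hB), brh_ge (k := k) hc0 1 hb1',
    self_mem_nhdsWithin] with ε h1 h2 hε n
  have hε' : 0 < ε := hε
  have h1' : ρ ^ m ≤ (law k).real (BrH k c ε m) := by linarith
  have h2' : b1 ≤ (law k).real (BrH k c ε 1) := by
    have : B k c (up k) 1 - b1 = b1 := by rw [hb1def]; ring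
    linarith
  have hn : n / m * m + n % m * 1 = n := by rw [mul_one]; exact Nat.div_add_mod' n m
  calc b1 ^ m * ρ ^ n ≤ b1 ^ (n % m) * ρ ^ (n / m * m) := by
        refine mul_le_mul ?_ ?_ (by positivity) (by positivity)
        · exact pow_le_pow_of_le_one hb1'.le hb1le (Nat.mod_lt n hm).le
        · exact pow_le_pow_of_le_one hρ0.le hρ1 (Nat.div_mul_le_self n m)
    _ = (ρ ^ m) ^ (n / m) * b1 ^ (n % m) := by rw [← pow_mul]; ring
    _ ≤ (law k).real (BrH k c ε m) ^ (n / m) * (law k).real (BrH k c ε 1) ^ (n % m) := by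
        gcongr
    _ ≤ (law k).real (BrH k c ε (n / m * m)) * (law k).real (BrH k c ε (n % m * 1)) :=
        mul_le_mul (BrH_pow_le hc0.le hε'.le _ _) (BrH_pow_le hc0.le hε'.le _ _)
          (by positivity) measureReal_nonneg
    _ ≤ (law k).real (BrH k c ε (n / m * m + n % m * 1)) := BrH_supermul hc0.le hε'.le _ _
    _ ≤ (law k).real (SAH k c ε n) := by
        rw [hn]
        exact measureReal_mono (fun ω hω => hω.1) (measure_ne_top _ _)

lemma hdist_step (ε : ℝ) (hε : 0 ≤ ε) (ω : ℕ → Sph k) (i : ℕ) :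
    hdist (chain ε ω i) (chain ε ω (i + 1)) ≤ ε := by
  have h := hdist_expPt (chain ε ω i) (ω i) 0 ε
  have e : expPt (chain ε ω i) 0 (ω i) = chain ε ω i := by
    ext <;> simp [expPt, den]
  rw [e, zero_sub, abs_neg, abs_of_nonneg hε] at h
  exact h.le

lemma hdist_le (ε : ℝ) (hε : 0 ≤ ε) (ω : ℕ → Sph k) (i l : ℕ) :
    hdist (chain ε ω i) (chain ε ω (i + l)) ≤ l * ε := by
  induction l with
  | zero => simp [hdist_self]
  | succ l ih =>
    have h1 := hdist_triangle (chain ε ω i) (chain ε ω (i + l)) (chain ε ω (i + (l + 1)))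
    have h2 := hdist_step ε hε ω (i + l)
    rw [add_assoc] at h2
    push_cast
    linarith

open Classical in
/-- The displacement in terms of the number of fast blocks. -/
lemma hdist_blocks (ε v : ℝ) (hε : 0 ≤ ε) (hv : 0 ≤ v) (ω : ℕ → Sph k) (m N : ℕ) :
    hdist (chain ε ω 0) (chain ε ω (N * m)) ≤ N * (v * m * ε) +
      (({j ∈ Finset.range N | v * m * ε ≤ hdist (chain ε (shift (j * m) ω) 0)
        (chain ε (shift (j * m) ω) m)} : Finset ℕ).card : ℝ) * (m * ε) := by
  induction N with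
  | zero => simp [hdist_self]
  | succ N ih =>
    have h1 := hdist_triangle (chain ε ω 0) (chain ε ω (N * m)) (chain ε ω ((N + 1) * m))
    have h2 : hdist (chain ε ω (N * m)) (chain ε ω ((N + 1) * m)) =
        hdist (chain ε (shift (N * m) ω) 0) (chain ε (shift (N * m) ω) m) := by
      rw [← hdist_chain_shift]
      congr 2
      ring
    have h3 : hdist (chain ε (shift (N * m) ω) 0) (chain ε (shift (N * m) ω) m) ≤ m * ε := by
      have := hdist_le ε hε (shift (N * m) ω) 0 m
      rwa [zero_add] at this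
    have h4 : 0 ≤ v * m * ε := by positivity
    have h5 : (0 : ℝ) ≤ m * ε := by positivity
    rw [Finset.range_add_one, Finset.filter_insert]
    split_ifs with h
    · rw [Finset.card_insert_of_notMem (by simp)]
      push_cast
      nlinarith
    · push Not at h
      push_cast
      nlinarith

/-- Few fast blocks. -/
lemma upper (hk : 1 ≤ k) {c μ : ℝ} (hc0 : 0 < c) (hc : c < 1) (hμ : IsMu k c μ) {v a : ℝ}
    (hv : 0 < v) (ha : 0 < a) : ∃ γ > 0, ∃ m : ℕ, 1 ≤ m ∧ ∀ᶠ ε : ℝ in 𝓝[>] 0, ∀ N : ℕ,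
      (law k).real {ω | (∀ j < N, shift (j * m) ω ∈ SAH k c ε m) ∧
        ∃ T ⊆ Finset.range N, a * N ≤ (T.card : ℝ) ∧ ∀ j ∈ T, shift (j * m) ω ∈
          {ω | ω ∈ SAH k c ε m ∧ v * m * ε ≤ hdist (chain ε ω 0) (chain ε ω m)}} ≤
        (μ ^ m * Real.exp (-(2 * γ * m))) ^ N := by
  obtain ⟨ρ, hρ0, hρ, C, hC⟩ := slow_all hk hc0 hc hμ hv
  have hμ0 := hμ.pos
  set g : ℝ := Real.log (μ / ρ) / 2 with hg
  have hg0 : 0 < g := by
    rw [hg]
    have : 0 < Real.log (μ / ρ) := Real.log_pos (by rw [lt_div_iff₀ hρ0]; linarith)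
    linarith
  have hρg : ρ = μ * Real.exp (-(2 * g)) := by
    rw [hg, mul_div_cancel₀ _ (two_ne_zero), Real.exp_neg, Real.exp_log (by positivity)]
    field_simp
  set r : ℝ := a * g / 4 with hr
  have hr0 : 0 < r := by positivity
  have hexp : ∀ (x : ℝ) (n : ℕ), Real.exp x ^ n = Real.exp (x * n) := by
    intro x n; rw [← Real.exp_nat_mul]; congr 1; ring
  -- eventual conditions on m
  have e1 : ∀ᶠ m : ℕ in atTop, Z k c m ≤ (μ * Real.exp (r / 2)) ^ m := by
    obtain ⟨N, hN⟩ := hμ.eventually_le (μ * Real.exp (r / 2)) (by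
      have : 1 < Real.exp (r / 2) := Real.one_lt_exp_iff.2 (by linarith)
      nlinarith)
    filter_upwards [eventually_ge_atTop N] with m hm using hN m hm
  have e2 : ∀ᶠ m : ℕ in atTop, C * Real.exp (-g * m) ≤ 1 / 2 := by
    have h : Tendsto (fun m : ℕ => C * Real.exp (-g * m)) atTop (𝓝 (C * 0)) := by
      refine Tendsto.const_mul _ ?_
      refine Real.tendsto_exp_atBot.comp ?_
      exact (tendsto_natCast_atTop_atTop).const_mul_atTop_of_neg (by linarith)
    rw [mul_zero] at h
    exact (h.eventually (gt_mem_nhds (show (0 : ℝ) < 1 / 2 by norm_num))).mono fun m h => h.le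
  have e3 : ∀ᶠ m : ℕ in atTop, 2 ≤ Real.exp (r * m) := by
    have h : Tendsto (fun m : ℕ => Real.exp (r * m)) atTop atTop :=
      Real.tendsto_exp_atTop.comp ((tendsto_natCast_atTop_atTop).const_mul_atTop hr0)
    exact h.eventually_ge_atTop 2
  obtain ⟨m, h1, h2, h3, h4⟩ := (e1.and (e2.and (e3.and (eventually_ge_atTop 1)))).exists
  refine ⟨r, hr0, m, h4, ?_⟩
  have hm0 : (0 : ℝ) < m := by exact_mod_cast h4
  have hη1 : 0 < μ ^ m * Real.exp (-g * m) / 2 := by positivity
  have hη2 : 0 < μ ^ m * (Real.exp (r * m) - Real.exp (r / 2 * m)) := by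
    have : Real.exp (r / 2 * m) < Real.exp (r * m) := Real.exp_lt_exp.2 (by nlinarith)
    have h5 : 0 < Real.exp (r * m) - Real.exp (r / 2 * m) := by linarith
    positivity
  filter_upwards [sah_fast_le hk hc0 hc m v hη1, sah_le hk hc0 hc m hη2] with ε h5 h6 N
  have hA : (law k).real {ω | ω ∈ SAH k c ε m ∧ v * m * ε ≤ hdist (chain ε ω 0) (chain ε ω m)} ≤
      μ ^ m * Real.exp (-g * m) := by
    refine h5.trans ?_
    have h7 : (law k).real {ω | ω ∈ SA k c m ∧ v * m ≤ ‖S ω m‖} ≤
        μ ^ m * Real.exp (-g * m) / 2 := by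
      calc _ ≤ C * ρ ^ m := hC m
        _ = μ ^ m * Real.exp (-g * m) * (C * Real.exp (-g * m)) := by
            rw [hρg, mul_pow, hexp]
            have : Real.exp (-(2 * g) * m) = Real.exp (-g * m) * Real.exp (-g * m) := by
              rw [← Real.exp_add]; congr 1; ring
            rw [this]; ring
        _ ≤ μ ^ m * Real.exp (-g * m) * (1 / 2) := by gcongr
        _ = _ := by ring
    linarith
  have hB : (law k).real (SAH k c ε m) ≤ μ ^ m * Real.exp (r * m) := by
    refine h6.trans ?_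
    have h7 : Z k c m ≤ μ ^ m * Real.exp (r / 2 * m) := by
      rw [mul_pow, hexp] at h1; exact h1
    linarith
  have ht : 1 ≤ Real.exp (g * m) := Real.one_le_exp (by positivity)
  refine (real_many_blocks (unif k) m (A := {ω | ω ∈ SAH k c ε m ∧
    v * m * ε ≤ hdist (chain ε ω 0) (chain ε ω m)}) (B := SAH k c ε m) ?_
    (measurableSet_SAH c ε m) ?_ (dep_SAH c ε m) N (a * N) (Real.exp (g * m)) ht).trans ?_
  · exact (measurableSet_SAH c ε m).inter
      (measurableSet_le measurable_const (measurable_hd ε 0 m))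
  · intro ω ω' h
    have h8 : chain ε ω m = chain ε ω' m := chain_congr ε h
    have h9 : chain ε ω 0 = chain ε ω' 0 := rfl
    rw [Set.mem_ofPred_eq, Set.mem_ofPred_eq, h8, h9]
    exact and_congr_left fun _ => dep_SAH c ε m ω ω' h
  · have h7 : Real.exp (g * m) * (law k).real {ω | ω ∈ SAH k c ε m ∧
        v * m * ε ≤ hdist (chain ε ω 0) (chain ε ω m)} + (law k).real (SAH k c ε m) ≤
        2 * (μ ^ m * Real.exp (r * m)) := by
      have h8 : Real.exp (g * m) * (law k).real {ω | ω ∈ SAH k c ε m ∧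
          v * m * ε ≤ hdist (chain ε ω 0) (chain ε ω m)} ≤ μ ^ m := by
        calc _ ≤ Real.exp (g * m) * (μ ^ m * Real.exp (-g * m)) := by gcongr
          _ = μ ^ m * (Real.exp (g * m) * Real.exp (-g * m)) := by ring
          _ = μ ^ m := by
              rw [← Real.exp_add]
              have : g * m + -g * m = 0 := by ring
              rw [this, Real.exp_zero, mul_one]
      have h9 : μ ^ m ≤ μ ^ m * Real.exp (r * m) := by
        have : 1 ≤ Real.exp (r * m) := Real.one_le_exp (by positivity)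
        have h10 : 0 < μ ^ m := by positivity
        nlinarith
      linarith
    have h8 : Real.exp (g * m) ^ (-(a * N)) = (Real.exp (-(g * m * a))) ^ N := by
      rw [hexp, ← Real.exp_mul]; congr 1; ring
    rw [h8, ← mul_pow]
    have h9 : Real.exp (-(g * m * a)) * (Real.exp (g * m) * (law k).real {ω | ω ∈ SAH k c ε m ∧
        v * m * ε ≤ hdist (chain ε ω 0) (chain ε ω m)} + (law k).real (SAH k c ε m)) ≤
        μ ^ m * Real.exp (-(2 * r * m)) := by
      calc _ ≤ Real.exp (-(g * m * a)) * (2 * (μ ^ m * Real.exp (r * m))) := by gcongr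
        _ ≤ Real.exp (-(g * m * a)) * (Real.exp (r * m) * (μ ^ m * Real.exp (r * m))) := by
            gcongr
        _ = μ ^ m * (Real.exp (-(g * m * a)) * Real.exp (r * m) * Real.exp (r * m)) := by ring
        _ = μ ^ m * Real.exp (-(2 * r * m)) := by
            rw [← Real.exp_add, ← Real.exp_add]
            congr 2
            rw [hr]; ring
    refine pow_le_pow_left₀ ?_ h9 N
    positivity

/-- Exponential decay of the conditional probability of a macroscopic displacement. -/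
lemma decay (hk : 1 ≤ k) {c : ℝ} (hc0 : 0 < c) (hc : c < 1) {δ : ℝ} (hδ : 0 < δ) :
    ∃ K γ : ℝ, 0 < γ ∧ ∀ᶠ n : ℕ in atTop,
      (law k).real (SAH k c (1 / n) n ∩
        {ω | δ ≤ hdist (chain (1 / n) ω 0) (chain (1 / n) ω n)}) ≤
      K * Real.exp (-γ * n) * (law k).real (SAH k c (1 / n) n) := by
  classical
  obtain ⟨μ, hμ⟩ := exists_isMu (k := k) hc0.le hc
  have hμ0 := hμ.pos
  obtain ⟨γ, hγ, m, hm, hup⟩ := upper hk hc0 hc hμ (v := δ / 2) (a := δ / 4) (by linarith)
    (by linarith)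
  have hexp : ∀ (x : ℝ) (n : ℕ), Real.exp x ^ n = Real.exp (x * n) := by
    intro x n; rw [← Real.exp_nat_mul]; congr 1; ring
  have hρ : μ * Real.exp (-γ) < μ := by
    have : Real.exp (-γ) < 1 := Real.exp_lt_one_iff.2 (by linarith)
    nlinarith
  obtain ⟨b, hb, hlow⟩ := lower (k := k) hc0 hc hμ (by positivity) hρ
  refine ⟨(μ ^ m)⁻¹ * Real.exp (2 * γ * m) / b, γ, hγ, ?_⟩
  have hlim : Tendsto (fun n : ℕ => (1 : ℝ) / n) atTop (𝓝[>] 0) := by
    refine tendsto_nhdsWithin_iff.2 ⟨tendsto_one_div_atTop_nhds_zero_nat, ?_⟩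
    filter_upwards [eventually_gt_atTop 0] with n hn
    have : (0 : ℝ) < n := by exact_mod_cast hn
    exact Set.mem_Ioi.2 (by positivity)
  have hsmall : ∀ᶠ n : ℕ in atTop, (m : ℝ) * (1 / n) < δ / 4 := by
    have h : Tendsto (fun n : ℕ => (m : ℝ) * (1 / n)) atTop (𝓝 (m * 0)) :=
      tendsto_one_div_atTop_nhds_zero_nat.const_mul _
    rw [mul_zero] at h
    exact h.eventually (gt_mem_nhds (by linarith))
  filter_upwards [hlim.eventually hup, hlim.eventually hlow, hsmall, eventually_ge_atTop m,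
    eventually_gt_atTop 0] with n h1 h2 h3 h4 h5
  have hn0 : (0 : ℝ) < n := by exact_mod_cast h5
  set ε : ℝ := 1 / n with hε
  have hε0 : 0 < ε := by positivity
  have hnε : n * ε = 1 := by rw [hε]; field_simp
  set N := n / m with hN
  set s := n % m with hs
  have hns : N * m + s = n := Nat.div_add_mod' n m
  have hsm : s < m := Nat.mod_lt n hm
  have hsm' : (s : ℝ) ≤ m := by exact_mod_cast hsm.le
  have hNm : (N : ℝ) * m ≤ n := by
    have : N * m ≤ n := Nat.div_mul_le_self n m
    exact_mod_cast this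
  have hsub : SAH k c ε n ∩ {ω | δ ≤ hdist (chain ε ω 0) (chain ε ω n)} ⊆
      {ω | (∀ j < N, shift (j * m) ω ∈ SAH k c ε m) ∧
        ∃ T ⊆ Finset.range N, δ / 4 * N ≤ (T.card : ℝ) ∧ ∀ j ∈ T, shift (j * m) ω ∈
          {ω | ω ∈ SAH k c ε m ∧ δ / 2 * m * ε ≤ hdist (chain ε ω 0) (chain ε ω m)}} := by
    rintro ω ⟨hω1, hω2⟩
    rw [Set.mem_ofPred_eq] at hω2
    have hblk : ∀ j < N, shift (j * m) ω ∈ SAH k c ε m := by
      intro j hj
      refine SAH_shift ?_ hω1
      calc j * m + m = (j + 1) * m := by ring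
        _ ≤ N * m := Nat.mul_le_mul_right _ hj
        _ ≤ n := by omega
    refine ⟨hblk, {j ∈ Finset.range N | δ / 2 * m * ε ≤ hdist (chain ε (shift (j * m) ω) 0)
        (chain ε (shift (j * m) ω) m)}, Finset.filter_subset _ _, ?_, ?_⟩
    · by_contra hlt
      push Not at hlt
      have g1 := hdist_blocks ε (δ / 2) hε0.le (by linarith) ω m N
      have g2 := hdist_le ε hε0.le ω (N * m) s
      rw [hns] at g2
      have g3 := hdist_triangle (chain ε ω 0) (chain ε ω (N * m)) (chain ε ω n)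
      have g4 : (N : ℝ) * (δ / 2 * m * ε) ≤ δ / 2 := by
        have : (N : ℝ) * m * ε ≤ 1 := by rw [← hnε]; gcongr
        nlinarith
      have g5 : (({j ∈ Finset.range N | δ / 2 * m * ε ≤ hdist (chain ε (shift (j * m) ω) 0)
        (chain ε (shift (j * m) ω) m)} : Finset ℕ).card : ℝ) * (m * ε) ≤ δ / 4 := by
        have h6 : (0 : ℝ) ≤ m * ε := by positivity
        calc _ ≤ δ / 4 * N * (m * ε) := mul_le_mul_of_nonneg_right hlt.le h6
          _ = δ / 4 * (N * m * ε) := by ring
          _ ≤ δ / 4 * (n * ε) := by gcongr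
          _ = δ / 4 := by rw [hnε, mul_one]
      have g6 : (s : ℝ) * ε ≤ m * ε := by gcongr
      linarith
    · intro j hj
      rw [Finset.mem_filter, Finset.mem_range] at hj
      exact ⟨hblk j hj.1, hj.2⟩
  have g1 := (measureReal_mono hsub (measure_ne_top (law k) _)).trans (h1 N)
  refine g1.trans ?_
  have g2 : (μ ^ m * Real.exp (-(2 * γ * m))) ^ N =
      μ ^ (N * m) * Real.exp (-(2 * γ) * ((N : ℝ) * m)) := by
    rw [mul_pow, ← pow_mul, hexp, mul_comm m N]
    congr 2
    ring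
  have g3 : μ ^ (N * m) ≤ (μ ^ m)⁻¹ * μ ^ n := by
    have e1 : μ ^ n = μ ^ (N * m) * μ ^ s := by rw [← pow_add, hns]
    have e2 : μ ^ m ≤ μ ^ s := pow_le_pow_of_le_one hμ0.le hμ.le_one hsm.le
    rw [e1, ← mul_assoc, mul_comm (μ ^ m)⁻¹, mul_assoc]
    have e3 : 1 ≤ (μ ^ m)⁻¹ * μ ^ s := by
      rw [← div_eq_inv_mul, one_le_div (by positivity)]; exact e2
    have e4 : 0 < μ ^ (N * m) := by positivity
    nlinarith
  have g4 : Real.exp (-(2 * γ) * ((N : ℝ) * m)) ≤
      Real.exp (2 * γ * m) * Real.exp (-(2 * γ) * n) := by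
    rw [← Real.exp_add]
    refine Real.exp_le_exp.2 ?_
    have e1 : (n : ℝ) = N * m + s := by rw [← hns]; push_cast; ring
    have e2 : (n : ℝ) ≤ N * m + m := by rw [e1]; linarith
    nlinarith
  have g5 : b * (μ * Real.exp (-γ)) ^ n ≤ (law k).real (SAH k c ε n) := h2 n
  have g6 : μ ^ n * Real.exp (-(2 * γ) * n) = (μ * Real.exp (-γ)) ^ n * Real.exp (-γ * n) := by
    rw [mul_pow, hexp, mul_assoc, ← Real.exp_add]
    congr 2
    ring
  rw [g2]
  calc μ ^ (N * m) * Real.exp (-(2 * γ) * ((N : ℝ) * m)) ≤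
        ((μ ^ m)⁻¹ * μ ^ n) * (Real.exp (2 * γ * m) * Real.exp (-(2 * γ) * n)) := by
        gcongr
    _ = (μ ^ m)⁻¹ * Real.exp (2 * γ * m) * (μ ^ n * Real.exp (-(2 * γ) * n)) := by ring
    _ = (μ ^ m)⁻¹ * Real.exp (2 * γ * m) / b * Real.exp (-γ * n) *
          (b * (μ * Real.exp (-γ)) ^ n) := by
        rw [g6]; field_simp
    _ ≤ _ := by gcongr

end Fin8

open Fin8 Lim in
theorem final (hk : 1 ≤ k) {c : ℝ} (hc0 : 0 < c) (hc : c < 1) :
    (∀ ε : ℝ, 0 < ε → ∀ n : ℕ, 0 < (law k) (SAH k c ε n)) ∧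
    Tendsto (fun n : ℕ => ∫ ω, hdist (chain (1 / n) ω 0) (chain (1 / n) ω n)
      ∂(ProbabilityTheory.cond (law k) (SAH k c (1 / n) n))) atTop (𝓝 0) := by
  refine ⟨fun ε hε n => SAH_pos hc0.le hc hε n, ?_⟩
  rw [Metric.tendsto_atTop']
  intro δ hδ
  obtain ⟨K, γ, hγ, hdec⟩ := decay hk hc0 hc (half_pos hδ)
  have hlim : Tendsto (fun n : ℕ => K * Real.exp (-γ * n)) atTop (𝓝 (K * 0)) := by
    refine Tendsto.const_mul _ (Real.tendsto_exp_atBot.comp ?_)
    exact (tendsto_natCast_atTop_atTop).const_mul_atTop_of_neg (by linarith)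
  rw [mul_zero] at hlim
  have hev := (hdec.and (hlim.eventually (gt_mem_nhds (half_pos hδ)))).and (eventually_gt_atTop 0)
  obtain ⟨n0, hn0⟩ := eventually_atTop.1 hev
  refine ⟨n0, fun n hn => ?_⟩
  obtain ⟨⟨h1, h2⟩, h3⟩ := hn0 n hn.le
  have hnpos : (0 : ℝ) < n := by exact_mod_cast h3
  set ε : ℝ := 1 / n with hε
  have hε0 : 0 < ε := by positivity
  have hnε : n * ε = 1 := by rw [hε]; field_simp
  have hne : law k (SAH k c ε n) ≠ 0 := (SAH_pos hc0.le hc hε0 n).ne'
  have hpos : 0 < (law k).real (SAH k c ε n) := by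
    rw [measureReal_def, ENNReal.toReal_pos_iff]
    exact ⟨SAH_pos hc0.le hc hε0 n, measure_lt_top _ _⟩
  have : IsProbabilityMeasure (ProbabilityTheory.cond (law k) (SAH k c ε n)) :=
    ProbabilityTheory.cond_isProbabilityMeasure hne
  have hm := measurable_hd (k := k) ε 0 n
  have hb0 : ∀ ω : ℕ → Sph k, 0 ≤ hdist (chain ε ω 0) (chain ε ω n) := fun ω => hdist_nonneg _ _
  have hb1 : ∀ ω : ℕ → Sph k, hdist (chain ε ω 0) (chain ε ω n) ≤ 1 := by
    intro ω
    have := hdist_le ε hε0.le ω 0 n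
    rwa [zero_add, hnε] at this
  set D : Set (ℕ → Sph k) := {ω | δ / 2 ≤ hdist (chain ε ω 0) (chain ε ω n)} with hD
  have hDm : MeasurableSet D := measurableSet_le measurable_const hm
  have hint : Integrable (fun ω : ℕ → Sph k => hdist (chain ε ω 0) (chain ε ω n))
      (ProbabilityTheory.cond (law k) (SAH k c ε n)) := by
    refine Integrable.of_bound hm.aestronglyMeasurable 1 (Filter.Eventually.of_forall fun ω => ?_)
    rw [Real.norm_of_nonneg (hb0 ω)]
    exact hb1 ω
  have hle : ∫ ω, hdist (chain ε ω 0) (chain ε ω n)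
      ∂(ProbabilityTheory.cond (law k) (SAH k c ε n)) ≤ ∫ ω, (δ / 2 + D.indicator (fun _ => (1 : ℝ)) ω)
      ∂(ProbabilityTheory.cond (law k) (SAH k c ε n)) := by
    refine integral_mono hint ?_ fun ω => ?_
    · exact (integrable_const _).add ((integrable_const _).indicator hDm)
    · by_cases h : ω ∈ D
      · simp only [Set.indicator_of_mem h]
        have := hb1 ω
        linarith
      · simp only [Set.indicator_of_notMem h]
        have : hdist (chain ε ω 0) (chain ε ω n) < δ / 2 := not_le.1 h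
        linarith
  have hval : ∫ ω, (δ / 2 + D.indicator (fun _ => (1 : ℝ)) ω)
      ∂(ProbabilityTheory.cond (law k) (SAH k c ε n)) =
      δ / 2 + (ProbabilityTheory.cond (law k) (SAH k c ε n)).real D := by
    rw [integral_add (integrable_const _) ((integrable_const _).indicator hDm),
      integral_indicator_const _ hDm]
    simp
  have hcond : (ProbabilityTheory.cond (law k) (SAH k c ε n)).real D ≤ K * Real.exp (-γ * n) := by
    rw [measureReal_def, ProbabilityTheory.cond_apply (measurableSet_SAH c ε n),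
      ENNReal.toReal_mul, ENNReal.toReal_inv, ← measureReal_def, ← measureReal_def,
      inv_mul_le_iff₀ hpos, mul_comm]
    exact h1
  rw [Real.dist_eq, sub_zero, abs_of_nonneg (integral_nonneg fun ω => hb0 ω)]
  linarith

end Pool.Agent.HypSAW98
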