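import Pool.Agent.HypSAW98.Comb
import Pool.Agent.HypSAW98.FewFast

/-!
# Good slots give pieces (package D3, deterministic part)
-/

open MeasureTheory Set Filter Topology
open scoped RealInnerProductSpace

namespace Pool.Agent.HypSAW98.SlowAll

variable {k : ℕ}

/-- The deviation of the block number `j` (of length `m`) from a straight motion with speed `v` in
direction `e`. -/
noncomputable def del (e : Euc k) (v : ℝ) (m : ℕ) (ω : ℕ → Sph k) (j : ℕ) : ℝ :=
  max (v - ⟪e, S (shift (j * m) ω) m⟫ / m) 0 + max (‖S (shift (j * m) ω) m‖ / m - v) 0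

lemma del_nonneg (e : Euc k) (v : ℝ) (m : ℕ) (ω : ℕ → Sph k) (j : ℕ) : 0 ≤ del e v m ω j :=
  add_nonneg (le_max_right _ _) (le_max_right _ _)

lemma S_block (ω : ℕ → Sph k) (m j : ℕ) :
    S (shift (j * m) ω) m = S ω ((j + 1) * m) - S ω (j * m) := by
  have : (j + 1) * m = j * m + m := by ring
  rw [this, S_add]; abel

lemma slot_diff (ω : ℕ → Sph k) (m : ℕ) {i j : ℕ} (hij : i ≤ j) :
    S ω (j * m) - S ω (i * m) = ∑ t ∈ Finset.Ico i j, S (shift (t * m) ω) m := by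
  rw [Finset.sum_congr rfl fun t _ => S_block ω m t]
  exact (Finset.sum_Ico_sub (fun t => S ω (t * m)) hij).symm

lemma inner_block_ge (e : Euc k) (v : ℝ) {m : ℕ} (hm : 1 ≤ m) (ω : ℕ → Sph k) (j : ℕ) :
    m * (v - del e v m ω j) ≤ ⟪e, S (shift (j * m) ω) m⟫ := by
  have hm' : (0 : ℝ) < m := by exact_mod_cast hm
  have h1 : v - ⟪e, S (shift (j * m) ω) m⟫ / m ≤ del e v m ω j := by
    unfold del
    have := le_max_left (v - ⟪e, S (shift (j * m) ω) m⟫ / m) 0
    have h2 := le_max_right (‖S (shift (j * m) ω) m‖ / m - v) 0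
    linarith
  have h2 : v - del e v m ω j ≤ ⟪e, S (shift (j * m) ω) m⟫ / m := by linarith
  rw [le_div_iff₀ hm'] at h2
  linarith

lemma norm_block_le (e : Euc k) (v : ℝ) {m : ℕ} (hm : 1 ≤ m) (ω : ℕ → Sph k) (j : ℕ) :
    ‖S (shift (j * m) ω) m‖ ≤ m * (v + del e v m ω j) := by
  have hm' : (0 : ℝ) < m := by exact_mod_cast hm
  have h1 : ‖S (shift (j * m) ω) m‖ / m - v ≤ del e v m ω j := by
    unfold del
    have := le_max_right (v - ⟪e, S (shift (j * m) ω) m⟫ / m) 0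
    have h2 := le_max_left (‖S (shift (j * m) ω) m‖ / m - v) 0
    linarith
  have h2 : ‖S (shift (j * m) ω) m‖ / m ≤ v + del e v m ω j := by linarith
  rw [div_le_iff₀ hm'] at h2
  linarith

lemma slots_inner (e : Euc k) (v : ℝ) {m : ℕ} (hm : 1 ≤ m) (ω : ℕ → Sph k) {i j : ℕ}
    (hij : i ≤ j) (h : ∑ t ∈ Finset.Ico i j, del e v m ω t ≤ v / 2 * ((j : ℝ) - i)) :
    v / 2 * m * ((j : ℝ) - i) ≤ ⟪e, S ω (j * m) - S ω (i * m)⟫ := by
  rw [slot_diff ω m hij, inner_sum]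
  have h1 : ∑ t ∈ Finset.Ico i j, (m : ℝ) * (v - del e v m ω t) ≤
      ∑ t ∈ Finset.Ico i j, ⟪e, S (shift (t * m) ω) m⟫ :=
    Finset.sum_le_sum fun t _ => inner_block_ge e v hm ω t
  refine le_trans ?_ h1
  rw [← Finset.mul_sum, Finset.sum_sub_distrib, Finset.sum_const, Nat.card_Ico, nsmul_eq_mul,
    Nat.cast_sub hij]
  have hm' : (0 : ℝ) < m := by exact_mod_cast hm
  nlinarith

lemma slots_norm (e : Euc k) (v : ℝ) {m : ℕ} (hm : 1 ≤ m) (ω : ℕ → Sph k) {i j : ℕ}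
    (hij : i ≤ j) (h : ∑ t ∈ Finset.Ico i j, del e v m ω t ≤ v / 2 * ((j : ℝ) - i)) :
    ‖S ω (j * m) - S ω (i * m)‖ ≤ 3 / 2 * v * m * ((j : ℝ) - i) := by
  rw [slot_diff ω m hij]
  refine (norm_sum_le _ _).trans ?_
  have h1 : ∑ t ∈ Finset.Ico i j, ‖S (shift (t * m) ω) m‖ ≤
      ∑ t ∈ Finset.Ico i j, (m : ℝ) * (v + del e v m ω t) :=
    Finset.sum_le_sum fun t _ => norm_block_le e v hm ω t
  refine le_trans h1 ?_
  rw [← Finset.mul_sum, Finset.sum_add_distrib, Finset.sum_const, Nat.card_Ico, nsmul_eq_mul,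
    Nat.cast_sub hij]
  have hm' : (0 : ℝ) < m := by exact_mod_cast hm
  nlinarith

lemma Good.fwd {n : ℕ} {δ : ℕ → ℝ} {β : ℝ} {i : ℕ} (h : Good n δ β i) {j : ℕ} (hij : i ≤ j)
    (hj : j ≤ n) : ∑ t ∈ Finset.Ico i j, δ t ≤ β * ((j : ℝ) - i) := by
  rcases hij.lt_or_eq with h1 | h1
  · exact h.1 j h1 hj
  · subst h1; simp

lemma Good.bwd {n : ℕ} {δ : ℕ → ℝ} {β : ℝ} {i : ℕ} (h : Good n δ β i) {j : ℕ} (hij : j ≤ i) :
    ∑ t ∈ Finset.Ico j i, δ t ≤ β * ((i : ℝ) - j) := by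
  rcases hij.lt_or_eq with h1 | h1
  · exact h.2 j h1
  · subst h1; simp

lemma near_slot (ω : ℕ → Sph k) (i s : ℕ) {m : ℕ} (hm : 1 ≤ m) :
    ‖S ω (i * m + s) - S ω ((i + s / m) * m)‖ ≤ m := by
  have h1 : (i + s / m) * m ≤ i * m + s := by
    have := Nat.div_mul_le_self s m
    nlinarith
  refine (norm_S_sub_le ω h1).trans ?_
  have h2 := Nat.lt_div_mul_add (a := s) (b := m) (by omega)
  have h3 : (s : ℝ) < ((s / m : ℕ) : ℝ) * m + m := by exact_mod_cast h2
  push_cast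
  nlinarith

/-- The part of the walk between two good slots is a piece. -/
lemma piece_of_good {c : ℝ} (hc0 : 0 < c) {e : Euc k} (he : ‖e‖ = 1) {v : ℝ}
    (hv0 : 0 < v) {m : ℕ} (hm : 1 ≤ m) {C : ℕ} (hC : (m : ℝ) * (2 / v + 2) ≤ C)
    {W : Finset (Euc k)} (hW : ∀ w ∈ W, ‖w‖ = 1 ∧ ‖w - e‖ ≤ ap c) {n : ℕ} {ω : ℕ → Sph k}
    (hSA : ω ∈ SA k c (n * m)) {i j : ℕ} (hij : i < j) (hj : j ≤ n)
    (hi' : Good n (del e v m ω) (v / 2) i) (hj' : Good n (del e v m ω) (v / 2) j) :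
    shift (i * m) ω ∈ Pc c e W (m : ℝ) C ((j - i) * m) := by
  have hm' : (0 : ℝ) < m := by exact_mod_cast hm
  have hlen : i * m + (j - i) * m = j * m := by
    rw [← add_mul]; congr 1; omega
  have hsh : ∀ s, S (shift (i * m) ω) s = S ω (i * m + s) - S ω (i * m) := by
    intro s; rw [S_add]; abel
  -- slots in between
  have hslot : ∀ s ≤ (j - i) * m, i + s / m ≤ j := by
    intro s hs
    have : s / m ≤ j - i := by
      calc s / m ≤ ((j - i) * m) / m := Nat.div_le_div_right hs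
        _ = j - i := Nat.mul_div_cancel _ (by omega)
    omega
  -- bounds with respect to the slots
  have hL : ∀ s ≤ (j - i) * m, v / 2 * m * ((s / m : ℕ) : ℝ) ≤
      ⟪e, S ω ((i + s / m) * m) - S ω (i * m)⟫ ∧
      ‖S ω ((i + s / m) * m) - S ω (i * m)‖ ≤ 3 / 2 * v * m * ((s / m : ℕ) : ℝ) := by
    intro s hs
    have h1 := Good.fwd hi' (Nat.le_add_right i (s / m)) ((hslot s hs).trans hj)
    have h2 := slots_inner e v hm ω (Nat.le_add_right i (s / m)) h1
    have h3 := slots_norm e v hm ω (Nat.le_add_right i (s / m)) h1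
    push_cast at h2 h3
    simp only [add_sub_cancel_left] at h2 h3
    exact ⟨h2, h3⟩
  have hR : ∀ s ≤ (j - i) * m, v / 2 * m * ((j : ℝ) - (i + s / m : ℕ)) ≤
      ⟪e, S ω (j * m) - S ω ((i + s / m) * m)⟫ ∧
      ‖S ω (j * m) - S ω ((i + s / m) * m)‖ ≤ 3 / 2 * v * m * ((j : ℝ) - (i + s / m : ℕ)) := by
    intro s hs
    have h1 := Good.bwd hj' (hslot s hs)
    exact ⟨slots_inner e v hm ω (hslot s hs) h1, slots_norm e v hm ω (hslot s hs) h1⟩
  -- lower bound in direction close to `e`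
  have hclose : ∀ w ∈ W, ∀ x : Euc k, ∀ a : ℝ, 0 ≤ a → v / 2 * m * a ≤ ⟪e, x⟫ →
      ‖x‖ ≤ 3 / 2 * v * m * a → 0 ≤ ⟪w, x⟫ := by
    intro w hw x a ha h1 h2
    obtain ⟨hw1, hw2⟩ := hW w hw
    have h3 : |⟪w - e, x⟫| ≤ ‖w - e‖ * ‖x‖ := abs_real_inner_le_norm _ _
    have h4 : ‖w - e‖ * ‖x‖ ≤ 1 / 3 * (3 / 2 * v * m * a) := by
      have := ap_le hc0.le
      have h5 : ‖w - e‖ ≤ 1 / 3 := hw2.trans this
      exact mul_le_mul h5 h2 (norm_nonneg _) (by norm_num)
    have h5 := (abs_le.1 h3).1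
    rw [inner_sub_left] at h5
    linarith
  refine ⟨?_, ?_, ?_, ?_⟩
  · refine SA_shift ?_ hSA
    rw [hlen]
    exact Nat.mul_le_mul_right m hj
  · intro w hw s hs
    obtain ⟨hw1, hw2⟩ := hW w hw
    have hnear := near_slot ω i s hm
    have h0 : 0 ≤ (j : ℝ) - (i + s / m : ℕ) := by
      have : ((i + s / m : ℕ) : ℝ) ≤ j := by exact_mod_cast hslot s hs
      linarith
    have h1 := hclose w hw _ _ (Nat.cast_nonneg _) (hL s hs).1 (hL s hs).2
    have h2 := hclose w hw _ _ h0 (hR s hs).1 (hR s hs).2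
    have h3 := (abs_le.1 (abs_real_inner_le_norm w (S ω (i * m + s) - S ω ((i + s / m) * m)))).1
    have h4 := (abs_le.1 (abs_real_inner_le_norm w (S ω (i * m + s) - S ω ((i + s / m) * m)))).2
    rw [hw1, one_mul] at h3 h4
    rw [hsh, hsh, hlen]
    simp only [inner_sub_right] at h1 h2 h3 h4 ⊢
    constructor <;> linarith
  · intro s hs hCs
    have hnear := near_slot ω i s hm
    have h1 := (hL s hs).1
    have h3 := (abs_le.1 (abs_real_inner_le_norm e (S ω (i * m + s) - S ω ((i + s / m) * m)))).1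
    rw [he, one_mul] at h3
    rw [hsh]
    simp only [inner_sub_right] at h1 h3 ⊢
    have h4 : (s : ℝ) < ((s / m : ℕ) : ℝ) * m + m := by
      exact_mod_cast Nat.lt_div_mul_add (a := s) (b := m) (by omega)
    have h5 : (C : ℝ) ≤ s := by exact_mod_cast hCs
    have h6 : v / 2 * (m * (2 / v + 1)) < v / 2 * (((s / m : ℕ) : ℝ) * m) := by
      have : (m : ℝ) * (2 / v + 1) < ((s / m : ℕ) : ℝ) * m := by
        have : (m : ℝ) * (2 / v + 2) = m * (2 / v + 1) + m := by ring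
        linarith
      exact mul_lt_mul_of_pos_left this (by positivity)
    have h7 : v / 2 * (m * (2 / v + 1)) = m + v / 2 * m := by field_simp
    have h8 : 0 < v / 2 * m := by positivity
    nlinarith
  · intro s hsC
    have hs : s ≤ (j - i) * m := by omega
    have hnear := near_slot ω i s hm
    have h1 := (hR s hs).1
    have h3 := (abs_le.1 (abs_real_inner_le_norm e (S ω (i * m + s) - S ω ((i + s / m) * m)))).2
    rw [he, one_mul] at h3
    rw [hsh, hsh, hlen]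
    simp only [inner_sub_right] at h1 h3 ⊢
    have h4 : ((s / m : ℕ) : ℝ) * m ≤ s := by exact_mod_cast Nat.div_mul_le_self s m
    have h5 : (s : ℝ) + C ≤ ((j : ℝ) - i) * m := by
      have : ((s + C : ℕ) : ℝ) ≤ (((j - i) * m : ℕ) : ℝ) := by exact_mod_cast hsC
      rw [Nat.cast_mul, Nat.cast_sub hij.le, Nat.cast_add] at this
      exact this
    have h6 : v / 2 * (m * (2 / v + 2)) ≤ v / 2 * (m * ((j : ℝ) - (i + s / m : ℕ))) := by
      have : (m : ℝ) * (2 / v + 2) ≤ m * ((j : ℝ) - (i + s / m : ℕ)) := by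
        push_cast
        nlinarith
      exact mul_le_mul_of_nonneg_left this (by positivity)
    have h7 : v / 2 * (m * (2 / v + 2)) = m + v * m := by field_simp
    have h8 : 0 < v * m := by positivity
    nlinarith

end Pool.Agent.HypSAW98.SlowAll
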