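import Pool.Agent.HypSAW98.Events

/-!
# Hyperbolic space (upper half-space model) and the chain: definitions
-/

open MeasureTheory Set
open scoped RealInnerProductSpace

namespace Pool.Agent.HypSAW98

/-- Hyperbolic space of dimension `k + 1`: the upper half-space model, points `(a, t)` with
`a ∈ ℝ ^ k` and `t > 0`. -/
@[ext] structure HSp (k : ℕ) where
  /-- the horizontal coordinates -/
  a : EuclideanSpace ℝ (Fin k)
  /-- the height -/
  t : ℝ
  /-- the height is positive -/
  pos : 0 < t

variable {k : ℕ}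

/-- The hyperbolic distance, `2 arsinh (|x - y| / (2 √(t_x t_y)))` where `|x - y|` is the Euclidean
distance. -/
noncomputable def hdist (x y : HSp k) : ℝ :=
  2 * Real.arsinh (√(‖x.a - y.a‖ ^ 2 + (x.t - y.t) ^ 2) / (2 * √(x.t * y.t)))

/-- The horizontal part of a vector of `ℝ ^ (k + 1)`. -/
noncomputable def hor (u : Euc k) : EuclideanSpace ℝ (Fin k) :=
  WithLp.toLp 2 fun i => u (Fin.castSucc i)

/-- The vertical part of a vector of `ℝ ^ (k + 1)`. -/
def ver (u : Euc k) : ℝ := u (Fin.last k)

/-- `cosh ε - u_last sinh ε`. -/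
noncomputable def den (ε : ℝ) (u : Sph k) : ℝ := Real.cosh ε - Real.sinh ε * ver (u : Euc k)

lemma abs_ver_le (u : Sph k) : |ver (u : Euc k)| ≤ 1 := by
  have := PiLp.norm_apply_le (u : Euc k) (Fin.last k)
  rw [norm_step] at this
  exact this

lemma den_pos (ε : ℝ) (u : Sph k) : 0 < den ε u := by
  have h := abs_le.1 (abs_ver_le u)
  have h1 := Real.cosh_pos ε
  have h2 : |Real.sinh ε| < Real.cosh ε := by
    have := Real.cosh_sq ε
    rw [← abs_of_pos h1, ← sq_lt_sq]
    linarith
  have h3 : Real.sinh ε * ver (u : Euc k) ≤ |Real.sinh ε| := by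
    calc Real.sinh ε * ver (u : Euc k) ≤ |Real.sinh ε * ver (u : Euc k)| := le_abs_self _
      _ = |Real.sinh ε| * |ver (u : Euc k)| := abs_mul _ _
      _ ≤ |Real.sinh ε| * 1 := by gcongr; exact abs_ver_le u
      _ = _ := mul_one _
  unfold den; linarith

/-- The exponential map: the point at (signed) distance `ε` from `x` on the geodesic starting at
`x` with the unit tangent vector which is `t_x • u` in the coordinates of the half-space. -/
noncomputable def expPt (x : HSp k) (ε : ℝ) (u : Sph k) : HSp k where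
  a := x.a + (x.t * Real.sinh ε / den ε u) • hor (u : Euc k)
  t := x.t / den ε u
  pos := div_pos x.pos (den_pos ε u)

/-- The chain with steps of length `ε` and directions `ω 0, ω 1, ...`, started at `(0, 1)`. -/
noncomputable def chain (ε : ℝ) (ω : ℕ → Sph k) : ℕ → HSp k
  | 0 => ⟨0, 1, one_pos⟩
  | i + 1 => expPt (chain ε ω i) ε (ω i)

/-- The self-avoidance event: `d(x_i, x_j) > c ε` for all `0 ≤ i < j ≤ n`. -/
def SAH (k : ℕ) (c ε : ℝ) (n : ℕ) : Set (ℕ → Sph k) :=
  {ω | ∀ i j, i < j → j ≤ n → c * ε < hdist (chain ε ω i) (chain ε ω j)}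

end Pool.Agent.HypSAW98
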