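import Pool.Agent.HypSAW98.Hyp

/-!
# Flat limit of the chain for a fixed number of steps
-/

open MeasureTheory Set Filter Topology
open scoped RealInnerProductSpace

namespace Pool.Agent.HypSAW98

variable {k : ℕ}

/-- The upward unit vector. -/
noncomputable def up (k : ℕ) : Euc k := EuclideanSpace.single (Fin.last k) 1

/-- Bridges in hyperbolic space, in the direction of the point at infinity. -/
def BrH (k : ℕ) (c ε : ℝ) (n : ℕ) : Set (ℕ → Sph k) :=
  {ω | ω ∈ SAH k c ε n ∧ (∀ j, 1 ≤ j → j ≤ n → c * ε < Real.log (chain ε ω j).t) ∧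
    ∀ j < n, (chain ε ω j).t < (chain ε ω n).t}

namespace Lim

lemma tendsto_slope_comp {ι : Type*} {l : Filter ι} {f : ℝ → ℝ} {a f' : ℝ}
    (hf : HasDerivAt f f' a) {g e : ι → ℝ} {L : ℝ}
    (hg : Tendsto (fun i => (g i - a) / e i) l (𝓝 L)) (hga : Tendsto g l (𝓝 a)) :
    Tendsto (fun i => (f (g i) - f a) / e i) l (𝓝 (f' * L)) := by
  have h1 : Tendsto (fun i => dslope f a (g i)) l (𝓝 f') := by
    have h := (continuousAt_dslope_same.2 hf.differentiableAt).tendsto.comp hga
    rw [dslope_same, hf.deriv] at h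
    exact h
  have h2 := hg.mul h1
  rw [mul_comm L f'] at h2
  refine h2.congr fun i => ?_
  have h3 := sub_smul_dslope f a (g i)
  rw [smul_eq_mul] at h3
  rw [← h3]; ring

lemma tendsto_id_pos : Tendsto (fun ε : ℝ => ε) (𝓝[>] 0) (𝓝 0) :=
  tendsto_nhdsWithin_of_tendsto_nhds tendsto_id

lemma tendsto_self_div : Tendsto (fun ε : ℝ => (ε - 0) / ε) (𝓝[>] 0) (𝓝 1) := by
  refine tendsto_const_nhds.congr' ?_
  filter_upwards [self_mem_nhdsWithin] with ε hε
  have : ε ≠ 0 := (Set.mem_Ioi.1 hε).ne'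
  rw [sub_zero, div_self this]

lemma tendsto_sinh_div : Tendsto (fun ε : ℝ => Real.sinh ε / ε) (𝓝[>] 0) (𝓝 1) := by
  have h := tendsto_slope_comp (Real.hasDerivAt_sinh 0) tendsto_self_div tendsto_id_pos
  simpa using h

lemma tendsto_cosh_div : Tendsto (fun ε : ℝ => (Real.cosh ε - 1) / ε) (𝓝[>] 0) (𝓝 0) := by
  have h := tendsto_slope_comp (Real.hasDerivAt_cosh 0) tendsto_self_div tendsto_id_pos
  simpa using h

lemma tendsto_den (u : Sph k) : Tendsto (fun ε : ℝ => den ε u) (𝓝[>] 0) (𝓝 1) := by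
  have h : Continuous fun ε : ℝ => den ε u := by unfold den; fun_prop
  have h2 := h.tendsto 0
  have e : den 0 u = 1 := by simp [den]
  rw [e] at h2
  exact h2.mono_left nhdsWithin_le_nhds

lemma tendsto_den_div (u : Sph k) :
    Tendsto (fun ε : ℝ => (1 - den ε u) / ε) (𝓝[>] 0) (𝓝 (ver (u : Euc k))) := by
  have h := (tendsto_sinh_div.mul_const (ver (u : Euc k))).sub tendsto_cosh_div
  rw [one_mul, sub_zero] at h
  refine h.congr fun ε => ?_
  unfold den; ring

lemma ver_add (x y : Euc k) : ver (x + y) = ver x + ver y := by simp [ver]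

lemma hor_add (x y : Euc k) : hor (x + y) = hor x + hor y := by
  ext i; simp [hor]

lemma ver_sub (x y : Euc k) : ver (x - y) = ver x - ver y := by simp [ver]

lemma hor_sub (x y : Euc k) : hor (x - y) = hor x - hor y := by
  ext i; simp [hor]

lemma norm_sq_eq (x : Euc k) : ‖x‖ ^ 2 = ‖hor x‖ ^ 2 + ver x ^ 2 := by
  rw [EuclideanSpace.norm_sq_eq, EuclideanSpace.norm_sq_eq, Fin.sum_univ_castSucc]
  simp [hor, ver]

lemma tendsto_chain (ω : ℕ → Sph k) (n : ℕ) :
    Tendsto (fun ε : ℝ => ε⁻¹ • (chain ε ω n).a) (𝓝[>] 0) (𝓝 (hor (S ω n))) ∧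
    Tendsto (fun ε : ℝ => ((chain ε ω n).t - 1) / ε) (𝓝[>] 0) (𝓝 (ver (S ω n))) ∧
    Tendsto (fun ε : ℝ => (chain ε ω n).t) (𝓝[>] 0) (𝓝 1) := by
  induction n with
  | zero =>
    refine ⟨?_, ?_, ?_⟩
    · have : hor (S ω 0) = 0 := by ext i; simp [S_zero, hor]
      rw [this]; simp [chain]
    · have : ver (S ω 0) = 0 := by simp [S_zero, ver]
      rw [this]; simp [chain]
    · simp [chain]
  | succ n ih =>
    obtain ⟨h1, h2, h3⟩ := ih
    have hd := tendsto_den (k := k) (ω n)
    have hd' := hd.inv₀ one_ne_zero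
    rw [inv_one] at hd'
    refine ⟨?_, ?_, ?_⟩
    · rw [S_succ, hor_add]
      have h4 : Tendsto (fun ε : ℝ => ((chain ε ω n).t * (Real.sinh ε / ε) * (den ε (ω n))⁻¹) •
          hor (ω n : Euc k)) (𝓝[>] 0) (𝓝 ((1 * 1 * 1 : ℝ) • hor (ω n : Euc k))) :=
        ((h3.mul tendsto_sinh_div).mul hd').smul_const _
      simp only [mul_one, one_smul] at h4
      refine (h1.add h4).congr fun ε => ?_
      simp only [chain, expPt, smul_add, smul_smul]
      congr 2
      ring
    · rw [S_succ, ver_add]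
      have h4 := (h2.add (tendsto_den_div (k := k) (ω n))).mul hd'
      rw [mul_one] at h4
      refine h4.congr fun ε => ?_
      simp only [chain, expPt]
      have : den ε (ω n) ≠ 0 := (den_pos ε (ω n)).ne'
      field_simp
      ring
    · have := h3.mul hd'
      rw [mul_one] at this
      exact this

end Lim

open Lim

theorem tendsto_hdist (ω : ℕ → Sph k) (i j : ℕ) :
    Tendsto (fun ε : ℝ => hdist (chain ε ω i) (chain ε ω j) / ε) (𝓝[>] 0)
      (𝓝 ‖S ω j - S ω i‖) := by
  obtain ⟨a1, a2, a3⟩ := tendsto_chain ω i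
  obtain ⟨b1, b2, b3⟩ := tendsto_chain ω j
  -- the argument divided by ε
  have h1 : Tendsto (fun ε : ℝ => √(‖ε⁻¹ • (chain ε ω i).a - ε⁻¹ • (chain ε ω j).a‖ ^ 2 +
      (((chain ε ω i).t - 1) / ε - ((chain ε ω j).t - 1) / ε) ^ 2) /
      (2 * √((chain ε ω i).t * (chain ε ω j).t))) (𝓝[>] 0)
      (𝓝 (√(‖hor (S ω i) - hor (S ω j)‖ ^ 2 + (ver (S ω i) - ver (S ω j)) ^ 2) /
        (2 * √(1 * 1)))) := by
    refine Tendsto.div ?_ ?_ ?_
    · exact (((a1.sub b1).norm.pow 2).add ((a2.sub b2).pow 2)).sqrt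
    · exact (a3.mul b3).sqrt.const_mul 2
    · simp
  have e1 : √(‖hor (S ω i) - hor (S ω j)‖ ^ 2 + (ver (S ω i) - ver (S ω j)) ^ 2) /
        (2 * √(1 * 1)) = ‖S ω j - S ω i‖ / 2 := by
    rw [← hor_sub, ← ver_sub, ← norm_sq_eq, Real.sqrt_sq (norm_nonneg _), norm_sub_rev]
    simp
  rw [e1] at h1
  have h2 : Tendsto (fun ε : ℝ =>
      (√(‖(chain ε ω i).a - (chain ε ω j).a‖ ^ 2 + ((chain ε ω i).t - (chain ε ω j).t) ^ 2) /
      (2 * √((chain ε ω i).t * (chain ε ω j).t)) - 0) / ε) (𝓝[>] 0)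
      (𝓝 (‖S ω j - S ω i‖ / 2)) := by
    refine h1.congr' ?_
    filter_upwards [self_mem_nhdsWithin] with ε hε
    have hε' : 0 < ε := hε
    rw [← smul_sub, norm_smul, Real.norm_of_nonneg (inv_nonneg.2 hε'.le), sub_zero]
    have e2 : (ε⁻¹ * ‖(chain ε ω i).a - (chain ε ω j).a‖) ^ 2 +
        (((chain ε ω i).t - 1) / ε - ((chain ε ω j).t - 1) / ε) ^ 2 =
        (ε⁻¹) ^ 2 * (‖(chain ε ω i).a - (chain ε ω j).a‖ ^ 2 +
          ((chain ε ω i).t - (chain ε ω j).t) ^ 2) := by
      field_simp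
      ring
    rw [e2, Real.sqrt_mul (by positivity), Real.sqrt_sq (by positivity)]
    ring
  have h3 : Tendsto (fun ε : ℝ =>
      √(‖(chain ε ω i).a - (chain ε ω j).a‖ ^ 2 + ((chain ε ω i).t - (chain ε ω j).t) ^ 2) /
      (2 * √((chain ε ω i).t * (chain ε ω j).t))) (𝓝[>] 0) (𝓝 0) := by
    have h := h2.mul tendsto_id_pos
    rw [mul_zero] at h
    refine h.congr' ?_
    filter_upwards [self_mem_nhdsWithin] with ε hε
    have : ε ≠ 0 := (Set.mem_Ioi.1 hε).ne'
    rw [sub_zero, div_mul_cancel₀ _ this]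
  have h4 := (tendsto_slope_comp (Real.hasDerivAt_arsinh 0) h2 h3).const_mul 2
  have e3 : 2 * ((√(1 + (0 : ℝ) ^ 2))⁻¹ * (‖S ω j - S ω i‖ / 2)) = ‖S ω j - S ω i‖ := by
    simp
    ring
  rw [e3] at h4
  refine h4.congr fun ε => ?_
  simp only [Real.arsinh_zero, sub_zero, hdist]
  ring

lemma inner_up (x : Euc k) : ⟪up k, x⟫ = ver x := by
  simp [up, ver, EuclideanSpace.inner_single_left]

lemma norm_up : ‖up k‖ = 1 := by simp [up]

theorem tendsto_log_t (ω : ℕ → Sph k) (n : ℕ) :
    Tendsto (fun ε : ℝ => Real.log (chain ε ω n).t / ε) (𝓝[>] 0) (𝓝 ⟪up k, S ω n⟫) := by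
  obtain ⟨-, a2, a3⟩ := tendsto_chain ω n
  have h := tendsto_slope_comp (Real.hasDerivAt_log one_ne_zero) a2 a3
  rw [inner_up]
  simpa using h

namespace Lim

lemma continuous_ver : Continuous (ver : Euc k → ℝ) := by
  unfold ver; fun_prop

lemma continuous_hor : Continuous (hor : Euc k → EuclideanSpace ℝ (Fin k)) := by
  unfold hor
  fun_prop

lemma measurable_den (ε : ℝ) (n : ℕ) : Measurable fun ω : ℕ → Sph k => den ε (ω n) := by
  unfold den
  have h : Measurable fun ω : ℕ → Sph k => ver (ω n : Euc k) :=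
    continuous_ver.measurable.comp (measurable_subtype_coe.comp (measurable_pi_apply n))
  exact measurable_const.sub (measurable_const.mul h)

lemma measurable_chain (ε : ℝ) (n : ℕ) :
    (Measurable fun ω : ℕ → Sph k => (chain ε ω n).a) ∧
      Measurable fun ω : ℕ → Sph k => (chain ε ω n).t := by
  induction n with
  | zero => exact ⟨by simp only [chain]; exact measurable_const,
      by simp only [chain]; exact measurable_const⟩
  | succ n ih =>
    have h : Measurable fun ω : ℕ → Sph k => hor (ω n : Euc k) :=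
      continuous_hor.measurable.comp (measurable_subtype_coe.comp (measurable_pi_apply n))
    refine ⟨?_, ?_⟩
    · simp only [chain, expPt]
      exact ih.1.add (((ih.2.mul_const _).div (measurable_den ε n)).smul h)
    · simp only [chain, expPt]
      exact ih.2.div (measurable_den ε n)

lemma measurable_hd (ε : ℝ) (i j : ℕ) :
    Measurable fun ω : ℕ → Sph k => hdist (chain ε ω i) (chain ε ω j) := by
  unfold hdist
  have h1 := (measurable_chain (k := k) ε i)
  have h2 := (measurable_chain (k := k) ε j)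
  refine Measurable.const_mul ?_ 2
  refine Real.continuous_arsinh.measurable.comp ?_
  refine Measurable.div ?_ ?_
  · exact (((h1.1.sub h2.1).norm.pow_const 2).add ((h1.2.sub h2.2).pow_const 2)).sqrt
  · exact (h1.2.mul h2.2).sqrt.const_mul 2

lemma measurableSet_SAH (c ε : ℝ) (n : ℕ) : MeasurableSet (SAH k c ε n) := by
  have : SAH k c ε n = ⋂ (i : ℕ) (j : ℕ) (_ : i < j) (_ : j ≤ n),
      {ω | c * ε < hdist (chain ε ω i) (chain ε ω j)} := by
    ext ω; simp [SAH]
  rw [this]
  refine MeasurableSet.iInter fun i => MeasurableSet.iInter fun j => MeasurableSet.iInter fun _ =>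
    MeasurableSet.iInter fun _ => ?_
  exact measurableSet_lt measurable_const (measurable_hd ε i j)

lemma measurableSet_BrH (c ε : ℝ) (n : ℕ) : MeasurableSet (BrH k c ε n) := by
  have : BrH k c ε n = SAH k c ε n ∩
      ((⋂ (j : ℕ) (_ : 1 ≤ j) (_ : j ≤ n), {ω | c * ε < Real.log (chain ε ω j).t}) ∩
      ⋂ (j : ℕ) (_ : j < n), {ω | (chain ε ω j).t < (chain ε ω n).t}) := by
    ext ω; simp only [BrH, Set.mem_ofPred_eq, Set.mem_inter_iff, Set.mem_iInter]
  rw [this]
  refine (measurableSet_SAH c ε n).inter (MeasurableSet.inter ?_ ?_)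
  · exact MeasurableSet.iInter fun j => MeasurableSet.iInter fun _ => MeasurableSet.iInter fun _ =>
      measurableSet_lt measurable_const
        (Real.measurable_log.comp (measurable_chain (k := k) ε j).2)
  · exact MeasurableSet.iInter fun j => MeasurableSet.iInter fun _ =>
      measurableSet_lt (measurable_chain (k := k) ε j).2 (measurable_chain (k := k) ε n).2

lemma unif_norm_eq (hk : 1 ≤ k) {c : ℝ} (hc : c < 1) (y : Euc k) :
    unif k {u | ‖y + (u : Euc k)‖ = c} = 0 := by
  rcases eq_or_ne y 0 with hy | hy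
  · subst hy
    have : {u : Sph k | ‖(0 : Euc k) + (u : Euc k)‖ = c} = ∅ := by
      ext u
      simp only [Set.mem_ofPred_eq, zero_add, norm_step, Set.mem_empty_iff_false, iff_false]
      exact fun h => hc.ne' h
    rw [this, measure_empty]
  · refine measure_mono_null ?_ (unif_section hk hy ((c ^ 2 - ‖y‖ ^ 2 - 1) / 2))
    intro u hu
    simp only [Set.mem_ofPred_eq] at hu ⊢
    have h := norm_add_sq_real y (u : Euc k)
    rw [hu, norm_step] at h
    linarith

lemma law_norm_S_eq (hk : 1 ≤ k) {c : ℝ} (hc : c < 1) (l : ℕ) :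
    law k {ω | ‖S ω (l + 1)‖ = c} = 0 := by
  have hms : MeasurableSet {ω : ℕ → Sph k | ‖S ω (l + 1)‖ = c} :=
    measurableSet_eq_fun (measurable_S (l + 1)).norm measurable_const
  have h0 : law k {ω : ℕ → Sph k | ‖S ω (l + 1)‖ = c} = (((law k).prod (law k)).map
      (fun p : (ℕ → Sph k) × (ℕ → Sph k) => glue l p.1 p.2)) {ω | ‖S ω (l + 1)‖ = c} := by
    rw [map_glue (unif k) l]
  rw [h0, Measure.map_apply (measurable_glue l) hms,
    Measure.measure_prod_null (measurable_glue l hms)]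
  refine Filter.Eventually.of_forall fun a => ?_
  have e : (Prod.mk a ⁻¹' ((fun p : (ℕ → Sph k) × (ℕ → Sph k) => glue l p.1 p.2) ⁻¹'
      {ω : ℕ → Sph k | ‖S ω (l + 1)‖ = c})) =
      (fun b : ℕ → Sph k => b 0) ⁻¹' {u : Sph k | ‖S a l + (u : Euc k)‖ = c} := by
    ext b
    simp only [Set.mem_preimage, Set.mem_ofPred_eq]
    rw [S_succ, S_congr (ω := glue l a b) (ω' := a) (fun i hi => glue_lt hi a b)]
    have : glue l a b l = b 0 := by simpa using glue_add l 0 a b
    rw [this]
  simp only [Pi.zero_apply]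
  rw [e]
  have hmu : MeasurableSet {u : Sph k | ‖S a l + (u : Euc k)‖ = c} :=
    measurableSet_eq_fun (Continuous.measurable (by fun_prop)) measurable_const
  have h2 := (measurePreserving_eval_infinitePi (fun _ : ℕ => unif k) 0).measure_preimage
    hmu.nullMeasurableSet
  rw [h2, unif_norm_eq hk hc]

lemma ae_ne (hk : 1 ≤ k) {c : ℝ} (hc : c < 1) :
    ∀ᵐ ω ∂(law k), ∀ i j, i < j → ‖S ω j - S ω i‖ ≠ c := by
  rw [ae_all_iff]; intro i
  rw [ae_all_iff]; intro j
  by_cases hij : i < j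
  · have h1 : law k {ω | ‖S ω j - S ω i‖ = c} = 0 := by
      have e : {ω : ℕ → Sph k | ‖S ω j - S ω i‖ = c} =
          shift i ⁻¹' {ω | ‖S ω ((j - i - 1) + 1)‖ = c} := by
        ext ω
        simp only [Set.mem_preimage, Set.mem_ofPred_eq]
        rw [S_sub ω hij.le]
        have : j - i - 1 + 1 = j - i := by omega
        rw [this]
      rw [e, iid_shift (unif k) i
        (measurableSet_eq_fun (measurable_S _).norm measurable_const)]
      exact law_norm_S_eq hk hc _
    rw [ae_iff]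
    simpa [hij] using h1
  · exact Filter.Eventually.of_forall fun ω h => absurd h hij

end Lim

theorem sah_fast_le (hk : 1 ≤ k) {c : ℝ} (hc0 : 0 < c) (hc : c < 1) (m : ℕ) (v : ℝ) {η : ℝ}
    (hη : 0 < η) : ∀ᶠ ε : ℝ in 𝓝[>] 0,
      (law k).real {ω | ω ∈ SAH k c ε m ∧ v * m * ε ≤ hdist (chain ε ω 0) (chain ε ω m)} ≤
        (law k).real {ω | ω ∈ SA k c m ∧ v * m ≤ ‖S ω m‖} + η := by
  set A : Set (ℕ → Sph k) := {ω | ω ∈ SA k c m ∧ v * m ≤ ‖S ω m‖} with hA
  set F : ℝ → Set (ℕ → Sph k) := fun ε =>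
    {ω | ω ∈ SAH k c ε m ∧ v * m * ε ≤ hdist (chain ε ω 0) (chain ε ω m)} with hF
  have hAm : MeasurableSet A :=
    (measurableSet_SA c m).inter (measurableSet_le measurable_const (measurable_S m).norm)
  have hFm : ∀ ε, MeasurableSet (F ε) := fun ε =>
    (measurableSet_SAH c ε m).inter (measurableSet_le measurable_const (measurable_hd ε 0 m))
  have hlim : Tendsto (fun ε => law k (F ε ∪ A)) (𝓝[>] 0) (𝓝 (law k A)) := by
    refine tendsto_measure_of_ae_tendsto_indicator_of_isFiniteMeasure _ hAm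
      (fun ε => (hFm ε).union hAm) ?_
    filter_upwards [ae_ne hk hc] with ω hω
    by_cases hωA : ω ∈ A
    · exact Filter.Eventually.of_forall fun ε => by simp [hωA]
    · have hnot : ∀ᶠ ε in 𝓝[>] (0 : ℝ), ω ∉ F ε := by
        by_cases h1 : ω ∈ SA k c m
        · have h2 : ‖S ω m‖ < v * m := by
            by_contra h
            exact hωA ⟨h1, not_lt.1 h⟩
          have h3 := tendsto_hdist (k := k) ω 0 m
          rw [S_zero, sub_zero] at h3
          filter_upwards [h3.eventually (gt_mem_nhds h2), self_mem_nhdsWithin] with ε h4 hε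
          have hε' : 0 < ε := hε
          rw [div_lt_iff₀ hε'] at h4
          intro h5
          exact absurd h5.2 (not_le.2 h4)
        · simp only [SA, Set.mem_ofPred_eq, not_forall, not_lt] at h1
          obtain ⟨i, j, hij, hj, h2⟩ := h1
          have h3 : ‖S ω j - S ω i‖ < c := lt_of_le_of_ne h2 (hω i j hij)
          filter_upwards [(tendsto_hdist (k := k) ω i j).eventually (gt_mem_nhds h3),
            self_mem_nhdsWithin] with ε h4 hε
          have hε' : 0 < ε := hε
          rw [div_lt_iff₀ hε'] at h4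
          intro h5
          exact absurd (h5.1 i j hij hj) (not_lt.2 h4.le)
      filter_upwards [hnot] with ε hε
      simp [hωA, hε]
  have hlim2 : Tendsto (fun ε => (law k).real (F ε ∪ A)) (𝓝[>] 0) (𝓝 ((law k).real A)) :=
    (ENNReal.tendsto_toReal (measure_ne_top _ _)).comp hlim
  filter_upwards [hlim2.eventually (gt_mem_nhds (show (law k).real A < (law k).real A + η by
    linarith))] with ε hε
  exact (measureReal_mono Set.subset_union_left (measure_ne_top _ _)).trans hε.le

theorem sah_le (hk : 1 ≤ k) {c : ℝ} (hc0 : 0 < c) (hc : c < 1) (m : ℕ) {η : ℝ} (hη : 0 < η) :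
    ∀ᶠ ε : ℝ in 𝓝[>] 0, (law k).real (SAH k c ε m) ≤ Z k c m + η := by
  filter_upwards [sah_fast_le hk hc0 hc m 0 hη] with ε hε
  have e1 : {ω : ℕ → Sph k | ω ∈ SAH k c ε m ∧
      (0 : ℝ) * m * ε ≤ hdist (chain ε ω 0) (chain ε ω m)} = SAH k c ε m := by
    ext ω
    simp only [Set.mem_ofPred_eq, zero_mul, and_iff_left_iff_imp]
    intro _
    unfold hdist
    exact mul_nonneg (by norm_num) (Real.arsinh_nonneg_iff.2 (by positivity))
  have e2 : {ω : ℕ → Sph k | ω ∈ SA k c m ∧ (0 : ℝ) * m ≤ ‖S ω m‖} = SA k c m := by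
    ext ω
    simp only [Set.mem_ofPred_eq, zero_mul, norm_nonneg, and_true]
  rw [e1, e2] at hε
  exact hε

theorem brh_ge {c : ℝ} (hc0 : 0 < c) (m : ℕ) {η : ℝ} (hη : 0 < η) :
    ∀ᶠ ε : ℝ in 𝓝[>] 0, B k c (up k) m - η ≤ (law k).real (BrH k c ε m) := by
  set A : Set (ℕ → Sph k) := Br k c (up k) m with hA
  have hAm : MeasurableSet A := measurableSet_Br c (up k) m
  have hlim : Tendsto (fun ε => law k (BrH k c ε m ∩ A)) (𝓝[>] 0) (𝓝 (law k A)) := by
    refine tendsto_measure_of_ae_tendsto_indicator_of_isFiniteMeasure _ hAm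
      (fun ε => (measurableSet_BrH c ε m).inter hAm) ?_
    refine Filter.Eventually.of_forall fun ω => ?_
    by_cases hωA : ω ∈ A
    · have hin : ∀ᶠ ε in 𝓝[>] (0 : ℝ), ω ∈ BrH k c ε m := by
        obtain ⟨h1, h2, h3⟩ := hωA
        have g1 : ∀ᶠ ε in 𝓝[>] (0 : ℝ), ∀ j ≤ m, ∀ i < j,
            c * ε < hdist (chain ε ω i) (chain ε ω j) := by
          refine (Set.finite_Iic m).eventually_all.2 fun j hj => ?_
          refine (Set.finite_Iio j).eventually_all.2 fun i hi => ?_
          filter_upwards [(tendsto_hdist (k := k) ω i j).eventually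
            (lt_mem_nhds (h1 i j hi hj)), self_mem_nhdsWithin] with ε h4 hε
          have hε' : 0 < ε := hε
          rwa [lt_div_iff₀ hε'] at h4
        have g2 : ∀ᶠ ε in 𝓝[>] (0 : ℝ), ∀ j ≤ m, 1 ≤ j →
            c * ε < Real.log (chain ε ω j).t := by
          refine (Set.finite_Iic m).eventually_all.2 fun j hj => ?_
          by_cases hj1 : 1 ≤ j
          · filter_upwards [(tendsto_log_t (k := k) ω j).eventually
              (lt_mem_nhds (h2 j hj1 hj)), self_mem_nhdsWithin] with ε h4 hε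
            have hε' : 0 < ε := hε
            intro _
            rwa [lt_div_iff₀ hε'] at h4
          · exact Filter.Eventually.of_forall fun ε h => absurd h hj1
        have g3 : ∀ᶠ ε in 𝓝[>] (0 : ℝ), ∀ j < m, (chain ε ω j).t < (chain ε ω m).t := by
          refine (Set.finite_Iio m).eventually_all.2 fun j hj => ?_
          have hj' : ver (S ω j) < ver (S ω m) := by
            rw [← inner_up, ← inner_up]; exact h3 j hj
          filter_upwards [(tendsto_chain (k := k) ω j).2.1.eventually_lt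
            (tendsto_chain (k := k) ω m).2.1 hj', self_mem_nhdsWithin] with ε h4 hε
          have hε' : 0 < ε := hε
          rw [div_lt_div_iff_of_pos_right hε'] at h4
          linarith
        filter_upwards [g1, g2, g3] with ε h4 h5 h6
        exact ⟨fun i j hij hj => h4 j hj i hij, fun j hj1 hj => h5 j hj hj1, h6⟩
      filter_upwards [hin] with ε hε
      simp [hωA, hε]
    · exact Filter.Eventually.of_forall fun ε => by simp [hωA]
  have hlim2 : Tendsto (fun ε => (law k).real (BrH k c ε m ∩ A)) (𝓝[>] 0)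
      (𝓝 ((law k).real A)) :=
    (ENNReal.tendsto_toReal (measure_ne_top _ _)).comp hlim
  have hB : B k c (up k) m = (law k).real A := rfl
  filter_upwards [hlim2.eventually (lt_mem_nhds (show (law k).real A - η < (law k).real A by
    linarith))] with ε hε
  rw [hB]
  exact hε.le.trans (measureReal_mono Set.inter_subset_left (measure_ne_top _ _))

end Pool.Agent.HypSAW98
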