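import Mathlib

/-!
# Independent steps: the product measure on sequences, shifts and independence of blocks
-/

open MeasureTheory Set

namespace Pool.Agent.HypSAW98

variable {α : Type*}

/-- The sequence of steps seen from time `l` on. -/
def shift (l : ℕ) (ω : ℕ → α) : ℕ → α := fun i => ω (l + i)

/-- The set `A` depends only on the first `l` steps. -/
def Dep (l : ℕ) (A : Set (ℕ → α)) : Prop :=
  ∀ ω ω' : ℕ → α, (∀ i < l, ω i = ω' i) → (ω ∈ A ↔ ω' ∈ A)

/-- Use `a` for the first `l` steps and `b` afterwards. -/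
def glue (l : ℕ) (a b : ℕ → α) : ℕ → α := fun i => if i < l then a i else b (i - l)

lemma glue_lt {l i : ℕ} (h : i < l) (a b : ℕ → α) : glue l a b i = a i := by simp [glue, h]

lemma glue_add (l i : ℕ) (a b : ℕ → α) : glue l a b (l + i) = b i := by simp [glue]

lemma shift_glue (l : ℕ) (a b : ℕ → α) : shift l (glue l a b) = b := by
  funext i; simp [shift, glue_add]

lemma shift_shift (l m : ℕ) (ω : ℕ → α) : shift m (shift l ω) = shift (l + m) ω := by
  funext i; simp [shift, add_assoc]

lemma shift_zero (ω : ℕ → α) : shift 0 ω = ω := by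
  funext i; simp [shift]

lemma Dep.mono {l m : ℕ} (h : l ≤ m) {A : Set (ℕ → α)} (hA : Dep l A) : Dep m A :=
  fun ω ω' hω => hA ω ω' fun i hi => hω i (hi.trans_le h)

lemma Dep.inter {l : ℕ} {A B : Set (ℕ → α)} (hA : Dep l A) (hB : Dep l B) : Dep l (A ∩ B) :=
  fun ω ω' h => and_congr (hA ω ω' h) (hB ω ω' h)

lemma Dep.preimage_shift {l m : ℕ} {A : Set (ℕ → α)} (hA : Dep m A) :
    Dep (l + m) (shift l ⁻¹' A) := fun ω ω' h =>
  hA _ _ fun i hi => h (l + i) (by omega)

variable [MeasurableSpace α]

lemma measurable_shift (l : ℕ) : Measurable (shift (α := α) l) :=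
  measurable_pi_lambda _ fun i => measurable_pi_apply (l + i)

lemma measurable_glue (l : ℕ) :
    Measurable fun p : (ℕ → α) × (ℕ → α) => glue l p.1 p.2 := by
  refine measurable_pi_lambda _ fun i => ?_
  by_cases h : i < l
  · simp only [glue, h, if_true]
    exact (measurable_pi_apply i).comp measurable_fst
  · simp only [glue, h, if_false]
    exact (measurable_pi_apply (i - l)).comp measurable_snd

variable (σ : Measure α) [IsProbabilityMeasure σ]

/-- The law of a sequence of independent steps with law `σ`. -/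
noncomputable abbrev iid : Measure (ℕ → α) := Measure.infinitePi fun _ => σ

lemma map_glue (l : ℕ) :
    ((iid σ).prod (iid σ)).map (fun p : (ℕ → α) × (ℕ → α) => glue l p.1 p.2) = iid σ := by
  refine Measure.eq_infinitePi _ fun s t ht => ?_
  rw [Measure.map_apply (measurable_glue l)
    (MeasurableSet.pi s.countable_toSet fun i _ => ht i)]
  have hpre : (fun p : (ℕ → α) × (ℕ → α) => glue l p.1 p.2) ⁻¹' (Set.pi (s : Set ℕ) t) =
      (Set.pi ((s.filter (· < l) : Finset ℕ) : Set ℕ) t) ×ˢ
      (Set.pi (((s.filter (fun i => ¬ i < l)).image (fun i => i - l) : Finset ℕ) : Set ℕ)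
        (fun j => t (l + j))) := by
    ext ⟨a, b⟩
    simp only [Set.mem_preimage, Set.mem_pi, Finset.mem_coe, Set.mem_prod, Finset.mem_filter,
      Finset.mem_image]
    constructor
    · intro h
      refine ⟨fun i hi => ?_, ?_⟩
      · have := h i hi.1
        rwa [glue_lt hi.2] at this
      · rintro j ⟨i, ⟨his, hil⟩, rfl⟩
        have := h i his
        have e : l + (i - l) = i := by omega
        rw [e]
        simpa [glue, hil] using this
    · rintro ⟨h1, h2⟩ i hi
      by_cases hil : i < l
      · rw [glue_lt hil]; exact h1 i ⟨hi, hil⟩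
      · have := h2 (i - l) ⟨i, ⟨hi, hil⟩, rfl⟩
        have e : l + (i - l) = i := by omega
        rw [e] at this
        simpa [glue, hil] using this
  rw [hpre, Measure.prod_prod, Measure.infinitePi_pi _ (fun i _ => ht i),
    Measure.infinitePi_pi _ (fun i _ => ht _), Finset.prod_image, ← Finset.prod_filter_mul_prod_filter_not s (· < l)]
  · congr 1
    refine Finset.prod_congr rfl fun i hi => ?_
    have : ¬ i < l := (Finset.mem_filter.1 hi).2
    have e : l + (i - l) = i := by omega
    rw [e]
  · intro i hi j hj hij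
    have h1 : ¬ i < l := (Finset.mem_filter.1 hi).2
    have h2 : ¬ j < l := (Finset.mem_filter.1 hj).2
    simp only at hij
    omega

/-- Independence of a block and of what follows. -/
lemma iid_inter_shift {l : ℕ} {A B : Set (ℕ → α)} (hA : MeasurableSet A) (hd : Dep l A)
    (hB : MeasurableSet B) : (iid σ) (A ∩ shift l ⁻¹' B) = (iid σ) A * (iid σ) B := by
  have h1 : (iid σ) (A ∩ shift l ⁻¹' B) = ((iid σ).prod (iid σ)) (A ×ˢ B) := by
    conv_lhs => rw [← map_glue σ l]
    rw [Measure.map_apply (measurable_glue l) (hA.inter (measurable_shift l hB))]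
    congr 1
    ext ⟨a, b⟩
    simp only [Set.mem_preimage, Set.mem_inter_iff, Set.mem_prod, shift_glue]
    have : glue l a b ∈ A ↔ a ∈ A := hd _ _ fun i hi => glue_lt hi a b
    rw [this]
  rw [h1, Measure.prod_prod]

lemma iid_shift (l : ℕ) {B : Set (ℕ → α)} (hB : MeasurableSet B) :
    (iid σ) (shift l ⁻¹' B) = (iid σ) B := by
  have := iid_inter_shift σ (l := l) MeasurableSet.univ (fun _ _ _ => Iff.rfl) hB
  simpa using this

lemma real_inter_shift {l : ℕ} {A B : Set (ℕ → α)} (hA : MeasurableSet A) (hd : Dep l A)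
    (hB : MeasurableSet B) :
    (iid σ).real (A ∩ shift l ⁻¹' B) = (iid σ).real A * (iid σ).real B := by
  simp only [Measure.real, iid_inter_shift σ hA hd hB, ENNReal.toReal_mul]

lemma real_shift (l : ℕ) {B : Set (ℕ → α)} (hB : MeasurableSet B) :
    (iid σ).real (shift l ⁻¹' B) = (iid σ).real B := by
  simp only [Measure.real, iid_shift σ l hB]

/-- Several consecutive blocks of the same length. -/
lemma real_blocks (m : ℕ) (B : ℕ → Set (ℕ → α)) (hB : ∀ j, MeasurableSet (B j))
    (hd : ∀ j, Dep m (B j)) (N : ℕ) :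
    (iid σ).real {ω | ∀ j < N, shift (j * m) ω ∈ B j} = ∏ j ∈ Finset.range N, (iid σ).real (B j) ∧
      MeasurableSet {ω : ℕ → α | ∀ j < N, shift (j * m) ω ∈ B j} ∧
      Dep (N * m) {ω : ℕ → α | ∀ j < N, shift (j * m) ω ∈ B j} := by
  induction N with
  | zero =>
    refine ⟨by simp, by simp, fun ω ω' _ => by simp⟩
  | succ N ih =>
    have e : {ω : ℕ → α | ∀ j < N + 1, shift (j * m) ω ∈ B j} =
        {ω | ∀ j < N, shift (j * m) ω ∈ B j} ∩ shift (N * m) ⁻¹' (B N) := by
      ext ω
      simp only [Set.mem_inter_iff, Set.mem_preimage]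
      constructor
      · intro h
        exact ⟨fun j hj => h j (by omega), h N (by omega)⟩
      · rintro ⟨h1, h2⟩ j hj
        rcases Nat.lt_succ_iff_lt_or_eq.1 hj with h | h
        · exact h1 j h
        · rw [h]; exact h2
    refine ⟨?_, ?_, ?_⟩
    · rw [e, real_inter_shift σ ih.2.1 ih.2.2 (hB N), ih.1, Finset.prod_range_succ]
    · rw [e]; exact ih.2.1.inter (measurable_shift _ (hB N))
    · rw [e]
      refine Dep.inter (ih.2.2.mono ?_) ?_
      · nlinarith
      · have := (hd N).preimage_shift (l := N * m)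
        have h2 : N * m + m = (N + 1) * m := by ring
        rwa [h2] at this

/-- Chernoff type bound for the number of exceptional blocks. -/
lemma real_many_blocks (m : ℕ) {A B : Set (ℕ → α)} (hA : MeasurableSet A) (hB : MeasurableSet B)
    (hdA : Dep m A) (hdB : Dep m B) (N : ℕ) (a t : ℝ) (ht : 1 ≤ t) :
    (iid σ).real {ω | (∀ j < N, shift (j * m) ω ∈ B) ∧
      ∃ S ⊆ Finset.range N, a ≤ (S.card : ℝ) ∧ ∀ j ∈ S, shift (j * m) ω ∈ A} ≤
      t ^ (-a) * (t * (iid σ).real A + (iid σ).real B) ^ N := by
  classical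
  have ht0 : 0 < t := by linarith
  have hsub : {ω : ℕ → α | (∀ j < N, shift (j * m) ω ∈ B) ∧
      ∃ S ⊆ Finset.range N, a ≤ (S.card : ℝ) ∧ ∀ j ∈ S, shift (j * m) ω ∈ A} ⊆
      ⋃ S ∈ (Finset.range N).powerset.filter (fun S => a ≤ (S.card : ℝ)),
        {ω | ∀ j < N, shift (j * m) ω ∈ (if j ∈ S then A else B)} := by
    rintro ω ⟨h1, S, hS, hc, h2⟩
    simp only [Set.mem_iUnion]
    refine ⟨S, ?_, fun j hj => ?_⟩
    · simp [hS, hc]
    · by_cases hjS : j ∈ S
      · simp only [hjS, if_true]; exact h2 j hjS
      · simp only [hjS, if_false]; exact h1 j hj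
  have hprod : ∀ S ∈ (Finset.range N).powerset, (iid σ).real
      {ω : ℕ → α | ∀ j < N, shift (j * m) ω ∈ (if j ∈ S then A else B)} =
      (iid σ).real A ^ S.card * (iid σ).real B ^ (N - S.card) := by
    intro S hS
    rw [Finset.mem_powerset] at hS
    rw [(real_blocks σ m (fun j => if j ∈ S then A else B)
      (fun j => by split_ifs <;> assumption)
      (fun j => by split_ifs <;> assumption) N).1]
    rw [← Finset.prod_filter_mul_prod_filter_not (Finset.range N) (· ∈ S)]
    have e1 : (Finset.range N).filter (· ∈ S) = S := by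
      ext j; simp only [Finset.mem_filter]; constructor
      · exact fun h => h.2
      · exact fun h => ⟨hS h, h⟩
    have e2 : ((Finset.range N).filter (fun j => ¬ j ∈ S)).card = N - S.card := by
      have := Finset.card_filter_add_card_filter_not (s := Finset.range N) (· ∈ S)
      rw [e1, Finset.card_range] at this
      omega
    rw [Finset.prod_congr rfl (g := fun _ => (iid σ).real A), Finset.prod_const, e1]
    · rw [Finset.prod_congr rfl (g := fun _ => (iid σ).real B), Finset.prod_const, e2]
      intro j hj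
      simp [(Finset.mem_filter.1 hj).2]
    · intro j hj
      simp [(Finset.mem_filter.1 hj).2]
  calc _ ≤ (iid σ).real (⋃ S ∈ (Finset.range N).powerset.filter (fun S => a ≤ (S.card : ℝ)),
        {ω | ∀ j < N, shift (j * m) ω ∈ (if j ∈ S then A else B)}) :=
        measureReal_mono hsub (measure_ne_top _ _)
    _ ≤ ∑ S ∈ (Finset.range N).powerset.filter (fun S => a ≤ (S.card : ℝ)), (iid σ).real
        {ω | ∀ j < N, shift (j * m) ω ∈ (if j ∈ S then A else B)} :=
        measureReal_biUnion_finset_le _ _
    _ ≤ ∑ S ∈ (Finset.range N).powerset.filter (fun S => a ≤ (S.card : ℝ)),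
        t ^ (-a) * ((t * (iid σ).real A) ^ S.card * (iid σ).real B ^ (N - S.card)) := by
        refine Finset.sum_le_sum fun S hS => ?_
        rw [Finset.mem_filter] at hS
        rw [hprod S hS.1, mul_pow, ← mul_assoc, ← mul_assoc]
        refine mul_le_mul_of_nonneg_right ?_ (by positivity)
        have h1 : 1 ≤ t ^ (-a) * t ^ S.card := by
          rw [← Real.rpow_natCast, ← Real.rpow_add ht0]
          exact Real.one_le_rpow ht (by linarith [hS.2])
        have h2 : 0 ≤ (iid σ).real A ^ S.card := by positivity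
        nlinarith
    _ ≤ ∑ S ∈ (Finset.range N).powerset,
        t ^ (-a) * ((t * (iid σ).real A) ^ S.card * (iid σ).real B ^ (N - S.card)) := by
        refine Finset.sum_le_sum_of_subset_of_nonneg (Finset.filter_subset _ _) fun S _ _ => ?_
        positivity
    _ = t ^ (-a) * (t * (iid σ).real A + (iid σ).real B) ^ N := by
        rw [← Finset.mul_sum]
        congr 1
        have := Finset.sum_pow_mul_eq_add_pow (t * (iid σ).real A) ((iid σ).real B)
          (Finset.range N)
        rw [Finset.card_range] at this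
        exact this

end Pool.Agent.HypSAW98
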