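import Pool.Agent.HypSAW98.Shift

/-!
# The uniform measure on the unit sphere: invariance, caps, null sets
-/

open MeasureTheory Set
open scoped Pointwise RealInnerProductSpace

namespace Pool.Agent.HypSAW98

/-- Euclidean space of dimension `k + 1`. -/
abbrev Euc (k : ℕ) : Type := EuclideanSpace ℝ (Fin (k + 1))

/-- The unit sphere of Euclidean space of dimension `k + 1`. -/
abbrev Sph (k : ℕ) : Type := Metric.sphere (0 : Euc k) 1

/-- The uniform probability measure on the unit sphere (normalised surface measure). -/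
noncomputable def unif (k : ℕ) : Measure (Sph k) :=
  ((volume : Measure (Euc k)).toSphere univ)⁻¹ • (volume : Measure (Euc k)).toSphere

instance instProbUnif (k : ℕ) : IsProbabilityMeasure (unif k) := by
  constructor
  rw [unif, Measure.smul_apply, smul_eq_mul]
  refine ENNReal.inv_mul_cancel ?_ (measure_ne_top _ _)
  simp only [ne_eq, Measure.measure_univ_eq_zero]
  exact Measure.toSphere_ne_zero _

instance instOpenPosUnif (k : ℕ) : (unif k).IsOpenPosMeasure := by
  constructor
  intro U hU hne h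
  rw [unif, Measure.smul_apply, smul_eq_mul, mul_eq_zero] at h
  rcases h with h | h
  · exact ENNReal.inv_ne_zero.2 (measure_ne_top _ _) h
  · exact hU.measure_ne_zero _ hne h

variable {k : ℕ}

/-- The action of a linear isometry on the unit sphere. -/
noncomputable def rot (ρ : Euc k ≃ₗᵢ[ℝ] Euc k) (u : Sph k) : Sph k := ⟨ρ u, by simp⟩

lemma coe_rot (ρ : Euc k ≃ₗᵢ[ℝ] Euc k) (u : Sph k) : (rot ρ u : Euc k) = ρ u := rfl

lemma measurable_rot (ρ : Euc k ≃ₗᵢ[ℝ] Euc k) : Measurable (rot ρ) :=
  (ρ.continuous.comp continuous_subtype_val).measurable.subtype_mk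

lemma map_rot (ρ : Euc k ≃ₗᵢ[ℝ] Euc k) : (unif k).map (rot ρ) = unif k := by
  ext s hs
  rw [Measure.map_apply (measurable_rot ρ) hs, unif, Measure.smul_apply, Measure.smul_apply,
    Measure.toSphere_apply' _ hs, Measure.toSphere_apply' _ (measurable_rot ρ hs)]
  congr 2
  have h : (Ioo (0 : ℝ) 1 • ((↑) '' (rot ρ ⁻¹' s)) : Set (Euc k)) =
      ρ.toMeasurableEquiv ⁻¹' (Ioo (0 : ℝ) 1 • ((↑) '' s)) := by
    ext x
    simp only [Set.mem_smul, Set.mem_image, Set.mem_preimage]
    constructor
    · rintro ⟨a, ha, _, ⟨u, hu, rfl⟩, rfl⟩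
      refine ⟨a, ha, _, ⟨rot ρ u, hu, rfl⟩, ?_⟩
      rw [coe_rot]
      exact (ρ.map_smul a _).symm
    · rintro ⟨a, ha, _, ⟨u, hu, rfl⟩, hx⟩
      have hx' : x = a • ρ.symm u := by
        rw [← ρ.symm.map_smul, hx]
        exact (ρ.symm_apply_apply x).symm
      refine ⟨a, ha, _, ⟨rot ρ.symm u, ?_, rfl⟩, ?_⟩
      · have : rot ρ (rot ρ.symm u) = u := by
          apply Subtype.ext
          rw [coe_rot, coe_rot]
          exact ρ.apply_symm_apply _
        rw [this]; exact hu
      · rw [hx', coe_rot]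
  rw [h]
  exact (ρ.measurePreserving).measure_preimage_equiv _

/-- Sections of the sphere by hyperplanes are null sets in dimension at least two. -/
lemma unif_section (hk : 1 ≤ k) {y : Euc k} (hy : y ≠ 0) (t : ℝ) :
    unif k {u | ⟪y, (u : Euc k)⟫ = t} = 0 := by
  have key : ∀ (y : Euc k) (t : ℝ), y ≠ 0 → 0 ≤ t →
      volume {x : Euc k | x ≠ 0 ∧ ⟪y, x⟫ = t * ‖x‖} = 0 := by
    intro y t hy ht
    rcases lt_or_ge t ‖y‖ with h | h
    · have hconv : Convex ℝ {x : Euc k | t * ‖x‖ ≤ ⟪y, x⟫} := by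
        intro x hx z hz a b ha hb hab
        simp only [Set.mem_ofPred_eq] at hx hz ⊢
        rw [inner_add_right, inner_smul_right, inner_smul_right]
        have := norm_add_le (a • x) (b • z)
        rw [norm_smul, norm_smul, Real.norm_of_nonneg ha, Real.norm_of_nonneg hb] at this
        calc t * ‖a • x + b • z‖ ≤ t * (a * ‖x‖ + b * ‖z‖) := by gcongr
          _ = a * (t * ‖x‖) + b * (t * ‖z‖) := by ring
          _ ≤ _ := by gcongr
      refine measure_mono_null ?_ (hconv.addHaar_frontier volume)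
      rintro x ⟨hx0, hx⟩
      refine ⟨subset_closure (by simp only [Set.mem_ofPred_eq]; exact hx.ge), fun hint => ?_⟩
      rw [mem_interior_iff_mem_nhds] at hint
      have hcont : Filter.Tendsto (fun s : ℝ => x - s • y) (nhdsWithin 0 (Ioi 0)) (nhds x) := by
        have : Filter.Tendsto (fun s : ℝ => x - s • y) (nhds 0) (nhds (x - (0 : ℝ) • y)) :=
          (Continuous.tendsto (by fun_prop) 0)
        simp only [zero_smul, sub_zero] at this
        exact this.mono_left nhdsWithin_le_nhds
      have h2 := (hcont.eventually hint).and self_mem_nhdsWithin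
      obtain ⟨s, hs1, hs2⟩ := h2.exists
      replace hs1 : t * ‖x - s • y‖ ≤ ⟪y, x - s • y⟫ := hs1
      replace hs2 : 0 < s := hs2
      rw [inner_sub_right, inner_smul_right, real_inner_self_eq_norm_sq] at hs1
      have h3 : ‖x‖ - s * ‖y‖ ≤ ‖x - s • y‖ := by
        have := norm_sub_norm_le x (s • y)
        rwa [norm_smul, Real.norm_of_nonneg hs2.le] at this
      have hyp : 0 < ‖y‖ := norm_pos_iff.2 hy
      have h4 : t * (‖x‖ - s * ‖y‖) ≤ t * ‖x - s • y‖ := by gcongr
      have h5 : s * ‖y‖ * t < s * ‖y‖ * ‖y‖ := by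
        apply mul_lt_mul_of_pos_left h (by positivity)
      nlinarith
    · have hsub : {x : Euc k | x ≠ 0 ∧ ⟪y, x⟫ = t * ‖x‖} ⊆
          ((ℝ ∙ y : Submodule ℝ (Euc k)) : Set (Euc k)) := by
        rintro x ⟨hx0, hx⟩
        have h1 : ⟪y, x⟫ = ‖y‖ * ‖x‖ := by
          refine le_antisymm (real_inner_le_norm y x) ?_
          rw [hx]; gcongr
        rw [inner_eq_norm_mul_iff_real] at h1
        have hyp : ‖y‖ ≠ 0 := norm_ne_zero_iff.2 hy
        have : x = (‖y‖⁻¹ * ‖x‖) • y := by
          rw [mul_smul, h1, smul_smul, inv_mul_cancel₀ hyp, one_smul]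
        rw [this]
        exact Submodule.smul_mem _ _ (Submodule.mem_span_singleton_self y)
      refine measure_mono_null hsub (Measure.addHaar_submodule volume _ ?_)
      intro htop
      have h1 : Module.finrank ℝ (ℝ ∙ y : Submodule ℝ (Euc k)) = 1 := finrank_span_singleton hy
      rw [htop, finrank_top, finrank_euclideanSpace, Fintype.card_fin] at h1
      omega
  have hms : MeasurableSet {u : Sph k | ⟪y, (u : Euc k)⟫ = t} :=
    measurableSet_eq_fun (Continuous.measurable (by fun_prop)) measurable_const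
  rw [unif, Measure.smul_apply, Measure.toSphere_apply' _ hms, smul_eq_mul]
  have : volume (Ioo (0 : ℝ) 1 • ((↑) '' {u : Sph k | ⟪y, (u : Euc k)⟫ = t}) : Set (Euc k)) = 0 := by
    rcases le_total 0 t with ht | ht
    · refine measure_mono_null ?_ (key y t hy ht)
      intro x hx
      simp only [Set.mem_smul, Set.mem_image] at hx
      obtain ⟨a, ha, _, ⟨u, hu, rfl⟩, rfl⟩ := hx
      have hu1 : ‖(u : Euc k)‖ = 1 := by simp
      refine ⟨?_, ?_⟩
      · rw [← norm_pos_iff, norm_smul, hu1, Real.norm_of_nonneg ha.1.le]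
        simpa using ha.1
      · simp only [Set.mem_ofPred_eq] at hu
        rw [inner_smul_right, norm_smul, hu1, Real.norm_of_nonneg ha.1.le, hu]
        ring
    · refine measure_mono_null ?_ (key (-y) (-t) (neg_ne_zero.2 hy) (by linarith))
      intro x hx
      simp only [Set.mem_smul, Set.mem_image] at hx
      obtain ⟨a, ha, _, ⟨u, hu, rfl⟩, rfl⟩ := hx
      have hu1 : ‖(u : Euc k)‖ = 1 := by simp
      refine ⟨?_, ?_⟩
      · rw [← norm_pos_iff, norm_smul, hu1, Real.norm_of_nonneg ha.1.le]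
        simpa using ha.1
      · simp only [Set.mem_ofPred_eq] at hu
        rw [inner_smul_right, norm_smul, hu1, Real.norm_of_nonneg ha.1.le, inner_neg_left, hu]
        ring
  rw [this]
  simp

/-- The law of the sequence of steps. -/
noncomputable abbrev law (k : ℕ) : Measure (ℕ → Sph k) := iid (unif k)

/-- Rotate every step. -/
noncomputable def rotAll (ρ : Euc k ≃ₗᵢ[ℝ] Euc k) (ω : ℕ → Sph k) : ℕ → Sph k := fun i => rot ρ (ω i)

lemma measurable_rotAll (ρ : Euc k ≃ₗᵢ[ℝ] Euc k) : Measurable (rotAll ρ) :=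
  measurable_pi_lambda _ fun i => (measurable_rot ρ).comp (measurable_pi_apply i)

lemma map_rotAll (ρ : Euc k ≃ₗᵢ[ℝ] Euc k) : (law k).map (rotAll ρ) = law k := by
  have := Measure.infinitePi_map_pi (μ := fun _ : ℕ => unif k) (f := fun _ => rot ρ)
    (fun _ => measurable_rot ρ)
  simp only [map_rot] at this
  exact this

lemma law_rotAll (ρ : Euc k ≃ₗᵢ[ℝ] Euc k) {A : Set (ℕ → Sph k)} (hA : MeasurableSet A) :
    (law k).real (rotAll ρ ⁻¹' A) = (law k).real A := by
  conv_rhs => rw [← map_rotAll ρ]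
  rw [Measure.real, Measure.real, Measure.map_apply (measurable_rotAll ρ) hA]

end Pool.Agent.HypSAW98
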