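import Pool.Agent.HypSAW98.Sphere

/-!
# The Euclidean chain, self-avoidance and the growth constant
-/

open MeasureTheory Set
open scoped RealInnerProductSpace

namespace Pool.Agent.HypSAW98

variable {k : ℕ}

/-- The position after `n` steps of the chain started at `0`. -/
noncomputable def S (ω : ℕ → Sph k) (n : ℕ) : Euc k := ∑ i ∈ Finset.range n, (ω i : Euc k)

lemma S_zero (ω : ℕ → Sph k) : S ω 0 = 0 := by simp [S]

lemma S_succ (ω : ℕ → Sph k) (n : ℕ) : S ω (n + 1) = S ω n + (ω n : Euc k) := by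
  simp [S, Finset.sum_range_succ]

lemma S_add (ω : ℕ → Sph k) (l n : ℕ) : S ω (l + n) = S ω l + S (shift l ω) n := by
  simp [S, Finset.sum_range_add, shift]

lemma S_congr {ω ω' : ℕ → Sph k} {n : ℕ} (h : ∀ i < n, ω i = ω' i) : S ω n = S ω' n :=
  Finset.sum_congr rfl fun i hi => by rw [h i (Finset.mem_range.1 hi)]

lemma norm_step (u : Sph k) : ‖(u : Euc k)‖ = 1 := by simp

lemma norm_S_le (ω : ℕ → Sph k) (n : ℕ) : ‖S ω n‖ ≤ n := by
  refine (norm_sum_le _ _).trans ?_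
  simp

lemma S_sub (ω : ℕ → Sph k) {i j : ℕ} (h : i ≤ j) : S ω j - S ω i = S (shift i ω) (j - i) := by
  obtain ⟨m, rfl⟩ := Nat.exists_eq_add_of_le h
  rw [S_add]; simp

lemma norm_S_sub_le (ω : ℕ → Sph k) {i j : ℕ} (h : i ≤ j) : ‖S ω j - S ω i‖ ≤ (j : ℝ) - i := by
  rw [S_sub ω h]
  refine (norm_S_le _ _).trans ?_
  rw [Nat.cast_sub h]

lemma S_rotAll (ρ : Euc k ≃ₗᵢ[ℝ] Euc k) (ω : ℕ → Sph k) (n : ℕ) :
    S (rotAll ρ ω) n = ρ (S ω n) := by
  simp only [S, rotAll, coe_rot, map_sum]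

lemma measurable_S (n : ℕ) : Measurable fun ω : ℕ → Sph k => S ω n := by
  unfold S
  refine Finset.measurable_sum _ fun i _ => ?_
  exact measurable_subtype_coe.comp (measurable_pi_apply i)

/-- The first `n` steps are `c`-self-avoiding. -/
def SA (k : ℕ) (c : ℝ) (n : ℕ) : Set (ℕ → Sph k) :=
  {ω | ∀ i j, i < j → j ≤ n → c < ‖S ω j - S ω i‖}

lemma measurableSet_SA (c : ℝ) (n : ℕ) : MeasurableSet (SA k c n) := by
  have : SA k c n = ⋂ (i : ℕ) (j : ℕ) (_ : i < j) (_ : j ≤ n), {ω | c < ‖S ω j - S ω i‖} := by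
    ext ω; simp [SA]
  rw [this]
  refine MeasurableSet.iInter fun i => MeasurableSet.iInter fun j => MeasurableSet.iInter fun _ =>
    MeasurableSet.iInter fun _ => ?_
  exact measurableSet_lt measurable_const (((measurable_S j).sub (measurable_S i)).norm)

lemma dep_SA (c : ℝ) (n : ℕ) : Dep n (SA k c n) := by
  intro ω ω' h
  have h1 : ∀ j ≤ n, S ω j = S ω' j := fun j hj => S_congr fun i hi => h i (by omega)
  simp only [SA, Set.mem_ofPred_eq]
  constructor
  · intro hA i j hij hj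
    rw [← h1 j hj, ← h1 i (by omega)]; exact hA i j hij hj
  · intro hA i j hij hj
    rw [h1 j hj, h1 i (by omega)]; exact hA i j hij hj

lemma SA_anti (c : ℝ) {m n : ℕ} (h : m ≤ n) : SA k c n ⊆ SA k c m :=
  fun _ hω i j hij hj => hω i j hij (hj.trans h)

lemma SA_shift {c : ℝ} {l m n : ℕ} (h : l + m ≤ n) {ω : ℕ → Sph k} (hω : ω ∈ SA k c n) :
    shift l ω ∈ SA k c m := by
  intro i j hij hj
  have := hω (l + i) (l + j) (by omega) (by omega)
  rw [S_add, S_add] at this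
  simpa using this

lemma SA_rotAll (c : ℝ) (n : ℕ) (ρ : Euc k ≃ₗᵢ[ℝ] Euc k) (ω : ℕ → Sph k) :
    rotAll ρ ω ∈ SA k c n ↔ ω ∈ SA k c n := by
  simp only [SA, Set.mem_ofPred_eq, S_rotAll, ← map_sub, LinearIsometryEquiv.norm_map]

/-- The probability that the first `n` steps are `c`-self-avoiding. -/
noncomputable def Z (k : ℕ) (c : ℝ) (n : ℕ) : ℝ := (law k).real (SA k c n)

lemma Z_nonneg (c : ℝ) (n : ℕ) : 0 ≤ Z k c n := measureReal_nonneg

lemma Z_le_one (c : ℝ) (n : ℕ) : Z k c n ≤ 1 := measureReal_le_one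

lemma Z_submul (c : ℝ) (l m : ℕ) : Z k c (l + m) ≤ Z k c l * Z k c m := by
  unfold Z
  rw [← real_inter_shift (unif k) (measurableSet_SA c l) (dep_SA c l) (measurableSet_SA c m)]
  exact measureReal_mono (fun ω hω => ⟨SA_anti c (Nat.le_add_right l m) hω, SA_shift le_rfl hω⟩)
    (measure_ne_top _ _)

/-- The steps in a cap around `e`. -/
def cap (e : Euc k) (r : ℝ) : Set (Sph k) := {u | ‖(u : Euc k) - e‖ < r}

lemma isOpen_cap (e : Euc k) (r : ℝ) : IsOpen (cap e r) :=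
  isOpen_lt (by fun_prop) continuous_const

lemma measurableSet_cap (e : Euc k) (r : ℝ) : MeasurableSet (cap e r) :=
  (isOpen_cap e r).measurableSet

/-- The probability of a cap. -/
noncomputable def capP (e : Euc k) (r : ℝ) : ℝ := (unif k).real (cap e r)

lemma capP_pos {e : Euc k} (he : ‖e‖ = 1) {r : ℝ} (hr : 0 < r) : 0 < capP e r := by
  unfold capP
  rw [measureReal_def, ENNReal.toReal_pos_iff]
  refine ⟨(isOpen_cap e r).measure_pos _ ⟨⟨e, by simp [he]⟩, ?_⟩, measure_lt_top _ _⟩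
  simp [cap, hr]

lemma capP_le_one (e : Euc k) (r : ℝ) : capP e r ≤ 1 := measureReal_le_one

/-- The first `n` steps are in a cap around `e`. -/
def Caps (e : Euc k) (r : ℝ) (n : ℕ) : Set (ℕ → Sph k) := {ω | ∀ i < n, ω i ∈ cap e r}

lemma Caps_eq (e : Euc k) (r : ℝ) (n : ℕ) :
    Caps e r n = Set.pi ((Finset.range n : Finset ℕ) : Set ℕ) (fun _ => cap e r) := by
  ext ω; simp [Caps, Set.mem_pi]

lemma measurableSet_Caps (e : Euc k) (r : ℝ) (n : ℕ) : MeasurableSet (Caps e r n) := by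
  rw [Caps_eq]
  exact MeasurableSet.pi (Finset.countable_toSet _) fun i _ => measurableSet_cap e r

lemma dep_Caps (e : Euc k) (r : ℝ) (n : ℕ) : Dep n (Caps e r n) := by
  intro ω ω' h
  simp only [Caps, Set.mem_ofPred_eq]
  constructor
  · intro hA i hi; rw [← h i hi]; exact hA i hi
  · intro hA i hi; rw [h i hi]; exact hA i hi

lemma law_Caps (e : Euc k) (r : ℝ) (n : ℕ) : (law k).real (Caps e r n) = capP e r ^ n := by
  rw [Caps_eq, Measure.real, Measure.infinitePi_pi _ (fun i _ => measurableSet_cap e r),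
    Finset.prod_const, Finset.card_range, ENNReal.toReal_pow]
  rfl

/-- Two unit vectors close to `e` have a large inner product. -/
lemma inner_ge_of_near {e w u : Euc k} (hw : ‖w‖ = 1) (hu : ‖u‖ = 1) {r : ℝ}
    (hwe : ‖w - e‖ ≤ r) (hue : ‖u - e‖ ≤ r) : 1 - 2 * r ^ 2 ≤ ⟪w, u⟫ := by
  have h1 : ‖w - u‖ ≤ 2 * r := by
    have : w - u = (w - e) - (u - e) := by abel
    rw [this]
    refine (norm_sub_le _ _).trans (by linarith)
  have h2 := norm_sub_sq_real w u
  rw [hw, hu] at h2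
  have h3 : ‖w - u‖ ^ 2 ≤ (2 * r) ^ 2 := by gcongr
  nlinarith

/-- The aperture used for caps. -/
noncomputable def ap (c : ℝ) : ℝ := (1 - c) / 3

/-- The lower bound for the speed of steps in caps. -/
noncomputable def sp (c : ℝ) : ℝ := (1 + c) / 2

lemma ap_pos {c : ℝ} (hc : c < 1) : 0 < ap c := by unfold ap; linarith

lemma ap_le {c : ℝ} (hc : 0 ≤ c) : ap c ≤ 1 / 3 := by unfold ap; linarith

lemma sp_gt {c : ℝ} (hc : c < 1) : c < sp c := by unfold sp; linarith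

lemma sp_le_inner {c : ℝ} (hc0 : 0 ≤ c) (hc : c < 1) {e w u : Euc k} (hw : ‖w‖ = 1)
    (hu : ‖u‖ = 1) (hwe : ‖w - e‖ ≤ ap c) (hue : ‖u - e‖ ≤ ap c) : sp c ≤ ⟪w, u⟫ := by
  refine le_trans ?_ (inner_ge_of_near hw hu hwe hue)
  unfold sp ap
  nlinarith [mul_pos (sub_pos.2 hc) (sub_pos.2 hc)]

/-- Steps in the cap move forward. -/
lemma caps_forward {c : ℝ} (hc0 : 0 ≤ c) (hc : c < 1) {e w : Euc k} (hw : ‖w‖ = 1)
    (hwe : ‖w - e‖ ≤ ap c) {ω : ℕ → Sph k} {n : ℕ} (hω : ω ∈ Caps e (ap c) n) {i j : ℕ}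
    (hij : i ≤ j) (hj : j ≤ n) : sp c * ((j : ℝ) - i) ≤ ⟪w, S ω j - S ω i⟫ := by
  rw [S_sub ω hij]
  have : ⟪w, S (shift i ω) (j - i)⟫ = ∑ t ∈ Finset.range (j - i), ⟪w, (ω (i + t) : Euc k)⟫ := by
    simp only [S, inner_sum, shift]
  rw [this]
  calc sp c * ((j : ℝ) - i) = ∑ t ∈ Finset.range (j - i), sp c := by
        rw [Finset.sum_const, Finset.card_range, nsmul_eq_mul, Nat.cast_sub hij]; ring
    _ ≤ _ := by
        refine Finset.sum_le_sum fun t ht => ?_
        have ht' := Finset.mem_range.1 ht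
        exact sp_le_inner hc0 hc hw (norm_step _) hwe (hω (i + t) (by omega)).le

lemma Caps_subset_SA {c : ℝ} (hc0 : 0 ≤ c) (hc : c < 1) {e : Euc k} (he : ‖e‖ = 1) (n : ℕ) :
    Caps e (ap c) n ⊆ SA k c n := by
  intro ω hω i j hij hj
  have h1 := caps_forward hc0 hc he (by simpa using (ap_pos hc).le) hω hij.le hj
  have h2 : (1 : ℝ) ≤ (j : ℝ) - i := by
    have : (i : ℝ) + 1 ≤ j := by exact_mod_cast hij
    linarith
  have h3 := sp_gt hc
  have h4 := real_inner_le_norm e (S ω j - S ω i)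
  rw [he, one_mul] at h4
  have h5 : 0 < sp c := by linarith
  nlinarith

lemma capP_pow_le_Z {c : ℝ} (hc0 : 0 ≤ c) (hc : c < 1) {e : Euc k} (he : ‖e‖ = 1) (n : ℕ) :
    capP e (ap c) ^ n ≤ Z k c n := by
  rw [← law_Caps]
  exact measureReal_mono (Caps_subset_SA hc0 hc he n) (measure_ne_top _ _)

/-- The growth constant: `μ ^ n ≤ Z n`, and `Z n ≤ ρ ^ n` eventually for every `ρ > μ`. -/
lemma exists_mu {c : ℝ} (hc0 : 0 ≤ c) (hc : c < 1) :
    ∃ μ : ℝ, 0 < μ ∧ μ ≤ 1 ∧ (∀ n, μ ^ n ≤ Z k c n) ∧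
      ∀ ρ > μ, ∃ N, ∀ n ≥ N, Z k c n ≤ ρ ^ n := by
  obtain ⟨e, he⟩ : ∃ e : Euc k, ‖e‖ = 1 := ⟨EuclideanSpace.single 0 1, by simp⟩
  have hcap := capP_pos he (ap_pos hc)
  have hZpos : ∀ n, 0 < Z k c n := fun n =>
    lt_of_lt_of_le (pow_pos hcap n) (capP_pow_le_Z hc0 hc he n)
  have hsub : Subadditive (fun n => Real.log (Z k c n)) := by
    intro m n
    rw [← Real.log_mul (hZpos m).ne' (hZpos n).ne']
    exact Real.log_le_log (hZpos _) (Z_submul c m n)
  have hbdd : BddBelow (Set.range fun n : ℕ => Real.log (Z k c n) / n) := by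
    refine ⟨Real.log (capP e (ap c)), ?_⟩
    rintro _ ⟨n, rfl⟩
    rcases Nat.eq_zero_or_pos n with h | h
    · subst h
      simp only [Nat.cast_zero, div_zero]
      exact Real.log_nonpos hcap.le (capP_le_one _ _)
    · rw [le_div_iff₀ (by exact_mod_cast h), mul_comm, ← Real.log_pow]
      exact Real.log_le_log (pow_pos hcap n) (capP_pow_le_Z hc0 hc he n)
  have hlim := hsub.tendsto_lim hbdd
  refine ⟨Real.exp hsub.lim, Real.exp_pos _, ?_, ?_, ?_⟩
  · rw [Real.exp_le_one_iff]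
    refine le_trans (hsub.lim_le_div hbdd one_ne_zero) ?_
    simp only [Nat.cast_one, div_one]
    exact Real.log_nonpos (Z_nonneg _ _) (Z_le_one _ _)
  · intro n
    rcases Nat.eq_zero_or_pos n with h | h
    · subst h
      have : Z k c 0 = 1 := by
        refine le_antisymm (Z_le_one _ _) ?_
        have := capP_pow_le_Z hc0 hc he 0
        simpa using this
      rw [this]; simp
    · have h1 := hsub.lim_le_div hbdd h.ne'
      rw [le_div_iff₀ (by exact_mod_cast h)] at h1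
      rw [← Real.exp_nat_mul]
      rw [← Real.le_log_iff_exp_le (hZpos n)]
      linarith
  · intro ρ hρ
    have hρ0 : 0 < ρ := (Real.exp_pos _).trans hρ
    have h1 : hsub.lim < Real.log ρ := by
      rwa [Real.lt_log_iff_exp_lt hρ0]
    have h2 := (hlim.eventually (gt_mem_nhds h1)).and (Filter.eventually_ge_atTop 1)
    obtain ⟨N, hN⟩ := Filter.eventually_atTop.1 h2
    refine ⟨N, fun n hn => ?_⟩
    obtain ⟨h3, h4⟩ := hN n hn
    rw [div_lt_iff₀ (by exact_mod_cast h4)] at h3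
    rw [← Real.log_le_log_iff (hZpos n) (pow_pos hρ0 n), Real.log_pow]
    linarith

end Pool.Agent.HypSAW98
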